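import Pool.Agent.W854.FA.Fam
import Pool.Agent.H634R3.AA.Asm
import Pool.Agent.H634R3.AA.Final

set_option autoImplicit false

/-!
# Almost all numbers of points: assembly
-/

namespace Pool.Agent.W854.FA

open Finset Pool.Agent.H951R4.OD Pool.Agent.H634R3.AA Filter Topology

/-- `v` points carry a nontrivial symmetric design with such an automorphism -/
def HasE (Q v : ℕ) : Prop :=
  ∃ (k lam : ℕ) (B : Fin v → Finset (Fin v)) (σ : Equiv.Perm (Fin v)) (q a : ℕ),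
    2 ≤ k ∧ k + 2 ≤ v ∧ EDes Q v k lam B σ q a

/-- the same with `v` odd and `k (v - 1 - k)` a square -/
def HasSqE (Q v : ℕ) : Prop :=
  Odd v ∧ ∃ (k lam : ℕ) (B : Fin v → Finset (Fin v)) (σ : Equiv.Perm (Fin v)) (q a : ℕ),
    2 ≤ k ∧ k + 2 ≤ v ∧ EDes Q v k lam B σ q a ∧ IsSquare (k * (v - 1 - k))

theorem small_sqE (Q : ℕ) : Small (HasSqE Q) := by
  intro ε hε
  obtain ⟨D, N0, h0⟩ := TailBig.tailBig (ε / 3) (by positivity)
  obtain ⟨N1, h1⟩ := tsmall (ε / 3) (by positivity)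
  have hF : Small (fun v => ∃ i ∈ Finset.Icc 1 D ×ˢ Finset.Icc 1 D, FixE Q i.1 i.2 v) :=
    small_finset _ _ fun i hi => by
      rw [Finset.mem_product, Finset.mem_Icc, Finset.mem_Icc] at hi
      exact small_fixE Q hi.1.1 hi.2.1
  obtain ⟨N2, h2⟩ := hF (ε / 3) (by positivity)
  refine ⟨max N0 (max N1 N2), fun N hN => ?_⟩
  have e0 := h0 N (le_trans (le_max_left _ _) hN)
  have e1 := h1 N (le_trans (le_trans (le_max_left _ _) (le_max_right _ _)) hN)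
  have e2 := h2 N (le_trans (le_trans (le_max_right _ _) (le_max_right _ _)) hN)
  have hsub : {v : ℕ | v ≤ N ∧ HasSqE Q v} ⊆
      ({v : ℕ | v ≤ N ∧ ∃ r s b c : ℕ, 1 ≤ r ∧ 1 ≤ s ∧ 1 ≤ b ∧ v = 1 + b * (r ^ 2 + s ^ 2) ∧
        r ^ 2 * b = 1 + c * (r ^ 2 + s ^ 2) ∧ D < r ^ 2 + s ^ 2 ∧ r ^ 2 + s ^ 2 ≤ b} ∪
      {v : ℕ | v ≤ N ∧ ∃ r s b c : ℕ, 1 ≤ r ∧ 1 ≤ s ∧ 1 ≤ b ∧ 1 ≤ c ∧
        v = 1 + b * (r ^ 2 + s ^ 2) ∧
        r ^ 2 * b = 1 + c * (r ^ 2 + s ^ 2) ∧ b < r ^ 2 + s ^ 2}) ∪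
      {v : ℕ | v ≤ N ∧ ∃ i ∈ Finset.Icc 1 D ×ˢ Finset.Icc 1 D, FixE Q i.1 i.2 v} := by
    rintro v ⟨hvN, hodd, k, lam, B, σ, q, a, hk2, hkv, hT, hsq⟩
    have hlam := lam_pos hk2 hkv hT.size hT.pair
    obtain ⟨-, hcount⟩ := repl v k lam (by omega) hlam B hT.size hT.pair
    have h3 : lam * (v - 1) = k * (k - 1) := by
      have h6 : k * (k - 1) + k = k * k := by
        obtain ⟨m, hm⟩ : ∃ m, k = m + 1 := ⟨k - 1, by omega⟩
        rw [hm, Nat.add_sub_cancel]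
        ring
      linarith
    obtain ⟨r, s, b, c, hr, hs, hb, hc, hkb, hvb, hlc, hbc⟩ :=
      Param.param v k lam hk2 hkv h3 hsq
    by_cases hD : r ^ 2 + s ^ 2 ≤ D
    · right
      refine ⟨hvN, (r, s), ?_, hodd, k, lam, B, σ, q, a, b, c, hT, hb, hc, hkb, hvb, hlc, hbc⟩
      rw [Finset.mem_product, Finset.mem_Icc, Finset.mem_Icc]
      have hr2 : r ≤ r ^ 2 := Nat.le_self_pow (by norm_num) r
      have hs2 : s ≤ s ^ 2 := Nat.le_self_pow (by norm_num) s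
      exact ⟨⟨hr, by show r ≤ D; omega⟩, ⟨hs, by show s ≤ D; omega⟩⟩
    · left
      push Not at hD
      rcases le_or_gt (r ^ 2 + s ^ 2) b with h | h
      · left
        exact ⟨hvN, r, s, b, c, hr, hs, hb, hvb, hbc, hD, h⟩
      · right
        exact ⟨hvN, r, s, b, c, hr, hs, hb, hc, hvb, hbc, h⟩
  have h3 := Set.ncard_le_ncard hsub (((fin_le N _).union (fin_le N _)).union (fin_le N _))
  have h4 : ({v : ℕ | v ≤ N ∧ HasSqE Q v}.ncard : ℝ) ≤ _ :=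
    (Nat.cast_le (α := ℝ)).2 (h3.trans ((Set.ncard_union_le _ _).trans
      (Nat.add_le_add_right (Set.ncard_union_le _ _) _)))
  push_cast at h4
  linarith

theorem compl_aut {v : ℕ} {B : Fin v → Finset (Fin v)} {σ : Equiv.Perm (Fin v)}
    (haut : ∀ i, ∃ j, (B i).image σ = B j) : ∀ i, ∃ j, ((B i)ᶜ).image σ = (B j)ᶜ := by
  intro i
  obtain ⟨j, hj⟩ := haut i
  refine ⟨j, ?_⟩
  rw [← hj]
  ext z
  simp only [mem_image, mem_compl]
  constructor
  · rintro ⟨w, hw, rfl⟩ ⟨w', hw', h'⟩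
    exact hw ((σ.injective h') ▸ hw')
  · intro hz
    refine ⟨σ.symm z, fun hc => hz ⟨σ.symm z, hc, by simp⟩, by simp⟩

theorem exc_orE {Q v : ℕ} (h : HasE Q v) : Pool.Agent.H177R2.SD.Exc v ∨ HasSqE Q v := by
  classical
  obtain ⟨k, lam, B, σ, q, a, hk2, hkv, hT⟩ := h
  have hlam := lam_pos hk2 hkv hT.size hT.pair
  obtain ⟨hrep, hcount⟩ := repl v k lam (by omega) hlam B hT.size hT.pair
  by_cases hE : v % 4 = 3 ∧ (IsSquare (k * (v - 1 - k)) ∨ IsSquare ((k - 1) * (v - k)))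
  · right
    obtain ⟨h3, h4⟩ := hE
    refine ⟨Nat.odd_iff.2 (by omega), ?_⟩
    rcases h4 with h4 | h4
    · exact ⟨k, lam, B, σ, q, a, hk2, hkv, hT, h4⟩
    · obtain ⟨c1, c2, -⟩ := Comp.comp B (by omega) hT.kv hT.size hrep hT.pair ⊥ (by
        intro h hh i
        rw [Subgroup.mem_bot] at hh
        refine ⟨i, ?_⟩
        rw [hh]
        ext z
        simp)
      refine ⟨v - k, v + lam - 2 * k, fun i => (B i)ᶜ, σ, q, a, by omega, by omega,
        ⟨by omega, c1, c2, compl_aut hT.aut, hT.prime, hT.small, hT.ord, hT.even⟩, ?_⟩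
      have h5 : (v - k) * (v - 1 - (v - k)) = (k - 1) * (v - k) := by
        have h6 : v - 1 - (v - k) = k - 1 := by omega
        rw [h6, mul_comm]
      rw [h5]
      exact h4
  · left
    refine ⟨k, lam, hk2, hkv, ⟨hT.kv, k, B, hT.size, ?_, ?_⟩, hE⟩
    · intro x
      convert hrep x
    · intro x y hxy
      convert hT.pair x y hxy

theorem small_E (Q : ℕ) : Small (HasE Q) :=
  (small_exc.or (small_sqE Q)).mono fun _ h => exc_orE h

theorem small_tendsto {S : ℕ → Prop} (h : Small S) :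
    Tendsto (fun N : ℕ => ({v : ℕ | v ≤ N ∧ S v}.ncard : ℝ) / (N : ℝ)) atTop (𝓝 0) := by
  rw [Metric.tendsto_atTop]
  intro ε hε
  obtain ⟨N0, h0⟩ := h (ε / 2) (by positivity)
  refine ⟨max N0 1, fun N hN => ?_⟩
  have h1 := h0 N (le_trans (le_max_left _ _) hN)
  have hN1 : 1 ≤ N := le_trans (le_max_right _ _) hN
  have hN0 : (0 : ℝ) < N := by exact_mod_cast hN1
  rw [Real.dist_eq, sub_zero, abs_of_nonneg (by positivity), div_lt_iff₀ hN0]
  nlinarith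

end Pool.Agent.W854.FA
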