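import Pool.Agent.W854.FA.Fam
import Pool.Agent.H951R4.OD.F1
import Pool.Agent.H634R3.AA.Final

set_option autoImplicit false

/-!
# Fixed `lam`
-/

namespace Pool.Agent.W854.FA

open Finset Pool.Agent.H951R4.OD Pool.Agent.H634R3.AA Pool.Agent.H634R3.WG.Lam A1aux Filter Topology

/-- block sizes of symmetric designs with the given `lam` and an automorphism of order a power of
a prime `q`, where `q ∣ v` and `q ≤ k ^ (1 - ε)` or `q ≤ Q`, fixing an even number of points -/
def KE (lam Q : ℕ) (ε : ℝ) (k : ℕ) : Prop :=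
  2 ≤ k ∧ ∃ (v : ℕ) (B : Fin v → Finset (Fin v)) (σ : Equiv.Perm (Fin v)) (q a : ℕ), k < v ∧
    (∀ i, (B i).card = k) ∧ (∀ x y : Fin v, x ≠ y →
      (Finset.univ.filter (fun i => x ∈ B i ∧ y ∈ B i)).card = lam) ∧
    (∀ i, ∃ j, (B i).image σ = B j) ∧ q.Prime ∧
    ((q ∣ v ∧ (q : ℝ) ≤ (k : ℝ) ^ (1 - ε)) ∨ q ≤ Q) ∧ σ ^ (q ^ a) = 1 ∧
    Even (univ.filter (fun x : Fin v => σ x = x)).card

theorem small_squares : Small (fun n => IsSquare n) := by
  intro ε hε
  obtain ⟨N0, hN0⟩ := exists_nat_gt (4 / ε ^ 2)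
  refine ⟨N0 + 1, fun N hN => ?_⟩
  have hN1 : 1 ≤ N := by omega
  have hsub : {v : ℕ | v ≤ N ∧ IsSquare v} ⊆
      (((Finset.range (Nat.sqrt N + 1)).image (fun m => m * m) : Finset ℕ) : Set ℕ) := by
    rintro v ⟨hv, m, rfl⟩
    rw [Finset.mem_coe, Finset.mem_image]
    refine ⟨m, ?_, rfl⟩
    rw [Finset.mem_range, Nat.lt_succ_iff, Nat.le_sqrt]
    exact hv
  have h1 := Set.ncard_le_ncard hsub (Finset.finite_toSet _)
  rw [Set.ncard_coe_finset] at h1
  have h2 := h1.trans Finset.card_image_le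
  rw [Finset.card_range] at h2
  have h3 : (Nat.sqrt N : ℝ) ≤ Real.sqrt N := Real.nat_sqrt_le_real_sqrt
  have h4 : ({v : ℕ | v ≤ N ∧ IsSquare v}.ncard : ℝ) ≤ Real.sqrt N + 1 := by
    have : ({v : ℕ | v ≤ N ∧ IsSquare v}.ncard : ℝ) ≤ ((Nat.sqrt N + 1 : ℕ) : ℝ) := by
      exact_mod_cast h2
    push_cast at this
    linarith
  have hNR : (1 : ℝ) ≤ N := by exact_mod_cast hN1
  have h5 : 1 ≤ Real.sqrt N := by
    rw [show (1 : ℝ) = Real.sqrt 1 by simp]
    exact Real.sqrt_le_sqrt hNR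
  have h6 : Real.sqrt N * Real.sqrt N = N := Real.mul_self_sqrt (by linarith)
  have h7 : 4 / ε ^ 2 < N := by
    have : (N0 : ℝ) ≤ N := by exact_mod_cast (by omega : N0 ≤ N)
    linarith
  have h8 : 2 / ε ≤ Real.sqrt N := by
    apply Real.le_sqrt_of_sq_le
    rw [div_pow]
    norm_num
    linarith
  have h9 : 2 ≤ ε * Real.sqrt N := by
    rw [div_le_iff₀ hε] at h8
    linarith
  nlinarith

theorem small_KE (lam : ℕ) (hlam : 1 ≤ lam) (Q : ℕ) (ε : ℝ) (hε : 0 < ε) (hε1 : ε < 1) :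
    Small (KE lam Q ε) := by
  classical
  intro η hη
  obtain ⟨N1, h1⟩ := upto (pol_fl lam hlam) Q ε hε hε1.le (η / 2) (by positivity)
  obtain ⟨N2, h2⟩ := small_squares (η / 2) (by positivity)
  have hlim : Tendsto (fun X : ℕ => (1 - ε) * Real.log X) atTop atTop :=
    (Real.tendsto_log_atTop.comp tendsto_natCast_atTop_atTop).const_mul_atTop (by linarith)
  obtain ⟨N3, hN3⟩ := (hlim.eventually_ge_atTop (Real.log Q)).exists_forall_of_atTop
  refine ⟨max N1 (max N2 N3), fun X hX => ?_⟩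
  have hX1 := h1 X ((le_max_left _ _).trans hX)
  have hX2 := h2 X (((le_max_left _ _).trans (le_max_right _ _)).trans hX)
  have hX3 := hN3 X (((le_max_right _ _).trans (le_max_right _ _)).trans hX)
  have hkey : ∀ k : ℕ, k ≤ X → KE lam Q ε k → lam < k ∧ (IsSquare (k - lam) ∨
      UP (fl lam) (cl lam) Q ((1 - ε) * Real.log X) (k - lam)) := by
    rintro k hkX ⟨hk2, v, B, σ, q, a, hkv, hsz, hpair, haut, hq, hqs, hord, heven⟩
    have hv : 2 ≤ v := by omega
    obtain ⟨hlk, -, -⟩ := design_facts hv hlam hkv hsz hpair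
    refine ⟨hlk, ?_⟩
    rcases Nat.even_or_odd v with he | ho
    · exact Or.inl (schutz_design hv hlam hkv hsz hpair he)
    · right
      have hE : EDes (max Q v) v k lam B σ q a := ⟨hkv, hsz, hpair, haut, hq, by
        rcases hqs with h | h
        · exact Or.inl h.1
        · exact Or.inr (h.trans (le_max_left _ _)), hord, heven⟩
      have hq2 := hE.ne_two ho
      obtain ⟨-, hcount⟩ := repl v k lam hv hlam B hsz hpair
      have hfl : fl lam (k - lam) = ((lam * v : ℕ) : ℤ) := by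
        unfold fl
        have h1 : (k : ℤ) * k = lam * ((v - 1 : ℕ) : ℤ) + k := by exact_mod_cast hcount
        rw [Nat.cast_sub (by omega)] at h1
        rw [Nat.cast_sub hlk.le]
        push_cast at h1 ⊢
        nlinarith
      refine ⟨q, hq, hq2, ?_, ?_, ?_⟩
      · rcases hqs with h | h
        · left
          rw [hfl]
          have : q ∣ lam * v := Dvd.dvd.mul_left h.1 _
          exact_mod_cast this
        · exact Or.inr h
      · have hq0 : (0 : ℝ) < q := by exact_mod_cast hq.pos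
        rcases hqs with h | h
        · have hk0 : (0 : ℝ) < k := by
            have : 0 < k := by omega
            exact_mod_cast this
          have h4 := Real.log_le_log hq0 h.2
          rw [Real.log_rpow hk0] at h4
          refine h4.trans ?_
          apply mul_le_mul_of_nonneg_left _ (by linarith)
          exact Real.log_le_log hk0 (by exact_mod_cast hkX)
        · refine le_trans ?_ hX3
          exact Real.log_le_log hq0 (by exact_mod_cast h)
      · rintro p ⟨hpp, hpc, hpn, hpn2⟩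
        exact fix_test hv hlam hkv hsz hpair ho haut hq hq2 hord heven hpp hpn hpn2
  have hsub : (fun k => k - lam) '' {k : ℕ | k ≤ X ∧ KE lam Q ε k} ⊆
      {n : ℕ | n ≤ X ∧ IsSquare n} ∪ (((Icc 1 X).filter
        (fun n => UP (fl lam) (cl lam) Q ((1 - ε) * Real.log X) n) : Finset ℕ) : Set ℕ) := by
    rintro n ⟨k, ⟨hkX, hk⟩, rfl⟩
    obtain ⟨hlk, h4⟩ := hkey k hkX hk
    rcases h4 with h4 | h4
    · left
      exact ⟨(Nat.sub_le _ _).trans hkX, h4⟩
    · right
      rw [Finset.mem_coe, mem_filter, mem_Icc]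
      exact ⟨⟨by show 1 ≤ k - lam; omega, (Nat.sub_le _ _).trans hkX⟩, h4⟩
  have hinj : Set.InjOn (fun k => k - lam) {k : ℕ | k ≤ X ∧ KE lam Q ε k} := by
    rintro a ⟨haX, ha⟩ b ⟨hbX, hb⟩ hab
    have h5 := (hkey a haX ha).1
    have h6 := (hkey b hbX hb).1
    simp only at hab
    omega
  have h7 := Set.ncard_image_of_injOn hinj
  have h8 := Set.ncard_le_ncard hsub ((fin_le X _).union (Finset.finite_toSet _))
  rw [h7] at h8
  have h9 := h8.trans (Set.ncard_union_le _ _)
  rw [Set.ncard_coe_finset] at h9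
  have h10 : ({k : ℕ | k ≤ X ∧ KE lam Q ε k}.ncard : ℝ) ≤ ({n : ℕ | n ≤ X ∧ IsSquare n}.ncard : ℝ) +
      (((Icc 1 X).filter (fun n => UP (fl lam) (cl lam) Q ((1 - ε) * Real.log X) n)).card : ℝ) := by
    exact_mod_cast h9
  linarith

end Pool.Agent.W854.FA
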