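import Pool.Agent.W854.FA.OrbW
import Pool.Agent.H634R3.WG.Lam

set_option autoImplicit false

/-!
# One automorphism of prime power order with an even number of fixed points
-/

namespace Pool.Agent.W854.FA

open Finset MulAction Pool.Agent.H634R3.PPC Pool.Agent.H951R4.OD Pool.Agent.H634R3.WG.Lam

section cyc

variable {G : Type} [Group G] [Fintype G] {X : Type} [Fintype X] [MulAction G X]

theorem nrm_zpowers (g : G) (q : ℕ) : Nrm (Subgroup.zpowers (g ^ q)) g := by
  have key : ∀ h ∈ Subgroup.zpowers (g ^ q), g * h = h * g := by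
    intro h hh
    obtain ⟨k, rfl⟩ := Subgroup.mem_zpowers_iff.1 hh
    have h1 : Commute g (g ^ q) := (Commute.refl g).pow_right q
    exact (h1.zpow_right k).eq
  refine ⟨fun h hh => ?_, fun h hh => ?_⟩
  · rw [key h hh, mul_assoc, mul_inv_cancel, mul_one]
    exact hh
  · rw [mul_assoc, ← key h hh, ← mul_assoc, inv_mul_cancel, one_mul]
    exact hh

/-- a class fixed by `g` consists of one fixed point -/
theorem fixed_class {g : G} {q a : ℕ} (hq : q.Prime) (hg : g ^ (q ^ a) = 1) (x : X)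
    (h : bar (Subgroup.zpowers (g ^ q)) (nrm_zpowers g q) (cls (Subgroup.zpowers (g ^ q)) x) =
      cls (Subgroup.zpowers (g ^ q)) x) : g • x = x := by
  rw [bar_cls, cls_eq] at h
  obtain ⟨t, ht, hx⟩ := h
  obtain ⟨k, rfl⟩ := Subgroup.mem_zpowers_iff.1 ht
  have h1 : g ^ ((q : ℤ) * k - 1) • x = x := by
    have e : g ^ ((q : ℤ) * k - 1) = g⁻¹ * (g ^ q) ^ k := by
      rw [zpow_sub, zpow_mul, zpow_natCast, zpow_one]
      have h1 : Commute g (g ^ q) := (Commute.refl g).pow_right q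
      exact ((h1.zpow_right k).inv_left.eq).symm
    rw [e, mul_smul, hx, inv_smul_smul]
  have h2 : g ^ (q ^ a) • x = x := by rw [hg, one_smul]
  obtain ⟨m, hm⟩ : ∃ m : ℕ, m = Function.minimalPeriod (fun y : X => g • y) x := ⟨_, rfl⟩
  have h3 : (m : ℤ) ∣ (q : ℤ) * k - 1 := by
    rw [hm]
    exact zpow_smul_eq_iff_minimalPeriod_dvd.1 h1
  have h4 : m ∣ q ^ a := by
    rw [hm]
    exact pow_smul_eq_iff_minimalPeriod_dvd.1 h2
  have h5 : m = 1 := by
    obtain ⟨i, -, hi⟩ := (Nat.dvd_prime_pow hq).1 h4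
    rcases Nat.eq_zero_or_pos i with h0 | h0
    · rw [hi, h0, pow_zero]
    · exfalso
      have h6 : q ∣ m := by
        rw [hi]
        exact dvd_pow_self q (by omega)
      have h7 : (q : ℤ) ∣ (q : ℤ) * k - 1 := (by exact_mod_cast h6 : (q : ℤ) ∣ m).trans h3
      have h8 : (q : ℤ) ∣ 1 := by
        have := dvd_sub (dvd_mul_right (q : ℤ) k) h7
        simpa using this
      have h9 : q ∣ 1 := by exact_mod_cast h8
      exact hq.one_lt.ne' (Nat.dvd_one.1 h9)
  have h6 : g ^ 1 • x = x := by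
    rw [pow_smul_eq_iff_minimalPeriod_dvd, ← hm, h5]
  rwa [pow_one] at h6

open Classical in
theorem card_fixed_classes' {g : G} {q a : ℕ} (hq : q.Prime) (hg : g ^ (q ^ a) = 1) :
    (univ.filter (fun α : orbitRel.Quotient (Subgroup.zpowers (g ^ q)) X =>
      bar (Subgroup.zpowers (g ^ q)) (nrm_zpowers g q) α = α)).card =
    (univ.filter (fun x : X => g • x = x)).card := by
  symm
  apply card_bij (fun x _ => cls (Subgroup.zpowers (g ^ q)) x)
  · intro x hx
    rw [mem_filter] at hx ⊢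
    exact ⟨mem_univ _, by rw [bar_cls, hx.2]⟩
  · intro x hx y hy hxy
    rw [mem_filter] at hx hy
    obtain ⟨t, ht, htx⟩ := (cls_eq _).1 hxy
    obtain ⟨k, rfl⟩ := Subgroup.mem_zpowers_iff.1 ht
    have h1 : g ^ q • y = y := by
      have h2 : ∀ n : ℕ, g ^ n • y = y := by
        intro n
        induction n with
        | zero => rw [pow_zero, one_smul]
        | succ n ih => rw [pow_succ, mul_smul, hy.2, ih]
      exact h2 q
    have h3 : ((g ^ q) ^ k) • y = y := by
      have h4 : g ^ q ∈ MulAction.stabilizer G y := h1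
      exact (MulAction.stabilizer G y).zpow_mem h4 k
    rw [← htx, h3]
  · intro α hα
    rw [mem_filter] at hα
    obtain ⟨x, rfl⟩ := cls_surj _ α
    exact ⟨x, by rw [mem_filter]; exact ⟨mem_univ _, fixed_class hq hg x hα.2⟩, rfl⟩

open Classical in
/-- class sizes are powers of `q` -/
theorem sz_pow {g : G} {q a : ℕ} (hq : q.Prime) (hg : g ^ (q ^ a) = 1)
    (α : orbitRel.Quotient (Subgroup.zpowers (g ^ q)) X) :
    ∃ i : ℕ, sz (Subgroup.zpowers (g ^ q)) α = q ^ i := by
  obtain ⟨x, rfl⟩ := cls_surj _ α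
  have h1 := tc_mul (Subgroup.zpowers (g ^ q)) (x := x) (y := x) rfl
  have h2 : (univ.filter (fun h : G => h ∈ Subgroup.zpowers (g ^ q))).card ∣ q ^ a := by
    have h3 : (univ.filter (fun h : G => h ∈ Subgroup.zpowers (g ^ q))).card =
        Nat.card (Subgroup.zpowers (g ^ q)) := by
      rw [Nat.card_eq_fintype_card, Fintype.card_subtype]
    rw [h3, Nat.card_zpowers]
    refine (orderOf_pow_dvd q).trans ?_
    exact orderOf_dvd_of_pow_eq_one hg
  have h4 : sz (Subgroup.zpowers (g ^ q)) (cls (Subgroup.zpowers (g ^ q)) x) ∣ q ^ a :=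
    (Dvd.intro _ h1).trans h2
  obtain ⟨i, -, hi⟩ := (Nat.dvd_prime_pow hq).1 h4
  exact ⟨i, hi⟩

open Classical in
/-- an odd number of moved classes -/
theorem odd_moved {g : G} {q a : ℕ} (hq : q.Prime) (hq2 : q ≠ 2) (hg : g ^ (q ^ a) = 1)
    (hX : Odd (Fintype.card X)) (heven : Even (univ.filter (fun x : X => g • x = x)).card) :
    Odd (univ.filter (fun α : orbitRel.Quotient (Subgroup.zpowers (g ^ q)) X =>
      bar (Subgroup.zpowers (g ^ q)) (nrm_zpowers g q) α ≠ α)).card := by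
  have hqodd : Odd q := hq.odd_of_ne_two hq2
  have h1 : Fintype.card X = ∑ α : orbitRel.Quotient (Subgroup.zpowers (g ^ q)) X,
      sz (Subgroup.zpowers (g ^ q)) α := by
    rw [← card_univ, card_eq_sum_card_fiberwise
      (f := fun x : X => cls (Subgroup.zpowers (g ^ q)) x) (t := univ) (by intro x _; simp)]
    rfl
  have h2 : Odd (Fintype.card (orbitRel.Quotient (Subgroup.zpowers (g ^ q)) X)) := by
    rw [h1] at hX
    rw [← card_univ]
    have h3 := (Finset.odd_sum_iff_odd_card_odd (s := univ)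
      (f := fun α : orbitRel.Quotient (Subgroup.zpowers (g ^ q)) X =>
        sz (Subgroup.zpowers (g ^ q)) α)).1 hX
    have h4 : univ.filter (fun α : orbitRel.Quotient (Subgroup.zpowers (g ^ q)) X =>
        Odd (sz (Subgroup.zpowers (g ^ q)) α)) = univ := by
      apply filter_true_of_mem
      intro α _
      obtain ⟨i, hi⟩ := sz_pow hq hg α
      rw [hi]
      exact hqodd.pow
    rw [h4] at h3
    exact h3
  have h5 := card_filter_add_card_filter_not (s := (univ : Finset (orbitRel.Quotient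
    (Subgroup.zpowers (g ^ q)) X))) (fun α => bar (Subgroup.zpowers (g ^ q)) (nrm_zpowers g q) α = α)
  rw [card_univ, card_fixed_classes' hq hg] at h5
  rw [← h5] at h2
  rcases Nat.even_or_odd (univ.filter (fun α : orbitRel.Quotient (Subgroup.zpowers (g ^ q)) X =>
      bar (Subgroup.zpowers (g ^ q)) (nrm_zpowers g q) α ≠ α)).card with h6 | h6
  · exact absurd (heven.add h6) (Nat.not_even_iff_odd.2 h2)
  · exact h6

end cyc

/-- **The test.** -/
theorem fix_test {v k lam : ℕ} {B : Fin v → Finset (Fin v)} (hv : 2 ≤ v) (hlam : 1 ≤ lam)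
    (hkv : k < v) (hk : ∀ i, (B i).card = k)
    (hpair : ∀ x y : Fin v, x ≠ y →
      (Finset.univ.filter (fun i => x ∈ B i ∧ y ∈ B i)).card = lam) (hodd : Odd v)
    {σ : Equiv.Perm (Fin v)} (haut : ∀ i, ∃ j, (B i).image σ = B j) {q a : ℕ} (hq : q.Prime)
    (hq2 : q ≠ 2) (hσ : σ ^ (q ^ a) = 1)
    (heven : Even (univ.filter (fun x : Fin v => σ x = x)).card) {p : ℕ} (hp : p.Prime)
    (hpn : p ∣ k - lam) (hpn2 : ¬ p ^ 2 ∣ k - lam) : ch (p : ℤ) q ≠ -1 := by
  classical
  intro hch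
  have hinj := blocks_inj hv hlam hkv hk hpair
  choose τ hτ using haut
  have hτi : Function.Injective τ := by
    intro i j hij
    apply hinj
    have h1 := hτ i
    rw [hij, ← hτ j] at h1
    exact Finset.image_injective σ.injective h1
  obtain ⟨τe, hτe⟩ : ∃ τe : Equiv.Perm (Fin v), ∀ i, τe i = τ i :=
    ⟨Equiv.ofBijective τ (Finite.injective_iff_bijective.1 hτi), fun i => rfl⟩
  have hmem : (σ, τe) ∈ pairs B ⊤ := by
    refine ⟨Subgroup.mem_top _, ?_⟩
    intro z i
    show σ z ∈ B (τe i) ↔ z ∈ B i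
    rw [hτe, ← hτ i, Finset.mem_image]
    constructor
    · rintro ⟨w, hw, hwz⟩
      rwa [← σ.injective hwz]
    · intro hz
      exact ⟨z, hz, rfl⟩
  obtain ⟨γ, hγ⟩ : ∃ γ : pairs B ⊤, γ = ⟨(σ, τe), hmem⟩ := ⟨_, rfl⟩
  have : Fintype (pairs B ⊤) := Fintype.ofFinite _
  -- the order
  have hγq : γ ^ (q ^ a) = 1 := by
    have h1 : (γ ^ (q ^ a)).1.1 = 1 := by
      have : (γ ^ (q ^ a)).1.1 = σ ^ (q ^ a) := by
        rw [Subgroup.coe_pow, Prod.pow_fst, hγ]
      rw [this, hσ]
    apply Subtype.ext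
    refine Prod.ext h1 ?_
    ext1 i
    apply hinj
    ext x
    have h2 := (γ ^ (q ^ a)).2.2 x i
    rw [h1] at h2
    exact h2
  have hγx : ∀ x : Fin v, γ • x = σ x := by
    intro x
    rw [hγ]
    rfl
  have hsz : ∀ {X : Type} [Fintype X] [MulAction (pairs B ⊤) X]
      (α : orbitRel.Quotient (Subgroup.zpowers (γ ^ q)) X),
      ¬ p ∣ sz (Subgroup.zpowers (γ ^ q)) α := by
    intro X _ _ α h
    obtain ⟨i, hi⟩ := sz_pow hq hγq α
    rw [hi] at h
    have h1 := (Nat.prime_dvd_prime_iff_eq hp hq).1 (hp.dvd_of_dvd_pow h)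
    subst h1
    have h2 := (ch_eq_neg_one_iff p p hp hq2).1 hch
    have hF : Fact p.Prime := ⟨hp⟩
    rw [ZMod.natCast_self, zero_pow] at h2
    · have h3 : (1 : ZMod p) = 0 := by
        have := congrArg Neg.neg h2
        rw [neg_neg, neg_zero] at this
        exact this.symm
      exact one_ne_zero h3
    · have := hp.two_le
      omega
  obtain ⟨u, hu⟩ := hpn
  refine orb_testw (des_blk hv hlam hkv hk hpair) ?_ (Subgroup.zpowers (γ ^ q))
    (nrm_zpowers γ q) hq (lt_of_le_of_ne hq.two_le (Ne.symm hq2))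
    (Subgroup.mem_zpowers (γ ^ q)) hp (fun α _ => hsz α) (fun β _ => hsz β) ?_
    (j := (q - 1) / 2) ((ch_eq_neg_one_iff p q hq hq2).1 hch) odd_one (u := u) ?_
    (by rw [pow_one]; exact hu)
  · intro g x b
    exact g.2.2 x b.i
  · have h1 : Odd (Fintype.card (Fin v)) := by
      rw [Fintype.card_fin]
      exact hodd
    have h2 : Even (univ.filter (fun x : Fin v => γ • x = x)).card := by
      simp only [hγx]
      exact heven
    have h3 := odd_moved hq hq2 hγq h1 (by convert h2)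
    convert h3
  · rintro ⟨w, rfl⟩
    apply hpn2
    rw [hu]
    exact ⟨w, by ring⟩

end Pool.Agent.W854.FA
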