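import Pool.Agent.W854.FA.Scale

set_option autoImplicit false

/-!
# Elementary asymptotics
-/

namespace Pool.Agent.W854.FA

open Filter Topology

theorem asymp_sqrt (A : ℝ) (η : ℝ) (hη : 0 < η) : ∃ j0 : ℕ, ∀ j : ℕ, j0 ≤ j →
    A * Real.sqrt j * (1 + Real.log (Real.sqrt j)) ≤ η * j ∧ A * Real.sqrt j ≤ η * j ∧
      Real.log (Real.sqrt j) + A ≤ η * j ∧ A ≤ η * j := by
  have t2 : Tendsto (fun x : ℝ => (1 + Real.log x) / x) atTop (𝓝 0) := by
    have a1 : Tendsto (fun x : ℝ => Real.log x / x) atTop (𝓝 0) := by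
      have := (isLittleO_log_rpow_atTop (show (0 : ℝ) < 1 by norm_num)).tendsto_div_nhds_zero
      simpa using this
    have a2 : Tendsto (fun x : ℝ => (1 : ℝ) / x) atTop (𝓝 0) :=
      tendsto_const_nhds.div_atTop tendsto_id
    have a3 := a2.add a1
    rw [add_zero] at a3
    refine a3.congr fun x => ?_
    ring
  have ts : Tendsto (fun j : ℕ => Real.sqrt j) atTop atTop :=
    Real.tendsto_sqrt_atTop.comp tendsto_natCast_atTop_atTop
  have t3 := ((t2.const_mul (|A| + 1)).comp ts)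
  rw [mul_zero] at t3
  obtain ⟨j0, h0⟩ := ((t3.eventually (gt_mem_nhds hη)).and
    (ts.eventually_ge_atTop 1)).exists_forall_of_atTop
  refine ⟨j0, fun j hj => ?_⟩
  obtain ⟨h1, h2⟩ := h0 j hj
  simp only [Function.comp] at h1
  have hs0 : 0 < Real.sqrt j := by linarith
  have hsq : Real.sqrt j * Real.sqrt j = j := Real.mul_self_sqrt (Nat.cast_nonneg j)
  rw [← mul_div_assoc, div_lt_iff₀ hs0] at h1
  have hlog : 0 ≤ Real.log (Real.sqrt j) := Real.log_nonneg h2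
  have h4 : (|A| + 1) * Real.sqrt j * (1 + Real.log (Real.sqrt j)) ≤ η * j := by
    calc (|A| + 1) * Real.sqrt j * (1 + Real.log (Real.sqrt j))
        = Real.sqrt j * ((|A| + 1) * (1 + Real.log (Real.sqrt j))) := by ring
      _ ≤ Real.sqrt j * (η * Real.sqrt j) := mul_le_mul_of_nonneg_left h1.le hs0.le
      _ = η * (Real.sqrt j * Real.sqrt j) := by ring
      _ = η * j := by rw [hsq]
  have hA := le_abs_self A
  have hA0 := abs_nonneg A
  have h5 : A * Real.sqrt j * (1 + Real.log (Real.sqrt j)) ≤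
      (|A| + 1) * Real.sqrt j * (1 + Real.log (Real.sqrt j)) := by
    apply mul_le_mul_of_nonneg_right _ (by linarith)
    exact mul_le_mul_of_nonneg_right (by linarith) hs0.le
  have h6 : (|A| + 1) * Real.sqrt j ≤ (|A| + 1) * Real.sqrt j * (1 + Real.log (Real.sqrt j)) := by
    have : 0 ≤ (|A| + 1) * Real.sqrt j := by positivity
    nlinarith
  refine ⟨h5.trans h4, ?_, ?_, ?_⟩
  · have : A * Real.sqrt j ≤ (|A| + 1) * Real.sqrt j :=
      mul_le_mul_of_nonneg_right (by linarith) hs0.le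
    linarith
  · have h7 : Real.log (Real.sqrt j) + A ≤
        (|A| + 1) * Real.sqrt j * (1 + Real.log (Real.sqrt j)) := by
      have h8 : (|A| + 1) * 1 ≤ (|A| + 1) * Real.sqrt j :=
        mul_le_mul_of_nonneg_left h2 (by linarith)
      have h9 : (|A| + 1) * 1 * (1 + Real.log (Real.sqrt j)) ≤
          (|A| + 1) * Real.sqrt j * (1 + Real.log (Real.sqrt j)) :=
        mul_le_mul_of_nonneg_right h8 (by linarith)
      nlinarith
    linarith
  · have h8 : (|A| + 1) * 1 ≤ (|A| + 1) * Real.sqrt j :=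
      mul_le_mul_of_nonneg_left h2 (by linarith)
    linarith

theorem asymp_pow (δ : ℝ) (hδ : 0 < δ) : ∃ j0 : ℕ, ∀ j : ℕ, j0 ≤ j →
    (j : ℝ) * (1 / 2) ^ ⌊δ * Real.sqrt j⌋₊ ≤ (j : ℝ) ^ (-(1 / 5) : ℝ) := by
  have hl2 : 0 < Real.log 2 := Real.log_pos (by norm_num)
  have ts : Tendsto (fun j : ℕ => Real.sqrt j) atTop atTop :=
    Real.tendsto_sqrt_atTop.comp tendsto_natCast_atTop_atTop
  have t1 := ((tendsto_rpow_mul_exp_neg_mul_atTop_nhds_zero (12 / 5) (δ * Real.log 2)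
    (by positivity)).comp ts)
  obtain ⟨j0, h0⟩ := ((t1.eventually (gt_mem_nhds (show (0 : ℝ) < 1 / 2 by norm_num))).and
    (eventually_ge_atTop 1)).exists_forall_of_atTop
  refine ⟨j0, fun j hj => ?_⟩
  obtain ⟨h1, h2⟩ := h0 j hj
  simp only [Function.comp] at h1
  have hj0 : (0 : ℝ) < j := by exact_mod_cast h2
  have e1 : Real.sqrt j ^ (12 / 5 : ℝ) = (j : ℝ) ^ (6 / 5 : ℝ) := by
    rw [Real.sqrt_eq_rpow, ← Real.rpow_mul hj0.le]
    norm_num
  rw [e1] at h1
  have h3 : ((1 : ℝ) / 2) ^ ⌊δ * Real.sqrt j⌋₊ ≤ 2 * Real.exp (-(δ * Real.log 2) * Real.sqrt j) := by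
    have h4 : δ * Real.sqrt j - 1 ≤ (⌊δ * Real.sqrt j⌋₊ : ℝ) := by
      have := Nat.lt_floor_add_one (δ * Real.sqrt j)
      linarith
    have h5 : ((1 : ℝ) / 2) ^ ⌊δ * Real.sqrt j⌋₊ =
        Real.exp (-(Real.log 2) * ⌊δ * Real.sqrt j⌋₊) := by
      rw [← Real.rpow_natCast, Real.rpow_def_of_pos (by norm_num)]
      congr 1
      rw [one_div, Real.log_inv]
    have h6 : (2 : ℝ) = Real.exp (Real.log 2) := (Real.exp_log (by norm_num)).symm
    rw [h5]
    conv_rhs => rw [h6]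
    rw [← Real.exp_add, Real.exp_le_exp]
    rw [Real.exp_log (by norm_num)]
    nlinarith
  have e2 : (j : ℝ) ^ (-(1 / 5) : ℝ) * (j : ℝ) ^ (6 / 5 : ℝ) = j := by
    rw [← Real.rpow_add hj0]
    norm_num
  calc (j : ℝ) * (1 / 2) ^ ⌊δ * Real.sqrt j⌋₊
      ≤ j * (2 * Real.exp (-(δ * Real.log 2) * Real.sqrt j)) :=
        mul_le_mul_of_nonneg_left h3 hj0.le
    _ = (j : ℝ) ^ (-(1 / 5) : ℝ) *
        (2 * ((j : ℝ) ^ (6 / 5 : ℝ) * Real.exp (-(δ * Real.log 2) * Real.sqrt j))) := by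
        have e3 : (j : ℝ) ^ (-(1 / 5) : ℝ) *
            (2 * ((j : ℝ) ^ (6 / 5 : ℝ) * Real.exp (-(δ * Real.log 2) * Real.sqrt j))) =
            ((j : ℝ) ^ (-(1 / 5) : ℝ) * (j : ℝ) ^ (6 / 5 : ℝ)) *
              (2 * Real.exp (-(δ * Real.log 2) * Real.sqrt j)) := by ring
        rw [e3, e2]
    _ ≤ (j : ℝ) ^ (-(1 / 5) : ℝ) * 1 := by
        apply mul_le_mul_of_nonneg_left _ (by positivity)
        linarith
    _ = _ := mul_one _

theorem exp_half_bound (C G : ℝ) (j : ℕ) (hj : 16 ≤ j)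
    (hG : Real.log (Real.sqrt j) - Real.log (Real.log j) - C ≤ G) :
    Real.exp (-G / 2) ≤ Real.exp (C / 2 + 2) * (j : ℝ) ^ (-(1 / 5) : ℝ) := by
  have hjR : (16 : ℝ) ≤ j := by exact_mod_cast hj
  have hj0 : (0 : ℝ) < j := by linarith
  have h1 : Real.log (Real.sqrt j) = Real.log j / 2 := by
    rw [Real.log_sqrt hj0.le]
  have hlj : 0 < Real.log j := Real.log_pos (by linarith)
  have h2 : Real.log (Real.log j) ≤ Real.log j / 10 + 3 := by
    have h3 := Real.log_le_sub_one_of_pos (show 0 < Real.log j / 10 by positivity)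
    rw [Real.log_div hlj.ne' (by norm_num)] at h3
    have h4 : Real.log 10 ≤ 4 := by
      have h5 : Real.log 10 ≤ Real.log (2 ^ 4) := Real.log_le_log (by norm_num) (by norm_num)
      rw [Real.log_pow] at h5
      have := Real.log_two_lt_d9
      push_cast at h5
      linarith
    linarith
  rw [Real.rpow_def_of_pos hj0, ← Real.exp_add, Real.exp_le_exp]
  rw [h1] at hG
  linarith

end Pool.Agent.W854.FA
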