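import Pool.Agent.W854.FA.NCount
import Pool.Agent.H951R4.OD.M

set_option autoImplicit false

/-!
# Large prime divisors
-/

namespace Pool.Agent.W854.FA

open Finset Pool.Agent.H951R4.OD A1aux C1aux Filter Topology

open Classical in
/-- lower bound for the number of multiples -/
theorem count_root {f : ℕ → ℤ} {c0 : ℕ} {Δ : ℤ} (h : Pol f c0 0 Δ) {q : ℕ} (hq : q.Prime)
    (hqc : ¬ q ∣ c0) (X : ℕ) :
    (X : ℝ) / q - 1 ≤ (((Icc 1 X).filter (fun n => (q : ℤ) ∣ f n)).card : ℝ) := by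
  have h1 := h.cnt q hq hqc
  rw [zero_mul, add_zero] at h1
  have h2 : ((range q).filter (fun n : ℕ => (q : ℤ) ∣ f n)).card = 1 := by exact_mod_cast h1
  obtain ⟨a, ha⟩ := card_eq_one.1 h2
  have ha' : a ∈ (range q).filter (fun n : ℕ => (q : ℤ) ∣ f n) := by
    rw [ha]
    exact mem_singleton_self a
  rw [mem_filter, mem_range] at ha'
  obtain ⟨a', ha1, ha2, ha3⟩ : ∃ a' : ℕ, 1 ≤ a' ∧ a' ≤ q ∧ (q : ℤ) ∣ f a' := by
    rcases Nat.eq_zero_or_pos a with h0 | h0
    · refine ⟨q, hq.pos, le_rfl, ?_⟩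
      rw [D2b_mod h q q, Nat.mod_self, ← h0]
      exact ha'.2
    · exact ⟨a, h0, ha'.1.le, ha'.2⟩
  have hq0 := hq.pos
  have hcard : X / q ≤ ((Icc 1 X).filter (fun n => (q : ℤ) ∣ f n)).card := by
    have h3 : ((range (X / q)).image (fun t => a' + q * t)).card = X / q := by
      rw [card_image_of_injective, card_range]
      intro s t hst
      have h4 : q * s = q * t := Nat.add_left_cancel hst
      exact Nat.eq_of_mul_eq_mul_left hq0 h4
    rw [← h3]
    apply card_le_card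
    intro n hn
    rw [mem_image] at hn
    obtain ⟨t, ht, rfl⟩ := hn
    rw [mem_range] at ht
    rw [mem_filter, mem_Icc]
    refine ⟨⟨by omega, ?_⟩, ?_⟩
    · calc a' + q * t ≤ q + q * t := by omega
        _ = q * (t + 1) := by ring
        _ ≤ q * (X / q) := Nat.mul_le_mul_left q ht
        _ ≤ X := Nat.mul_div_le X q
    · have h4 := D2b_per h q a' t
      have h5 := dvd_add h4 ha3
      simpa using h5
  have h6 : (X : ℝ) / q < ((X / q : ℕ) : ℝ) + 1 := by
    have hqR : (0 : ℝ) < q := by exact_mod_cast hq0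
    rw [div_lt_iff₀ hqR]
    have h7 : X < (X / q + 1) * q := by
      have := Nat.lt_div_mul_add (a := X) (b := q) hq0
      nlinarith
    exact_mod_cast h7
  have h8 : ((X / q : ℕ) : ℝ) ≤ (((Icc 1 X).filter (fun n => (q : ℤ) ∣ f n)).card : ℝ) := by
    exact_mod_cast hcard
  linarith

/-- sum of the logarithms of distinct prime divisors -/
theorem sum_log_le (P : Finset ℕ) (hP : ∀ p ∈ P, p.Prime) (m : ℕ) (hm : 0 < m)
    (hd : ∀ p ∈ P, p ∣ m) : ∑ p ∈ P, Real.log p ≤ Real.log m := by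
  have h1 : ∏ p ∈ P, p ∣ m := Finset.prod_primes_dvd m (fun p hp => (hP p hp).prime) hd
  have h2 : ∏ p ∈ P, p ≤ m := Nat.le_of_dvd hm h1
  have h3 : 0 < ∏ p ∈ P, p := prod_pos fun p hp => (hP p hp).pos
  have h4 := Real.log_le_log (show (0 : ℝ) < ((∏ p ∈ P, p : ℕ) : ℝ) by exact_mod_cast h3)
    (show ((∏ p ∈ P, p : ℕ) : ℝ) ≤ (m : ℝ) by exact_mod_cast h2)
  push_cast at h4
  rw [Real.log_prod (fun p hp => by
    have := (hP p hp).pos
    positivity)] at h4
  exact h4

theorem theta_le (y : ℕ) : ∑ p ∈ PI 0 y, Real.log p ≤ 2 * y := by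
  have h1 : ∏ p ∈ PI 0 y, p ≤ 4 ^ y := by
    have h2 := primorial_le_four_pow y
    unfold primorial at h2
    refine le_trans (le_of_eq ?_) h2
    apply prod_congr _ (fun _ _ => rfl)
    ext p
    rw [mem_PI, mem_filter, mem_range]
    constructor
    · rintro ⟨⟨h3, h4⟩, h5⟩
      exact ⟨by omega, h5⟩
    · rintro ⟨h3, h4⟩
      exact ⟨⟨h4.pos, by omega⟩, h4⟩
  have h3 : 0 < ∏ p ∈ PI 0 y, p := prod_pos fun p hp => (mem_PI.1 hp).2.pos
  have h4 := Real.log_le_log (show (0 : ℝ) < ((∏ p ∈ PI 0 y, p : ℕ) : ℝ) by exact_mod_cast h3)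
    (show ((∏ p ∈ PI 0 y, p : ℕ) : ℝ) ≤ ((4 ^ y : ℕ) : ℝ) by exact_mod_cast h1)
  push_cast at h4
  rw [Real.log_prod (fun p hp => by
    have := (mem_PI.1 hp).2.pos
    positivity), Real.log_pow] at h4
  have h5 : Real.log 4 ≤ 2 := by
    have h6 : Real.log 4 = 2 * Real.log 2 := by
      rw [show (4 : ℝ) = 2 ^ 2 by norm_num, Real.log_pow]
      norm_num
    have := Real.log_two_lt_d9
    linarith
  have h6 : (y : ℝ) * Real.log 4 ≤ y * 2 := mul_le_mul_of_nonneg_left h5 (Nat.cast_nonneg y)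
  linarith

open Classical in
theorem big {f : ℕ → ℤ} {c0 : ℕ} {Δ : ℤ} (h : Pol f c0 0 Δ) (A : ℝ) (hA : 1 ≤ A)
    (hf : ∀ n : ℕ, 1 ≤ n → 0 < f n ∧ (f n : ℝ) ≤ A * n) (ε : ℝ) (hε : 0 < ε) (hε2 : ε ≤ 1 / 2) :
    ∃ N0 : ℕ, ∀ X : ℕ, N0 ≤ X → (((Icc 1 X).filter (fun n => ∃ q : ℕ, q.Prime ∧ ¬ q ∣ c0 ∧
      (q : ℤ) ∣ f n ∧ (1 - ε) * Real.log X < Real.log q)).card : ℝ) ≤ 3 * ε * X := by
  obtain ⟨CM, hCM⟩ := Pool.Agent.Helper256.KM.mertens_log
  have hCM0 : 0 ≤ CM := (abs_nonneg _).trans (hCM 1 le_rfl)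
  obtain ⟨K, hK⟩ : ∃ K : ℝ, K = Real.log A + CM + c0 + 3 := ⟨_, rfl⟩
  have hlA : 0 ≤ Real.log A := Real.log_nonneg hA
  have hlim : Tendsto (fun X : ℕ => Real.log X) atTop atTop :=
    Real.tendsto_log_atTop.comp tendsto_natCast_atTop_atTop
  obtain ⟨N0, hN0⟩ := (hlim.eventually_ge_atTop (max 2 (2 * K / ε))).exists_forall_of_atTop
  refine ⟨N0, fun X hX => ?_⟩
  have hL := hN0 X hX
  have hL2 : 2 ≤ Real.log X := (le_max_left _ _).trans hL
  have hLK : 2 * K / ε ≤ Real.log X := (le_max_right _ _).trans hL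
  rw [div_le_iff₀ hε] at hLK
  have hX0 : 0 < X := by
    rcases Nat.eq_zero_or_pos X with h0 | h0
    · rw [h0] at hL2
      simp at hL2
      linarith
    · exact h0
  have hXR : (0 : ℝ) < X := by exact_mod_cast hX0
  obtain ⟨L, hLdef⟩ : ∃ L : ℝ, L = Real.log X := ⟨_, rfl⟩
  rw [← hLdef] at hL2 hLK ⊢
  obtain ⟨Y, hY⟩ : ∃ Y : ℕ, Y = ⌊Real.exp ((1 - ε) * L)⌋₊ := ⟨_, rfl⟩
  have hY1 := log_floor_exp ((1 - ε) * L) (by nlinarith)
  rw [← hY] at hY1
  have hYX : (Y : ℝ) ≤ X := by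
    calc (Y : ℝ) ≤ Real.exp ((1 - ε) * L) := by
          rw [hY]
          exact Nat.floor_le (Real.exp_pos _).le
      _ ≤ Real.exp L := Real.exp_le_exp.2 (by nlinarith)
      _ = X := by rw [hLdef, Real.exp_log hXR]
  have hl2 : Real.log 2 < 1 := by
    have := Real.log_two_lt_d9
    linarith
  have hYpos : 1 ≤ Y := by
    rcases Nat.eq_zero_or_pos Y with h0 | h0
    · rw [h0] at hY1
      simp only [Nat.cast_zero, Real.log_zero] at hY1
      nlinarith [hY1.1]
    · exact h0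
  obtain ⟨P, hP⟩ : ∃ P : Finset ℕ, P = (PI 0 Y).filter (fun q => ¬ q ∣ c0) := ⟨_, rfl⟩
  have hPmem : ∀ q ∈ P, q.Prime ∧ ¬ q ∣ c0 ∧ q ≤ Y := by
    intro q hq
    rw [hP, mem_filter, mem_PI] at hq
    exact ⟨hq.1.2, hq.2, hq.1.1.2⟩
  obtain ⟨Bg, hBg⟩ : ∃ Bg : Finset ℕ, Bg = (Icc 1 X).filter (fun n => ∃ q : ℕ, q.Prime ∧
      ¬ q ∣ c0 ∧ (q : ℤ) ∣ f n ∧ (1 - ε) * L < Real.log q) := ⟨_, rfl⟩
  rw [← hBg]
  -- upper bound
  have hup : ∀ n ∈ Icc 1 X, ∑ q ∈ P.filter (fun q : ℕ => (q : ℤ) ∣ f n), Real.log q +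
      (if n ∈ Bg then (1 - ε) * L else 0) ≤ Real.log A + L := by
    intro n hn
    rw [mem_Icc] at hn
    obtain ⟨hf1, hf2⟩ := hf n hn.1
    have hn0 : (0 : ℝ) < n := by exact_mod_cast hn.1
    have hnX : (n : ℝ) ≤ X := by exact_mod_cast hn.2
    obtain ⟨m, hm⟩ : ∃ m : ℕ, (m : ℤ) = f n := ⟨(f n).toNat, Int.toNat_of_nonneg hf1.le⟩
    have hm0 : 0 < m := by
      have : (0 : ℤ) < m := by rw [hm]; exact hf1
      exact_mod_cast this
    have hlogm : Real.log m ≤ Real.log A + L := by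
      have h1 : (m : ℝ) = (f n : ℝ) := by
        rw [← hm]
        push_cast
        rfl
      rw [h1, hLdef, ← Real.log_mul (by linarith) hXR.ne']
      apply Real.log_le_log
      · rw [← h1]
        exact_mod_cast hm0
      · refine hf2.trans ?_
        exact mul_le_mul_of_nonneg_left hnX (by linarith)
    by_cases hB : n ∈ Bg
    · rw [if_pos hB]
      rw [hBg, mem_filter] at hB
      obtain ⟨-, q0, hq0, hqc0, hqf0, hql0⟩ := hB
      have hq0P : q0 ∉ P.filter (fun q : ℕ => (q : ℤ) ∣ f n) := by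
        intro hmem
        rw [mem_filter] at hmem
        have h1 := (hPmem q0 hmem.1).2.2
        have h2 : Real.log q0 ≤ Real.log Y :=
          Real.log_le_log (by exact_mod_cast hq0.pos) (by exact_mod_cast h1)
        linarith [hY1.2]
      have h3 := sum_log_le (insert q0 (P.filter (fun q : ℕ => (q : ℤ) ∣ f n))) (by
        intro p hp
        rw [mem_insert, mem_filter] at hp
        rcases hp with rfl | hp
        · exact hq0
        · exact (hPmem p hp.1).1) m hm0 (by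
        intro p hp
        rw [mem_insert, mem_filter] at hp
        have h4 : (p : ℤ) ∣ m := by
          rw [hm]
          rcases hp with rfl | hp
          · exact hqf0
          · exact hp.2
        exact_mod_cast h4)
      rw [sum_insert hq0P] at h3
      linarith
    · rw [if_neg hB, add_zero]
      refine le_trans ?_ hlogm
      apply sum_log_le _ _ m hm0
      · intro p hp
        rw [mem_filter] at hp
        have h4 : (p : ℤ) ∣ m := by
          rw [hm]
          exact hp.2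
        exact_mod_cast h4
      · intro p hp
        rw [mem_filter] at hp
        exact (hPmem p hp.1).1
  have hupsum := sum_le_sum hup
  rw [sum_add_distrib, sum_const, Nat.card_Icc, Nat.add_sub_cancel, nsmul_eq_mul] at hupsum
  have hB1 : ∑ n ∈ Icc 1 X, (if n ∈ Bg then (1 - ε) * L else 0) = Bg.card * ((1 - ε) * L) := by
    rw [← sum_filter, sum_const, nsmul_eq_mul]
    congr 2
    have : (Icc 1 X).filter (fun n => n ∈ Bg) = Bg := by
      ext n
      rw [mem_filter]
      constructor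
      · exact fun h => h.2
      · intro h
        refine ⟨?_, h⟩
        rw [hBg] at h
        exact (mem_filter.1 h).1
    rw [this]
  rw [hB1] at hupsum
  have hsw : ∑ n ∈ Icc 1 X, ∑ q ∈ P.filter (fun q : ℕ => (q : ℤ) ∣ f n), Real.log q =
      ∑ q ∈ P, Real.log q * (((Icc 1 X).filter (fun n => (q : ℤ) ∣ f n)).card : ℝ) := by
    simp only [sum_filter]
    rw [sum_comm]
    apply sum_congr rfl
    intro q _
    rw [← sum_filter, sum_const, nsmul_eq_mul, mul_comm]
  have hlow : (X : ℝ) * ∑ q ∈ P, Real.log q / q - 2 * Y ≤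
      ∑ n ∈ Icc 1 X, ∑ q ∈ P.filter (fun q : ℕ => (q : ℤ) ∣ f n), Real.log q := by
    rw [hsw]
    have h1 : ∑ q ∈ P, Real.log q ≤ 2 * Y := by
      refine le_trans ?_ (theta_le Y)
      apply sum_le_sum_of_subset_of_nonneg
      · rw [hP]
        exact filter_subset _ _
      · intro p hp _
        exact Real.log_nonneg (by exact_mod_cast (mem_PI.1 hp).2.one_le)
    calc (X : ℝ) * ∑ q ∈ P, Real.log q / q - 2 * Y ≤
        (X : ℝ) * ∑ q ∈ P, Real.log q / q - ∑ q ∈ P, Real.log q := by linarith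
      _ = ∑ q ∈ P, Real.log q * ((X : ℝ) / q - 1) := by
          rw [mul_sum, ← sum_sub_distrib]
          apply sum_congr rfl
          intro q _
          ring
      _ ≤ _ := by
          apply sum_le_sum
          intro q hq
          obtain ⟨h2, h3, h4⟩ := hPmem q hq
          apply mul_le_mul_of_nonneg_left (count_root h h2 h3 X)
          exact Real.log_nonneg (by exact_mod_cast h2.one_le)
  have hmer : (1 - ε) * L - 1 - CM - c0 ≤ ∑ q ∈ P, Real.log q / q := by
    have h1 := hCM Y hYpos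
    rw [← PI_zero] at h1
    have h2 := (abs_le.1 h1).1
    have h3 : ∑ q ∈ PI 0 Y, Real.log q / q ≤ ∑ q ∈ P, Real.log q / q +
        ∑ q ∈ c0.divisors, Real.log q / q := by
      have h4 : PI 0 Y ⊆ P ∪ c0.divisors := by
        intro p hp
        rw [mem_union, hP, mem_filter]
        by_cases hd : p ∣ c0
        · right
          rw [Nat.mem_divisors]
          exact ⟨hd, h.pos.ne'⟩
        · left
          exact ⟨hp, hd⟩
      have hnn : ∀ l : ℕ, 0 ≤ Real.log l / (l : ℝ) := fun l =>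
        div_nonneg (Real.log_natCast_nonneg l) (Nat.cast_nonneg l)
      have h5 := sum_le_sum_of_subset_of_nonneg (f := fun n : ℕ => Real.log n / (n : ℝ)) h4
        (fun l _ _ => hnn l)
      have e1 := sum_union_inter (s₁ := P) (s₂ := c0.divisors)
        (f := fun l : ℕ => Real.log l / (l : ℝ))
      have e3 : 0 ≤ ∑ l ∈ P ∩ c0.divisors, Real.log l / (l : ℝ) := sum_nonneg fun l _ => hnn l
      linarith
    have h7 : ∑ l ∈ c0.divisors, Real.log l / (l : ℝ) ≤ c0 := by
      calc ∑ l ∈ c0.divisors, Real.log l / (l : ℝ) ≤ ∑ _l ∈ c0.divisors, (1 : ℝ) := by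
            apply sum_le_sum
            intro l hl
            have h8 := Nat.pos_of_mem_divisors hl
            have h9 : (0 : ℝ) < l := by exact_mod_cast h8
            rw [div_le_one h9]
            have := Real.log_le_sub_one_of_pos h9
            linarith
        _ = c0.divisors.card := by simp
        _ ≤ c0 := by exact_mod_cast Nat.card_divisors_le_self c0
    linarith [hY1.1]
  have hmul := mul_le_mul_of_nonneg_left hmer hXR.le
  have hmain : (Bg.card : ℝ) * ((1 - ε) * L) ≤ X * (ε * L + K) := by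
    rw [hK]
    nlinarith
  have hBn : (0 : ℝ) ≤ Bg.card := Nat.cast_nonneg _
  -- K ≤ ε L / 2, and (1-ε) L ≥ L/2
  have h1 : (Bg.card : ℝ) * (L / 2) ≤ X * (3 / 2 * (ε * L)) := by
    calc (Bg.card : ℝ) * (L / 2) ≤ (Bg.card : ℝ) * ((1 - ε) * L) :=
          mul_le_mul_of_nonneg_left (by nlinarith) hBn
      _ ≤ X * (ε * L + K) := hmain
      _ ≤ X * (3 / 2 * (ε * L)) := mul_le_mul_of_nonneg_left (by linarith) hXR.le
  have h2 : (Bg.card : ℝ) * L ≤ 3 * ε * X * L := by nlinarith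
  exact le_of_mul_le_mul_right h2 (by linarith)

end Pool.Agent.W854.FA
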