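import Pool.Agent.H951R4.OD.C1

set_option autoImplicit false

/-!
# Residue classes in which every element of `ps` is a quadratic residue
-/

namespace Pool.Agent.W854.FA

open Finset Pool.Agent.H951R4.OD A1aux

theorem sum_mul_full (D : ℤ) (hD : ¬ IsSquare D) (K : ℕ) :
    ∑ n ∈ range (4 * D.natAbs * K), ch D n = 0 := by
  induction K with
  | zero => simp
  | succ K ih =>
    have e : 4 * D.natAbs * (K + 1) = 4 * D.natAbs * K + 4 * D.natAbs := by ring
    rw [e, Finset.sum_range_add, ih, zero_add]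
    rw [← sum_full D hD]
    refine Finset.sum_congr rfl fun n _ => ?_
    rw [← ch_mod D (4 * D.natAbs * K + n), ← ch_mod D n, Nat.mul_add_mod]

open Classical in
/-- residue classes modulo `4 ∏ ps` of the primes modulo which every element of `ps` is a residue -/
noncomputable def GC (ps : Finset ℕ) : Finset ℕ :=
  (range (4 * ∏ p ∈ ps, p)).filter (fun a => a % 2 = 1 ∧ ∀ p ∈ ps, ch (p : ℤ) a = 1)

theorem GC_card (ps : Finset ℕ) (hps : ∀ p ∈ ps, p.Prime) :
    ((GC ps).card : ℝ) ≤ (1 / 2) ^ ps.card * ((4 * ∏ p ∈ ps, p : ℕ) : ℝ) := by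
  classical
  unfold GC
  rw [card_filter]
  push_cast
  have h1 : ∀ a ∈ range (4 * ∏ p ∈ ps, p),
      (if a % 2 = 1 ∧ ∀ p ∈ ps, ch (p : ℤ) a = 1 then (1 : ℝ) else 0) ≤
      (1 / 2) ^ ps.card * ∑ S ∈ ps.powerset, ch (((∏ p ∈ S, p : ℕ) : ℕ) : ℤ) a := by
    intro a _
    by_cases hodd : a % 2 = 1
    · have e1 : ∑ S ∈ ps.powerset, ch (((∏ p ∈ S, p : ℕ) : ℕ) : ℤ) a =
          ∏ p ∈ ps, (1 + ch (p : ℤ) a) := by
        rw [Finset.prod_one_add]
        exact Finset.sum_congr rfl (fun S _ => ch_prod_left S a hodd)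
      rw [e1]
      split_ifs with hG
      · have e2 : ∏ p ∈ ps, (1 + ch (p : ℤ) a) = 2 ^ ps.card := by
          rw [← Finset.prod_const]
          refine Finset.prod_congr rfl (fun p hp => ?_)
          rw [hG.2 p hp]
          norm_num
        rw [e2, ← mul_pow]
        norm_num
      · refine mul_nonneg (by positivity) (Finset.prod_nonneg (fun p _ => ?_))
        have := abs_ch_le (p : ℤ) a
        rw [abs_le] at this
        linarith [this.1]
    · rw [if_neg (fun h => hodd h.1)]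
      have e1 : ∀ S ∈ ps.powerset, ch (((∏ p ∈ S, p : ℕ) : ℕ) : ℤ) a = 0 := by
        intro S _
        unfold ch
        rw [if_neg hodd]
      rw [Finset.sum_eq_zero e1, mul_zero]
  refine (sum_le_sum h1).trans ?_
  rw [← mul_sum]
  apply mul_le_mul_of_nonneg_left _ (by positivity)
  rw [sum_comm]
  have h2 : ∀ S ∈ ps.powerset, ∑ a ∈ range (4 * ∏ p ∈ ps, p),
      ch (((∏ p ∈ S, p : ℕ) : ℕ) : ℤ) a ≤
      if S = ∅ then ((4 * ∏ p ∈ ps, p : ℕ) : ℝ) else 0 := by
    intro S hS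
    rw [mem_powerset] at hS
    split_ifs with h
    · calc ∑ a ∈ range (4 * ∏ p ∈ ps, p), ch (((∏ p ∈ S, p : ℕ) : ℕ) : ℤ) a
          ≤ ∑ _a ∈ range (4 * ∏ p ∈ ps, p), (1 : ℝ) :=
            sum_le_sum fun a _ => (le_abs_self _).trans (abs_ch_le _ _)
        _ = _ := by simp
    · have hne : S.Nonempty := Finset.nonempty_iff_ne_empty.2 h
      have hsq := prod_not_square S (fun p hp => hps p (hS hp)) hne
      have e : 4 * ∏ p ∈ ps, p = 4 * (((∏ p ∈ S, p : ℕ) : ℤ)).natAbs * ∏ p ∈ ps \ S, p := by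
        rw [Int.natAbs_natCast, ← Finset.prod_sdiff hS]
        ring
      rw [e, sum_mul_full _ hsq]
  refine (sum_le_sum h2).trans ?_
  rw [Finset.sum_ite_eq']
  rw [if_pos (Finset.empty_mem_powerset ps)]
  push_cast
  exact le_rfl

/-- a prime modulo which every element of `ps` is a residue lies in one of the classes -/
theorem mod_mem_GC (ps : Finset ℕ) (hps : ∀ p ∈ ps, p.Prime) {q : ℕ} (hq : q.Prime) (hq2 : q ≠ 2)
    (hlt : ∀ p ∈ ps, p < q) (hch : ∀ p ∈ ps, ch (p : ℤ) q ≠ -1) :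
    q % (4 * ∏ p ∈ ps, p) ∈ GC ps := by
  classical
  have hpos : 0 < 4 * ∏ p ∈ ps, p := by
    have := Finset.prod_pos fun p hp => (hps p hp).pos
    omega
  have hodd : q % 2 = 1 := by
    rcases hq.eq_two_or_odd with h | h
    · exact absurd h hq2
    · exact h
  unfold GC
  rw [mem_filter, mem_range]
  refine ⟨Nat.mod_lt _ hpos, ?_, ?_⟩
  · rw [Nat.mod_mod_of_dvd q (Dvd.dvd.mul_right (by norm_num) _)]
    exact hodd
  · intro p hp
    obtain ⟨w, hw⟩ := Finset.dvd_prod_of_mem (fun p : ℕ => p) hp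
    have e : ch (p : ℤ) (q % (4 * ∏ p ∈ ps, p)) = ch (p : ℤ) q := by
      rw [← ch_mod (p : ℤ) (q % (4 * ∏ p ∈ ps, p)), ← ch_mod (p : ℤ) q, Int.natAbs_natCast]
      congr 1
      apply Nat.mod_mod_of_dvd
      exact ⟨w, by rw [hw]; ring⟩
    rw [e]
    rcases ch_val (p : ℤ) q with h | h | h
    · exact absurd h (ch_prime_ne_zero p q (hps p hp) hq hq2 (hlt p hp).ne)
    · exact h
    · exact absurd h (hch p hp)

end Pool.Agent.W854.FA
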