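import Pool.Agent.W854.FA.Upto
import Pool.Agent.W854.FA.App
import Pool.Agent.H634R3.AA.Small

set_option autoImplicit false

/-!
# The exceptional families
-/

namespace Pool.Agent.W854.FA

open Finset Pool.Agent.H951R4.OD Pool.Agent.H634R3.AA A1aux Filter Topology

/-- symmetric design with an automorphism `σ` of order a power of `q` with an even number of
fixed points, `q ∣ v` or `q ≤ Q` -/
structure EDes (Q v k lam : ℕ) (B : Fin v → Finset (Fin v)) (σ : Equiv.Perm (Fin v)) (q a : ℕ) :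
    Prop where
  kv : k < v
  size : ∀ i, (B i).card = k
  pair : ∀ x y : Fin v, x ≠ y →
    (Finset.univ.filter (fun i => x ∈ B i ∧ y ∈ B i)).card = lam
  aut : ∀ i, ∃ j, (B i).image σ = B j
  prime : q.Prime
  small : q ∣ v ∨ q ≤ Q
  ord : σ ^ (q ^ a) = 1
  even : Even (univ.filter (fun x : Fin v => σ x = x)).card

/-- the prime is odd -/
theorem EDes.ne_two {Q v k lam : ℕ} {B : Fin v → Finset (Fin v)} {σ : Equiv.Perm (Fin v)}
    {q a : ℕ} (h : EDes Q v k lam B σ q a) (hodd : Odd v) : q ≠ 2 := by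
  rintro rfl
  have hF : Fact (Nat.Prime 2) := ⟨Nat.prime_two⟩
  have h1 := Equiv.Perm.card_compl_support_modEq (p := 2) (n := a) h.ord
  have h2 : (Equiv.Perm.support σ)ᶜ = univ.filter (fun x : Fin v => σ x = x) := by
    ext x
    simp
  rw [h2, Fintype.card_fin] at h1
  have h3 := h.even
  rw [Nat.even_iff] at h3
  have h4 : (univ.filter (fun x : Fin v => σ x = x)).card % 2 = v % 2 := h1
  rw [h3] at h4
  exact (Nat.not_even_iff_odd.2 hodd) (Nat.even_iff.2 h4.symm)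

/-- `v` points, type `(r, s)` -/
def FixE (Q r s v : ℕ) : Prop :=
  Odd v ∧ ∃ (k lam : ℕ) (B : Fin v → Finset (Fin v)) (σ : Equiv.Perm (Fin v)) (q a : ℕ)
    (b c : ℕ), EDes Q v k lam B σ q a ∧ 1 ≤ b ∧ 1 ≤ c ∧ k = r ^ 2 * b ∧
      v = 1 + b * (r ^ 2 + s ^ 2) ∧ lam = r ^ 2 * c ∧ r ^ 2 * b = 1 + c * (r ^ 2 + s ^ 2)

theorem fr_bound {r s : ℕ} (hr : 1 ≤ r) (hs : 1 ≤ s) (n : ℕ) (hn : 1 ≤ n) :
    0 < fr r s n ∧ (fr r s n : ℝ) ≤ (((r ^ 2 + s ^ 2) ^ 2 : ℕ) : ℝ) * n := by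
  have hr' : (1 : ℤ) ≤ r := by exact_mod_cast hr
  have hs' : (1 : ℤ) ≤ s := by exact_mod_cast hs
  have hn' : (1 : ℤ) ≤ n := by exact_mod_cast hn
  have h1 : (r : ℤ) ^ 2 < ((r : ℤ) ^ 2 + (s : ℤ) ^ 2) ^ 2 := by
    have h2 : (1 : ℤ) ≤ (r : ℤ) ^ 2 := one_le_pow₀ hr'
    have h3 : (1 : ℤ) ≤ (s : ℤ) ^ 2 := one_le_pow₀ hs'
    nlinarith
  constructor
  · unfold fr
    nlinarith
  · unfold fr
    push_cast
    have : (0 : ℝ) ≤ (r : ℝ) ^ 2 := by positivity
    linarith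

theorem small_fixE (Q : ℕ) {r s : ℕ} (hr : 1 ≤ r) (hs : 1 ≤ s) : Small (FixE Q r s) := by
  classical
  intro ε hε
  have hA : (1 : ℝ) ≤ (((r ^ 2 + s ^ 2) ^ 2 : ℕ) : ℝ) := by
    have h1 : 1 ≤ (r ^ 2 + s ^ 2) ^ 2 := Nat.one_le_pow _ _ (by positivity)
    exact_mod_cast h1
  obtain ⟨N0, hN0⟩ := lin_main (pol_lin hr hs) _ hA (fun n hn => fr_bound hr hs n hn) Q ε hε
  refine ⟨N0, fun N hN => ?_⟩
  have h4 := hN0 N hN
  have hr2 : 1 ≤ r ^ 2 := Nat.one_le_pow _ _ hr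
  have hs2 : 1 ≤ s ^ 2 := Nat.one_le_pow _ _ hs
  have hsub : {v : ℕ | v ≤ N ∧ FixE Q r s v} ⊆ ((((Icc 1 N).filter (fun n => ∃ q : ℕ, q.Prime ∧
      q ≠ 2 ∧ ((q : ℤ) ∣ fr r s n ∨ q ≤ Q) ∧ FQ (cr r s) q n)).image
      (fun n : ℕ => (fr r s n / (s : ℤ) ^ 2).toNat) : Finset ℕ) : Set ℕ) := by
    rintro v ⟨hvN, hodd, k, lam, B, σ, q, a, b, c, hE, hb, hc, hkb, hvb, hlc, hbc⟩
    have hcb : c < b := by
      by_contra h
      push Not at h
      nlinarith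
    have hkey : fr r s (b - c) = (v : ℤ) * (s : ℤ) ^ 2 := by
      unfold fr
      rw [Nat.cast_sub hcb.le, hvb]
      have h1 : (r : ℤ) ^ 2 * b = 1 + c * (r ^ 2 + s ^ 2) := by exact_mod_cast hbc
      push_cast
      linear_combination (((r : ℤ) ^ 2 + (s : ℤ) ^ 2)) * h1
    have hv2 : 2 ≤ v := by
      rw [hvb]
      nlinarith
    have hl1 : 1 ≤ lam := by
      rw [hlc]
      nlinarith
    have hkn : k - lam = r ^ 2 * (b - c) := by
      rw [hkb, hlc, Nat.mul_sub]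
    rw [Finset.mem_coe, mem_image]
    refine ⟨b - c, ?_, ?_⟩
    · rw [mem_filter, mem_Icc]
      refine ⟨⟨by omega, ?_⟩, q, hE.prime, hE.ne_two hodd, ?_, ?_⟩
      · have : b ≤ v := by
          rw [hvb]
          nlinarith
        omega
      · rcases hE.small with h | h
        · left
          rw [hkey]
          have : (q : ℤ) ∣ v := by exact_mod_cast h
          exact Dvd.dvd.mul_right this _
        · exact Or.inr h
      · rintro p ⟨hpp, hpc, hpn, hpn2⟩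
        obtain ⟨hp2, hpr, hps, hpd⟩ := dvd_cr hpc
        have hpcop : Nat.Coprime p (r ^ 2) := Nat.Coprime.pow_right 2
          ((Nat.Prime.coprime_iff_not_dvd hpp).2 hpr)
        refine fix_test hv2 hl1 hE.kv hE.size hE.pair hodd hE.aut hE.prime (hE.ne_two hodd) hE.ord
          hE.even hpp ?_ ?_
        · rw [hkn]
          exact Dvd.dvd.mul_left hpn _
        · rw [hkn]
          intro h
          apply hpn2
          exact (Nat.Coprime.pow_left 2 hpcop).dvd_of_dvd_mul_left h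
    · show (fr r s (b - c) / (s : ℤ) ^ 2).toNat = v
      rw [hkey, Int.mul_ediv_cancel _ (by positivity)]
      simp
  have h5 := Set.ncard_le_ncard hsub (Finset.finite_toSet _)
  rw [Set.ncard_coe_finset] at h5
  have h6 : ({v : ℕ | v ≤ N ∧ FixE Q r s v}.ncard : ℝ) ≤
      (((Icc 1 N).filter (fun n => ∃ q : ℕ, q.Prime ∧
      q ≠ 2 ∧ ((q : ℤ) ∣ fr r s n ∨ q ≤ Q) ∧ FQ (cr r s) q n)).card : ℝ) := by
    exact_mod_cast h5.trans card_image_le
  exact h6.trans h4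

end Pool.Agent.W854.FA
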