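import Pool.Agent.W854.FA.ScaleMain
import Pool.Agent.Helper924.MW.Density
import Pool.Agent.H951R4.OD.D2a

set_option autoImplicit false

/-!
# A fixed prime `q`
-/

namespace Pool.Agent.W854.FA

open Finset Pool.Agent.H951R4.OD A1aux C1aux D2a Filter Topology
  Pool.Agent.Helper924.MW.Density

/-- every exact prime divisor `p` of `n` is not a nonresidue modulo `q` -/
def FQ (c0 q n : ℕ) : Prop := ∀ p : ℕ, Ex c0 n p → ch p q ≠ -1

theorem exists_nonres {q : ℕ} (hq : q.Prime) (hq2 : q ≠ 2) : ∃ a : ZMod q, IsUnit a ∧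
    ∀ p : ℕ, (p : ZMod q) = a → ch (p : ℤ) q = -1 := by
  have hF : Fact q.Prime := ⟨hq⟩
  have hchar : ringChar (ZMod q) ≠ 2 := by
    rw [ZMod.ringChar_zmod_n]
    exact hq2
  obtain ⟨a, ha⟩ := FiniteField.exists_nonsquare hchar
  have ha0 : a ≠ 0 := by
    rintro rfl
    exact ha (IsSquare.zero)
  refine ⟨a, isUnit_iff_ne_zero.2 ha0, fun p hp => ?_⟩
  rw [ch_eq_neg_one_iff p q hq hq2, hp]
  have hdiv : (q - 1) / 2 = q / 2 := by
    have hodd : q % 2 = 1 := by
      rcases hq.eq_two_or_odd with h | h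
      · exact absurd h hq2
      · exact h
    omega
  rw [hdiv]
  rcases ZMod.pow_div_two_eq_neg_one_or_one q ha0 with h | h
  · exact absurd ((ZMod.euler_criterion q ha0).2 h) ha
  · exact h

open Classical in
theorem fixq (c0 : ℕ) (hc0 : 0 < c0) {q : ℕ} (hq : q.Prime) (hq2 : q ≠ 2) (ε : ℝ) (hε : 0 < ε) :
    ∃ N0 : ℕ, ∀ X : ℕ, N0 ≤ X → (((Icc 1 X).filter (fun n => FQ c0 q n)).card : ℝ) ≤ ε * X := by
  obtain ⟨C, hC, hs⟩ := sieve
  obtain ⟨a, hau, ha⟩ := exists_nonres hq hq2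
  have hF : Fact q.Prime := ⟨hq⟩
  have hns := not_summable_g (q := q) hau
  obtain ⟨K, hK⟩ : ∃ K : ℝ, K = 2 * Real.log (C / ε) := ⟨_, rfl⟩
  obtain ⟨F0, hF0⟩ : ∃ F0 : Finset ℕ, K + c0 < ∑ n ∈ F0, g a n := by
    by_contra hcon
    push Not at hcon
    exact hns (summable_of_sum_le (fun n => g_nonneg _ n) hcon)
  obtain ⟨F, hFdef⟩ : ∃ F : Finset ℕ, F = F0.filter (fun n : ℕ => (n.Prime ∧ (n : ZMod q) = a) ∧
    ¬ n ∣ c0) := ⟨_, rfl⟩
  have hsum : K ≤ ∑ p ∈ F, (1 : ℝ) / p := by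
    have h1 : ∑ n ∈ F0, g a n ≤ ∑ p ∈ F, (1 : ℝ) / p + ∑ p ∈ c0.divisors, (1 : ℝ) / p := by
      have h2 : ∑ n ∈ F0, g a n = ∑ n ∈ F0.filter (fun n : ℕ => n.Prime ∧ (n : ZMod q) = a),
          (1 : ℝ) / n := by
        rw [sum_filter]
        rfl
      rw [h2]
      have h3 : F0.filter (fun n : ℕ => n.Prime ∧ (n : ZMod q) = a) ⊆ F ∪ c0.divisors := by
        intro n hn
        rw [mem_filter] at hn
        rw [mem_union, hFdef, mem_filter]
        by_cases hd : n ∣ c0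
        · right
          rw [Nat.mem_divisors]
          exact ⟨hd, hc0.ne'⟩
        · left
          exact ⟨hn.1, hn.2, hd⟩
      have h5 := sum_le_sum_of_subset_of_nonneg (f := fun n : ℕ => (1 : ℝ) / n) h3
        (fun l _ _ => by positivity)
      have e1 := sum_union_inter (s₁ := F) (s₂ := c0.divisors) (f := fun l : ℕ => (1 : ℝ) / l)
      have e3 : 0 ≤ ∑ l ∈ F ∩ c0.divisors, (1 : ℝ) / l := sum_nonneg fun l _ => by positivity
      linarith
    have h7 : ∑ l ∈ c0.divisors, (1 : ℝ) / l ≤ c0 := by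
      calc ∑ l ∈ c0.divisors, (1 : ℝ) / l ≤ ∑ _l ∈ c0.divisors, (1 : ℝ) := by
            apply sum_le_sum
            intro l hl
            have := Nat.pos_of_mem_divisors hl
            rw [div_le_one (by exact_mod_cast this)]
            exact_mod_cast this
        _ = c0.divisors.card := by simp
        _ ≤ c0 := by exact_mod_cast Nat.card_divisors_le_self c0
    linarith
  have hFmem : ∀ p ∈ F, p.Prime ∧ ¬ p ∣ c0 ∧ ch (p : ℤ) q = -1 := by
    intro p hp
    rw [hFdef, mem_filter] at hp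
    exact ⟨hp.2.1.1, hp.2.2, ha p hp.2.1.2⟩
  obtain ⟨z, hz⟩ : ∃ z : ℕ, z = max 3 (F.sup id) := ⟨_, rfl⟩
  have hz3 : 3 ≤ z := by rw [hz]; exact le_max_left _ _
  have hzF : ∀ p ∈ F, p ≤ z := by
    intro p hp
    rw [hz]
    exact (Finset.le_sup (f := id) hp).trans (le_max_right _ _)
  have hlim : Tendsto (fun X : ℕ => Real.log X) atTop atTop :=
    Real.tendsto_log_atTop.comp tendsto_natCast_atTop_atTop
  obtain ⟨N0, hN0⟩ := (hlim.eventually_ge_atTop
    (C * Real.log z * (1 + Real.log (Real.log z)))).exists_forall_of_atTop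
  refine ⟨N0, fun X hX => ?_⟩
  have h1 := hs z X hz3 (hN0 X hX) F (fun p => p ^ 2) hh
    (fun p hp => ⟨(hFmem p hp).1, hzF p hp, Or.inr rfl⟩) (fun p _ n => hh_01 p n)
    (fun p _ n => hh_per p n) (by
      intro p hp
      have hp1 := (hFmem p hp).1.pos
      rw [mean_eq p hp1]
      have : (0 : ℝ) < p := by exact_mod_cast hp1
      have h2 : (0 : ℝ) ≤ 1 / (p : ℝ) ^ 2 := by positivity
      have h3 : (1 : ℝ) / p ≤ 2 / p := div_le_div_of_nonneg_right (by norm_num) this.le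
      linarith)
  have h2 : (((Icc 1 X).filter (fun n => FQ c0 q n)).card : ℝ) ≤
      ∑ n ∈ Icc 1 X, ∏ p ∈ F, (1 - hh p n) := by
    rw [card_filter]
    push_cast
    apply sum_le_sum
    intro n _
    split_ifs with h
    · apply le_of_eq
      symm
      apply prod_eq_one
      intro p hp
      have h3 : hh p n = 0 := by
        unfold hh
        rw [if_neg]
        rintro ⟨h4, h5⟩
        exact h p ⟨(hFmem p hp).1, (hFmem p hp).2.1, h4, h5⟩ (hFmem p hp).2.2
      rw [h3, sub_zero]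
    · apply prod_nonneg
      intro p _
      rcases hh_01 p n with h3 | h3 <;> rw [h3] <;> norm_num
  have h3 : Real.log (C / ε) ≤ ∑ p ∈ F, (∑ n ∈ range (p ^ 2), hh p n) / ((p ^ 2 : ℕ) : ℝ) := by
    have h4 : ∑ p ∈ F, (1 / 2) * ((1 : ℝ) / p) ≤
        ∑ p ∈ F, (∑ n ∈ range (p ^ 2), hh p n) / ((p ^ 2 : ℕ) : ℝ) := by
      apply sum_le_sum
      intro p hp
      have hp1 := (hFmem p hp).1
      rw [mean_eq p hp1.pos]
      have h5 : (2 : ℝ) ≤ p := by exact_mod_cast hp1.two_le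
      have h6 : (1 : ℝ) / (p : ℝ) ^ 2 ≤ (1 / 2) * (1 / p) := by
        have e1 : (1 : ℝ) / (p : ℝ) ^ 2 = (1 / p) * (1 / p) := by
          field_simp
        rw [e1]
        apply mul_le_mul_of_nonneg_right _ (by positivity)
        exact one_div_le_one_div_of_le (by norm_num) h5
      linarith
    rw [← mul_sum] at h4
    linarith
  refine h2.trans (h1.trans ?_)
  have hX0 : (0 : ℝ) ≤ X := Nat.cast_nonneg X
  have h8 : Real.exp (-∑ p ∈ F, (∑ n ∈ range (p ^ 2), hh p n) / ((p ^ 2 : ℕ) : ℝ)) ≤ ε / C := by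
    calc _ ≤ Real.exp (-Real.log (C / ε)) := Real.exp_le_exp.2 (by linarith)
      _ = ε / C := by
          rw [Real.exp_neg, Real.exp_log (by positivity), inv_div]
  calc C * X * Real.exp (-∑ p ∈ F, (∑ n ∈ range (p ^ 2), hh p n) / ((p ^ 2 : ℕ) : ℝ))
      ≤ C * X * (ε / C) := mul_le_mul_of_nonneg_left h8 (by positivity)
    _ = ε * X := by
        field_simp

end Pool.Agent.W854.FA
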