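import Pool.Agent.W854.FA.QSum
import Pool.Agent.H951R4.OD.D2b

set_option autoImplicit false

/-!
# Counting `n` with `q ∣ f n` and prescribed small prime divisors
-/

namespace Pool.Agent.W854.FA

open Finset Pool.Agent.H951R4.OD A1aux C1aux

open Classical in
/-- residues `a` modulo `q` with `q ∣ f (d a)` -/
noncomputable def RT (f : ℕ → ℤ) (d q : ℕ) : Finset ℕ :=
  (range q).filter (fun a => (q : ℤ) ∣ f (d * a))

theorem RT_card {f : ℕ → ℤ} {c0 : ℕ} {e : ℝ} {Δ : ℤ} (h : Pol f c0 e Δ) {q : ℕ} (hq : q.Prime)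
    (hqc : ¬ q ∣ c0) (d : ℕ) (hcop : Nat.Coprime d q) : ((RT f d q).card : ℝ) ≤ 2 := by
  classical
  have h1 := D2b_cnt2 h hq hqc d hcop
  have h2 : ((RT f d q).card : ℝ) = 1 + e * ch Δ q := by
    rw [← h1]
    unfold RT
    rw [card_filter]
    push_cast
    rfl
  rw [h2]
  have h3 := abs_le.1 (abs_ch_le Δ q)
  rcases h.e01 with h4 | h4 <;> rw [h4] <;> linarith

theorem mem_RT {f : ℕ → ℤ} {c0 : ℕ} {e : ℝ} {Δ : ℤ} (h : Pol f c0 e Δ) {q : ℕ} (hq : q.Prime)
    {d n' : ℕ} (hn : (q : ℤ) ∣ f (d * n')) : n' % q ∈ RT f d q := by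
  classical
  unfold RT
  rw [mem_filter, mem_range]
  refine ⟨Nat.mod_lt _ hq.pos, ?_⟩
  rw [D2b_mod h q (d * (n' % q))]
  rw [D2b_mod h q (d * n')] at hn
  have e : d * (n' % q) % q = d * n' % q := by
    rw [Nat.mul_mod_mod]
  rw [e]
  exact hn

open Classical in
/-- multiples of `d` with `q ∣ f n` -/
theorem count_dvd {f : ℕ → ℤ} {c0 : ℕ} {e : ℝ} {Δ : ℤ} (h : Pol f c0 e Δ) {q : ℕ} (hq : q.Prime)
    (hqc : ¬ q ∣ c0) (d : ℕ) (hd : 0 < d) (hcop : Nat.Coprime d q) (X : ℕ) :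
    (((Icc 1 X).filter (fun n => d ∣ n ∧ (q : ℤ) ∣ f n)).card : ℝ) ≤
      2 * ((X : ℝ) / (d * q) + 1) := by
  have hsub : (Icc 1 X).filter (fun n => d ∣ n ∧ (q : ℤ) ∣ f n) ⊆
      (RT f d q).biUnion (fun a => (range (X / (d * q) + 1)).image (fun t => d * (a + q * t))) := by
    intro n hn
    rw [mem_filter, mem_Icc] at hn
    obtain ⟨⟨hn1, hn2⟩, ⟨n', rfl⟩, hn4⟩ := hn
    rw [mem_biUnion]
    refine ⟨n' % q, mem_RT h hq hn4, ?_⟩
    rw [mem_image]
    refine ⟨n' / q, ?_, by rw [Nat.mod_add_div]⟩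
    rw [mem_range, Nat.lt_succ_iff, Nat.le_div_iff_mul_le (Nat.mul_pos hd hq.pos)]
    calc n' / q * (d * q) = d * (n' / q * q) := by ring
      _ ≤ d * n' := Nat.mul_le_mul_left d (Nat.div_mul_le_self n' q)
      _ ≤ X := hn2
  have hN : ((X / (d * q) : ℕ) : ℝ) ≤ (X : ℝ) / (d * q) := by
    have := @Nat.cast_div_le ℝ _ _ _ X (d * q)
    push_cast at this
    exact this
  calc (((Icc 1 X).filter (fun n => d ∣ n ∧ (q : ℤ) ∣ f n)).card : ℝ)
      ≤ (((RT f d q).biUnion (fun a => (range (X / (d * q) + 1)).image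
          (fun t => d * (a + q * t)))).card : ℝ) := by exact_mod_cast card_le_card hsub
    _ ≤ ∑ a ∈ RT f d q, (((range (X / (d * q) + 1)).image
          (fun t => d * (a + q * t))).card : ℝ) := by exact_mod_cast card_biUnion_le
    _ ≤ ∑ a ∈ RT f d q, ((X : ℝ) / (d * q) + 1) := by
        apply sum_le_sum
        intro a _
        have h1 : (((range (X / (d * q) + 1)).image (fun t => d * (a + q * t))).card : ℝ) ≤
            ((X / (d * q) + 1 : ℕ) : ℝ) := by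
          have := card_image_le (s := range (X / (d * q) + 1)) (f := fun t => d * (a + q * t))
          rw [card_range] at this
          exact_mod_cast this
        push_cast at h1
        linarith
    _ = (RT f d q).card * ((X : ℝ) / (d * q) + 1) := by rw [sum_const, nsmul_eq_mul]
    _ ≤ _ := mul_le_mul_of_nonneg_right (RT_card h hq hqc d hcop) (by positivity)

open Classical in
/-- `q ∣ f n`; the primes of `P` dividing `n` are those of `ps`, each dividing exactly once -/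
theorem count_exact : ∃ C : ℝ, 1 ≤ C ∧ ∀ (f : ℕ → ℤ) (c0 : ℕ) (e : ℝ) (Δ : ℤ), Pol f c0 e Δ →
    ∀ z X q : ℕ, 3 ≤ z → q.Prime → ¬ q ∣ c0 → ∀ P ps : Finset ℕ, (∀ p ∈ P, p.Prime ∧ p ≤ z) →
    q ∉ P → ps ⊆ P → 
    C * Real.log z * (1 + Real.log (Real.log z)) ≤ Real.log ((X / ((∏ p ∈ ps, p) * q) : ℕ) : ℝ) →
    (((Icc 1 X).filter (fun n => (q : ℤ) ∣ f n ∧ (∀ p ∈ ps, p ∣ n) ∧ (∀ p ∈ P, p ∣ n → p ∈ ps) ∧
      ∀ p ∈ P, ¬ p ^ 2 ∣ n)).card : ℝ) ≤
      2 * (1 + C * ((X : ℝ) / ((∏ p ∈ ps, (p : ℝ)) * q)) * Real.exp (-∑ p ∈ P, (1 : ℝ) / p)) := by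
  obtain ⟨C, hC, hs⟩ := apsieve
  refine ⟨C, hC, ?_⟩
  intro f c0 e Δ h z X q hz hq hqc P ps hP hqP hps hN
  obtain ⟨d, hd⟩ : ∃ d : ℕ, d = ∏ p ∈ ps, p := ⟨_, rfl⟩
  rw [← hd] at hN
  have hdpos : 0 < d := by
    rw [hd]
    exact prod_pos fun p hp => (hP p (hps hp)).1.pos
  have hcop : Nat.Coprime d q := by
    rw [hd]
    apply Nat.Coprime.prod_left
    intro p hp
    rw [Nat.coprime_primes (hP p (hps hp)).1 hq]
    rintro rfl
    exact hqP (hps hp)
  have hsub : (Icc 1 X).filter (fun n => (q : ℤ) ∣ f n ∧ (∀ p ∈ ps, p ∣ n) ∧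
      (∀ p ∈ P, p ∣ n → p ∈ ps) ∧ ∀ p ∈ P, ¬ p ^ 2 ∣ n) ⊆
      (RT f d q).biUnion (fun a => (insert 0 ((Icc 1 (X / (d * q))).filter
        (fun t => ∀ p ∈ P, ¬ p ∣ a + q * t))).image (fun t => d * (a + q * t))) := by
    intro n hn
    rw [mem_filter, mem_Icc] at hn
    obtain ⟨⟨hn1, hn2⟩, hn3, hn4, hn5, hn6⟩ := hn
    have hdn : d ∣ n := by
      rw [hd]
      exact Finset.prod_primes_dvd n (fun p hp => (hP p (hps hp)).1.prime) hn4
    obtain ⟨n', rfl⟩ := hdn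
    rw [mem_biUnion]
    refine ⟨n' % q, mem_RT h hq hn3, ?_⟩
    rw [mem_image]
    refine ⟨n' / q, ?_, by rw [Nat.mod_add_div]⟩
    rw [mem_insert]
    rcases Nat.eq_zero_or_pos (n' / q) with h0 | h0
    · exact Or.inl h0
    · right
      rw [mem_filter, mem_Icc]
      refine ⟨⟨h0, ?_⟩, ?_⟩
      · rw [Nat.le_div_iff_mul_le (Nat.mul_pos hdpos hq.pos)]
        calc n' / q * (d * q) = d * (n' / q * q) := by ring
          _ ≤ d * n' := Nat.mul_le_mul_left d (Nat.div_mul_le_self n' q)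
          _ ≤ X := hn2
      · intro p hp hdv
        rw [Nat.mod_add_div] at hdv
        have h1 := hn5 p hp (Dvd.dvd.mul_left hdv d)
        have h2 : p ∣ d := by
          rw [hd]
          exact Finset.dvd_prod_of_mem (fun p : ℕ => p) h1
        apply hn6 p hp
        rw [pow_two]
        exact mul_dvd_mul h2 hdv
  have hN' : ((X / (d * q) : ℕ) : ℝ) ≤ (X : ℝ) / (d * q) := by
    have := @Nat.cast_div_le ℝ _ _ _ X (d * q)
    push_cast at this
    exact this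
  have hdR : (∏ p ∈ ps, (p : ℝ)) = d := by
    rw [hd]
    push_cast
    rfl
  rw [hdR]
  calc _ ≤ (((RT f d q).biUnion (fun a => (insert 0 ((Icc 1 (X / (d * q))).filter
        (fun t => ∀ p ∈ P, ¬ p ∣ a + q * t))).image (fun t => d * (a + q * t)))).card : ℝ) := by
        exact_mod_cast card_le_card hsub
    _ ≤ ∑ a ∈ RT f d q, (((insert 0 ((Icc 1 (X / (d * q))).filter
        (fun t => ∀ p ∈ P, ¬ p ∣ a + q * t))).image (fun t => d * (a + q * t))).card : ℝ) := by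
        exact_mod_cast card_biUnion_le
    _ ≤ ∑ a ∈ RT f d q, (1 + C * ((X : ℝ) / (d * q)) * Real.exp (-∑ p ∈ P, (1 : ℝ) / p)) := by
        apply sum_le_sum
        intro a _
        have h1 := hs z (X / (d * q)) hz hN P hP a q (by
          intro p hp hpq
          rw [Nat.prime_dvd_prime_iff_eq (hP p hp).1 hq] at hpq
          exact hqP (hpq ▸ hp))
        have h2 : (((insert 0 ((Icc 1 (X / (d * q))).filter
            (fun t => ∀ p ∈ P, ¬ p ∣ a + q * t))).image (fun t => d * (a + q * t))).card : ℝ) ≤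
            (((Icc 1 (X / (d * q))).filter (fun t => ∀ p ∈ P, ¬ p ∣ a + q * t)).card : ℝ) + 1 := by
          exact_mod_cast card_image_le.trans (card_insert_le _ _)
        have h3 : C * ((X / (d * q) : ℕ) : ℝ) * Real.exp (-∑ p ∈ P, (1 : ℝ) / p) ≤
            C * ((X : ℝ) / (d * q)) * Real.exp (-∑ p ∈ P, (1 : ℝ) / p) := by
          apply mul_le_mul_of_nonneg_right _ (Real.exp_pos _).le
          exact mul_le_mul_of_nonneg_left hN' (by linarith)
        linarith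
    _ = (RT f d q).card * (1 + C * ((X : ℝ) / (d * q)) * Real.exp (-∑ p ∈ P, (1 : ℝ) / p)) := by
        rw [sum_const, nsmul_eq_mul]
    _ ≤ _ := by
        apply mul_le_mul_of_nonneg_right (RT_card h hq hqc d hcop)
        have : 0 ≤ C * ((X : ℝ) / (d * q)) * Real.exp (-∑ p ∈ P, (1 : ℝ) / p) := by positivity
        linarith

end Pool.Agent.W854.FA
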