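import Pool.Agent.H634R3.PPC.Test

set_option autoImplicit false

/-!
# The determinant test with weights
-/

namespace Pool.Agent.W854.FA

open AddMonoidAlgebra Pool.Agent.H771R2.Lander

theorem mat_mul2 {q : ℕ} [NeZero q] {T : Type} [Fintype T] [DecidableEq T]
    (A B : T × ZMod q → T × ZMod q → ℤ) (N : ℤ) (lam : T → T → ℤ)
    (hA : ∀ x z, ∑ y, A x y * B z y = (if x = z then N else 0) + lam x.1 z.1)
    (hinv : ∀ (s t : T) (i j c : ZMod q), A (s, i + c) (t, j + c) = A (s, i) (t, j)) :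
    mat A * (((mat B).map (st ℤ q)).transpose) =
      (N : AddMonoidAlgebra ℤ (ZMod q)) • (1 : Matrix T T (AddMonoidAlgebra ℤ (ZMod q))) +
      nm q • Matrix.of (fun s u => (lam s u : AddMonoidAlgebra ℤ (ZMod q))) := by
  funext s u
  have key : ∀ e : ZMod q, ∑ t : T, ∑ c' : ZMod q, A (s, 0) (t, e + c') * B (u, 0) (t, c') =
      (if s = u ∧ e = 0 then N else 0) + lam s u := by
    intro e
    have h1 := hA (s, -e) (u, 0)
    rw [Fintype.sum_prod_type] at h1
    have h2 : ((s, -e) = (u, (0 : ZMod q))) ↔ (s = u ∧ e = 0) := by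
      rw [Prod.mk.injEq, neg_eq_zero]
    simp only [h2] at h1
    rw [← h1]
    refine Finset.sum_congr rfl fun t _ => Finset.sum_congr rfl fun c' _ => ?_
    congr 1
    have := hinv s t (-e) c' e
    rw [neg_add_cancel, add_comm c' e] at this
    exact this
  have h3 : (mat A * (((mat B).map (st ℤ q)).transpose)) s u =
      ∑ e : ZMod q, single e ((if s = u ∧ e = 0 then N else 0) + lam s u) := by
    rw [Matrix.mul_apply]
    simp only [Matrix.transpose_apply, Matrix.map_apply, mat, map_sum, st_single,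
      Finset.sum_mul_sum, single_mul_single]
    have h4 : ∀ t : T, ∑ c : ZMod q, ∑ c' : ZMod q,
        single (c + -c') (A (s, 0) (t, c) * B (u, 0) (t, c')) =
        ∑ e : ZMod q, single e (∑ c' : ZMod q, A (s, 0) (t, e + c') * B (u, 0) (t, c')) := by
      intro t
      rw [Finset.sum_comm]
      have h5 : ∀ c' : ZMod q, ∑ c : ZMod q,
          (single (c + -c') (A (s, 0) (t, c) * B (u, 0) (t, c')) : AddMonoidAlgebra ℤ (ZMod q)) =
          ∑ e : ZMod q, single e (A (s, 0) (t, e + c') * B (u, 0) (t, c')) := by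
        intro c'
        rw [← Equiv.sum_comp (Equiv.addRight c')]
        refine Finset.sum_congr rfl fun e _ => ?_
        simp
      simp only [h5]
      rw [Finset.sum_comm]
      refine Finset.sum_congr rfl fun e _ => ?_
      rw [single_sum']
    simp only [h4]
    rw [Finset.sum_comm]
    refine Finset.sum_congr rfl fun e _ => ?_
    rw [← key e, single_sum']
  rw [h3]
  simp only [Matrix.add_apply, Matrix.smul_apply, Matrix.one_apply, Matrix.of_apply, smul_eq_mul,
    single_add, Finset.sum_add_distrib]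
  congr 1
  · by_cases hsu : s = u
    · simp only [hsu, true_and, if_true, mul_one]
      rw [Finset.sum_eq_single (0 : ZMod q)]
      · simp [intCast_def]
      · intro b _ hb
        simp [hb]
      · simp
    · simp [hsu]
  · unfold nm
    rw [Finset.sum_mul]
    refine Finset.sum_congr rfl fun e _ => ?_
    rw [intCast_def, single_mul_single]
    simp

theorem mat_weight {q : ℕ} [NeZero q] {T : Type} [Fintype T] [DecidableEq T]
    (A B : T × ZMod q → T × ZMod q → ℤ) (w w' : T → ℤ)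
    (hw : ∀ (s t : T) (i j : ZMod q), w s * A (s, i) (t, j) = w' t * B (s, i) (t, j)) :
    ((∏ t, w t : ℤ) : AddMonoidAlgebra ℤ (ZMod q)) * (mat A).det =
      ((∏ t, w' t : ℤ) : AddMonoidAlgebra ℤ (ZMod q)) * (mat B).det := by
  have h1 : Matrix.diagonal (fun t => (w t : AddMonoidAlgebra ℤ (ZMod q))) * mat A =
      mat B * Matrix.diagonal (fun t => (w' t : AddMonoidAlgebra ℤ (ZMod q))) := by
    ext1 s t
    rw [Matrix.diagonal_mul, Matrix.mul_diagonal]
    unfold mat
    rw [Finset.mul_sum, Finset.sum_mul]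
    refine Finset.sum_congr rfl fun c _ => ?_
    rw [intCast_def, intCast_def, single_mul_single, single_mul_single, zero_add, add_zero]
    congr 1
    have := hw s t 0 c
    simp only [Int.cast_id] at *
    rw [this, mul_comm]
  have h2 := congrArg Matrix.det h1
  rw [Matrix.det_mul, Matrix.det_mul, Matrix.det_diagonal, Matrix.det_diagonal] at h2
  push_cast
  rw [h2, mul_comm]

theorem testw {q : ℕ} [NeZero q] (hq : 2 < q) {T : Type} [Fintype T] [DecidableEq T]
    (A B : T × ZMod q → T × ZMod q → ℤ) (N : ℤ) (lam : T → T → ℤ)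
    (hA : ∀ x z, ∑ y, A x y * B z y = (if x = z then N else 0) + lam x.1 z.1)
    (hinv : ∀ (s t : T) (i j c : ZMod q), A (s, i + c) (t, j + c) = A (s, i) (t, j))
    (w w' : T → ℤ)
    (hw : ∀ (s t : T) (i j : ZMod q), w s * A (s, i) (t, j) = w' t * B (s, i) (t, j))
    (hT : Odd (Fintype.card T)) {r : ℕ} (hr : r.Prime) {j : ℕ} (hj : (r : ZMod q) ^ j = -1)
    (hwr : ∀ t, ¬ (r : ℤ) ∣ w t) (hwr' : ∀ t, ¬ (r : ℤ) ∣ w' t)
    {a : ℕ} (ha : Odd a) {u : ℤ} (hu : ¬ (r : ℤ) ∣ u) (hN : N = (r : ℤ) ^ a * u) : False := by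
  obtain ⟨b, hb⟩ := det_mod (N : AddMonoidAlgebra ℤ (ZMod q)) (nm q)
    (Matrix.of (fun (s t : T) => (lam s t : AddMonoidAlgebra ℤ (ZMod q))))
  rw [← mat_mul2 A B N lam hA hinv, Matrix.det_mul, Matrix.det_transpose] at hb
  have h1 : ((mat B).map (st ℤ q)).det = st ℤ q (mat B).det := by
    rw [RingHom.map_det]
    rfl
  rw [h1] at hb
  have hW := mat_weight A B w w' hw
  obtain ⟨W, hWd⟩ : ∃ W : ℤ, W = ∏ t, w t := ⟨_, rfl⟩
  obtain ⟨W', hWd'⟩ : ∃ W' : ℤ, W' = ∏ t, w' t := ⟨_, rfl⟩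
  rw [← hWd, ← hWd'] at hW
  obtain ⟨s, hs⟩ : Odd (a * Fintype.card T) := ha.mul hT
  have hr' : Prime (r : ℤ) := Nat.prime_iff_prime_int.1 hr
  have hu' : ¬ (r : ℤ) ∣ u ^ Fintype.card T * (W * W') := by
    intro h
    rcases hr'.dvd_or_dvd h with h | h
    · exact hu (hr'.dvd_of_dvd_pow h)
    · rcases hr'.dvd_or_dvd h with h | h
      · rw [hWd] at h
        obtain ⟨t, -, ht⟩ := (Prime.dvd_finsetProd_iff hr' _).1 h
        exact hwr t ht
      · rw [hWd'] at h
        obtain ⟨t, -, ht⟩ := (Prime.dvd_finsetProd_iff hr' _).1 h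
        exact hwr' t ht
  apply descent hr hq hj hu' s ((1 - single 1 1) * ((W : AddMonoidAlgebra ℤ (ZMod q)) *
    (mat A).det))
  have h3 : ff q * nm q = 0 := by
    rw [ff, mul_right_comm, one_sub_mul_nm, zero_mul]
  -- `W det A = W' det B`
  have h4 : (W : AddMonoidAlgebra ℤ (ZMod q)) * (mat A).det *
      st ℤ q ((W : AddMonoidAlgebra ℤ (ZMod q)) * (mat A).det) =
      (W : AddMonoidAlgebra ℤ (ZMod q)) * W' *
        ((N : AddMonoidAlgebra ℤ (ZMod q)) ^ Fintype.card T + nm q * b) := by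
    rw [← hb]
    conv_lhs => rw [hW]
    rw [← hW, map_mul, map_intCast]
    have h5 : st ℤ q ((W : AddMonoidAlgebra ℤ (ZMod q)) * (mat A).det) =
        (W' : AddMonoidAlgebra ℤ (ZMod q)) * st ℤ q (mat B).det := by
      rw [hW, map_mul, map_intCast]
    rw [map_mul, map_intCast] at h5
    rw [mul_assoc, h5]
    ring
  have h2 : (1 - single 1 1) * ((W : AddMonoidAlgebra ℤ (ZMod q)) * (mat A).det) *
      st ℤ q ((1 - single 1 1) * ((W : AddMonoidAlgebra ℤ (ZMod q)) * (mat A).det)) =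
      ff q * ((W : AddMonoidAlgebra ℤ (ZMod q)) * (mat A).det *
      st ℤ q ((W : AddMonoidAlgebra ℤ (ZMod q)) * (mat A).det)) := by
    rw [map_mul, ff]
    ring
  rw [h2, h4, hN]
  have h6 : ff q * ((W : AddMonoidAlgebra ℤ (ZMod q)) * W' *
      ((((r : ℤ) ^ a * u : ℤ) : AddMonoidAlgebra ℤ (ZMod q)) ^ Fintype.card T + nm q * b)) =
      ff q * ((W : AddMonoidAlgebra ℤ (ZMod q)) * W' *
      ((((r : ℤ) ^ a * u : ℤ) : AddMonoidAlgebra ℤ (ZMod q)) ^ Fintype.card T)) := by
    have h7 : ff q * ((W : AddMonoidAlgebra ℤ (ZMod q)) * W' * (nm q * b)) = 0 := by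
      rw [show ff q * ((W : AddMonoidAlgebra ℤ (ZMod q)) * W' * (nm q * b)) =
        (ff q * nm q) * ((W : AddMonoidAlgebra ℤ (ZMod q)) * W' * b) by ring, h3, zero_mul]
    rw [mul_add, mul_add, h7, add_zero]
  rw [h6, ← hs, zsmul_eq_mul, pow_mul]
  push_cast
  ring

end Pool.Agent.W854.FA
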