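import Pool.Agent.W854.FA.Sieve
import Pool.Agent.W854.FA.Classes

set_option autoImplicit false

/-!
# Primes of a dyadic interval modulo which every element of `ps` is a quadratic residue
-/

namespace Pool.Agent.W854.FA

open Finset Pool.Agent.H951R4.OD A1aux C1aux Filter Topology

/-- the sifting limit -/
noncomputable def zq (j : ℕ) : ℕ := ⌊Real.exp ((j : ℝ) ^ (9 / 10 : ℝ))⌋₊

theorem log_floor_exp (x : ℝ) (hx : 1 ≤ x) :
    x - Real.log 2 ≤ Real.log (⌊Real.exp x⌋₊ : ℝ) ∧ Real.log (⌊Real.exp x⌋₊ : ℝ) ≤ x := by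
  have h0 : (2 : ℝ) ≤ Real.exp x := by
    have h1 := Real.add_one_le_exp x
    linarith
  have h1 : Real.exp x / 2 ≤ (⌊Real.exp x⌋₊ : ℝ) := by
    have := (Nat.lt_floor_add_one (Real.exp x)).le
    linarith
  have h2 : (⌊Real.exp x⌋₊ : ℝ) ≤ Real.exp x := Nat.floor_le (Real.exp_pos x).le
  have h3 : 0 < (⌊Real.exp x⌋₊ : ℝ) := by linarith
  constructor
  · have := Real.log_le_log (by linarith) h1
    rw [Real.log_div (Real.exp_pos x).ne' (by norm_num), Real.log_exp] at this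
    exact this
  · have := Real.log_le_log h3 h2
    rwa [Real.log_exp] at this

/-- elementary asymptotics used below -/
theorem q_asymp (C : ℝ) : ∃ j0 : ℕ, 4 ≤ j0 ∧ ∀ j : ℕ, j0 ≤ j →
    2 ≤ (j : ℝ) ^ (9 / 10 : ℝ) ∧ C * (j : ℝ) ^ (9 / 10 : ℝ) * (1 + Real.log j) ≤ j / 4 ∧
      (j : ℝ) ^ (9 / 10 : ℝ) ≤ j / 4 := by
  have t1 : Tendsto (fun j : ℕ => (j : ℝ) ^ (9 / 10 : ℝ)) atTop atTop :=
    (tendsto_rpow_atTop (by norm_num)).comp tendsto_natCast_atTop_atTop
  have t2 : Tendsto (fun x : ℝ => (1 + Real.log x) / x ^ (1 / 10 : ℝ)) atTop (𝓝 0) := by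
    have a1 : Tendsto (fun x : ℝ => Real.log x / x ^ (1 / 10 : ℝ)) atTop (𝓝 0) :=
      (isLittleO_log_rpow_atTop (by norm_num)).tendsto_div_nhds_zero
    have a2 : Tendsto (fun x : ℝ => (1 : ℝ) / x ^ (1 / 10 : ℝ)) atTop (𝓝 0) :=
      tendsto_const_nhds.div_atTop (tendsto_rpow_atTop (by norm_num))
    have a3 := a2.add a1
    rw [add_zero] at a3
    refine a3.congr fun x => ?_
    ring
  have t3 := (t2.const_mul (|C| + 1)).comp tendsto_natCast_atTop_atTop (α := ℕ)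
  rw [mul_zero] at t3
  obtain ⟨j0, h0⟩ := ((t1.eventually_ge_atTop 2).and ((t3.eventually (gt_mem_nhds
    (show (0 : ℝ) < 1 / 4 by norm_num))).and (eventually_ge_atTop 4))).exists_forall_of_atTop
  refine ⟨max j0 4, le_max_right _ _, fun j hj => ?_⟩
  obtain ⟨h1, h2, h3⟩ := h0 j ((le_max_left _ _).trans hj)
  have hj4 : (4 : ℝ) ≤ j := by exact_mod_cast h3
  have hj0 : (0 : ℝ) < j := by linarith
  have hlog : 0 ≤ Real.log j := Real.log_nonneg (by linarith)
  have hsplit : (j : ℝ) ^ (9 / 10 : ℝ) * (j : ℝ) ^ (1 / 10 : ℝ) = j := by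
    rw [← Real.rpow_add hj0]
    norm_num
  have hp : 0 < (j : ℝ) ^ (1 / 10 : ℝ) := by positivity
  have hp9 : 0 < (j : ℝ) ^ (9 / 10 : ℝ) := by positivity
  simp only [Function.comp] at h2
  rw [← mul_div_assoc, div_lt_iff₀ hp] at h2
  have h4 : (|C| + 1) * (j : ℝ) ^ (9 / 10 : ℝ) * (1 + Real.log j) ≤ j / 4 := by
    calc (|C| + 1) * (j : ℝ) ^ (9 / 10 : ℝ) * (1 + Real.log j)
        = (j : ℝ) ^ (9 / 10 : ℝ) * ((|C| + 1) * (1 + Real.log j)) := by ring
      _ ≤ (j : ℝ) ^ (9 / 10 : ℝ) * (1 / 4 * (j : ℝ) ^ (1 / 10 : ℝ)) :=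
          mul_le_mul_of_nonneg_left h2.le hp9.le
      _ = j / 4 := by
          rw [mul_left_comm, hsplit]
          ring
  refine ⟨h1, le_trans ?_ h4, le_trans ?_ h4⟩
  · apply mul_le_mul_of_nonneg_right _ (by linarith)
    apply mul_le_mul_of_nonneg_right _ hp9.le
    linarith [le_abs_self C]
  · calc (j : ℝ) ^ (9 / 10 : ℝ) = 1 * (j : ℝ) ^ (9 / 10 : ℝ) * 1 := by ring
      _ ≤ (|C| + 1) * (j : ℝ) ^ (9 / 10 : ℝ) * (1 + Real.log j) := by
          apply mul_le_mul _ (by linarith) (by norm_num) (by positivity)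
          apply mul_le_mul_of_nonneg_right _ hp9.le
          linarith [abs_nonneg C]

theorem qsum : ∃ C : ℝ, 1 ≤ C ∧ ∃ j0 : ℕ, 4 ≤ j0 ∧ ∀ j : ℕ, j0 ≤ j → ∀ ps : Finset ℕ,
    (∀ p ∈ ps, p.Prime ∧ j < p) → (4 * ∏ p ∈ ps, p) ^ 2 ≤ 2 ^ j → ps.card ≤ j →
    ∑ q ∈ Good ps (2 ^ j) (2 ^ (j + 1)), (1 : ℝ) / q ≤
      C * (1 / 2) ^ ps.card * (j : ℝ) ^ (-(9 / 10) : ℝ) := by
  classical
  obtain ⟨C1, hC1, hsv⟩ := apsieve
  obtain ⟨CM, hCM, hM⟩ := mert_le
  obtain ⟨j0, hj04, hj0⟩ := q_asymp C1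
  refine ⟨4 * C1 * Real.exp (CM + 2), ?_, j0, hj04, ?_⟩
  · have : 1 ≤ Real.exp (CM + 2) := Real.one_le_exp (by linarith)
    nlinarith
  intro j hj ps hps hm hcard
  obtain ⟨ha1, ha2, ha3⟩ := hj0 j hj
  have hj4 : 4 ≤ j := hj04.trans hj
  have hjR : (4 : ℝ) ≤ j := by exact_mod_cast hj4
  obtain ⟨m, hmdef⟩ : ∃ m : ℕ, m = 4 * ∏ p ∈ ps, p := ⟨_, rfl⟩
  have hprodpos : 0 < ∏ p ∈ ps, p := Finset.prod_pos fun p hp => (hps p hp).1.pos
  have hm4 : 4 ≤ m := by rw [hmdef]; omega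
  rw [← hmdef] at hm
  have hl2 : 0 < Real.log 2 := Real.log_pos (by norm_num)
  have hl2' : Real.log 2 < 1 := by
    have := Real.log_two_lt_d9
    linarith
  have hl2'' : 1 / 2 < Real.log 2 := by
    have := Real.log_two_gt_d9
    linarith
  -- the sifting limit
  obtain ⟨z, hz⟩ : ∃ z : ℕ, z = zq j := ⟨_, rfl⟩
  have hlz := log_floor_exp ((j : ℝ) ^ (9 / 10 : ℝ)) (by linarith)
  have hzq : (z : ℝ) = (⌊Real.exp ((j : ℝ) ^ (9 / 10 : ℝ))⌋₊ : ℝ) := by rw [hz]; rfl
  rw [← hzq] at hlz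
  obtain ⟨hlz1, hlz2⟩ := hlz
  have hlz3 : 1 ≤ Real.log z := by linarith
  have hz3 : 3 ≤ z := by
    have h1 : Real.exp 1 ≤ (z : ℝ) := by
      have hz0 : (0 : ℝ) < z := by
        rcases Nat.eq_zero_or_pos z with h | h
        · rw [h] at hlz3
          simp only [Nat.cast_zero, Real.log_zero] at hlz3
          linarith
        · exact_mod_cast h
      exact (Real.le_log_iff_exp_le hz0).1 hlz3
    have h2 : (2.7 : ℝ) < Real.exp 1 := by
      have := Real.exp_one_gt_d9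
      linarith
    have h3 : (2 : ℝ) < z := by linarith
    have h4 : 2 < z := by exact_mod_cast h3
    omega
  have hz0 : (0 : ℝ) < z := by
    have : (3 : ℝ) ≤ z := by exact_mod_cast hz3
    linarith
  have hllz : Real.log (Real.log z) ≤ Real.log j := by
    apply Real.log_le_log (by linarith)
    linarith
  have hllz0 : 0 ≤ Real.log (Real.log z) := Real.log_nonneg hlz3
  -- N
  obtain ⟨N, hN⟩ : ∃ N : ℕ, N = 2 ^ (j + 1) / m := ⟨_, rfl⟩
  have hmR : (m : ℝ) ^ 2 ≤ 2 ^ j := by exact_mod_cast hm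
  have hm0 : (0 : ℝ) < m := by
    have : (4 : ℝ) ≤ m := by exact_mod_cast hm4
    linarith
  have hNup : (N : ℝ) ≤ 2 ^ (j + 1) / m := by
    rw [hN]
    have := @Nat.cast_div_le ℝ _ _ _ (2 ^ (j + 1)) m
    push_cast at this
    exact this
  have hNm : m ≤ N := by
    rw [hN, Nat.le_div_iff_mul_le (by omega)]
    calc m * m = m ^ 2 := by ring
      _ ≤ 2 ^ j := hm
      _ ≤ 2 ^ (j + 1) := Nat.pow_le_pow_right (by norm_num) (by omega)
  have hNlow : (2 : ℝ) ^ j ≤ (N : ℝ) ^ 2 := by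
    -- N * m > 2^(j+1) - m, so N ≥ 2^(j+1)/m - 1
    have h1 : 2 ^ (j + 1) < (N + 1) * m := by
      rw [hN]
      have := Nat.lt_div_mul_add (a := 2 ^ (j + 1)) (b := m) (by omega)
      nlinarith
    have h2 : (2 : ℝ) * 2 ^ j < ((N : ℝ) + 1) * m := by
      have h3 : ((2 ^ (j + 1) : ℕ) : ℝ) < (((N + 1) * m : ℕ) : ℝ) := by exact_mod_cast h1
      push_cast at h3
      rw [pow_succ] at h3
      linarith
    have h4 : (1 : ℝ) ≤ N := by
      have : 1 ≤ N := by omega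
      exact_mod_cast this
    -- (N+1) m ≤ 2 N m, so 2^j < N m ; squares
    have h5 : (2 : ℝ) ^ j < N * m := by nlinarith
    have h6 : ((2 : ℝ) ^ j) ^ 2 < ((N : ℝ) * m) ^ 2 := by
      apply pow_lt_pow_left₀ h5 (by positivity) (by norm_num)
    rw [mul_pow] at h6
    have h7 : (0 : ℝ) < 2 ^ j := by positivity
    have h8 : ((2 : ℝ) ^ j) ^ 2 ≤ (N : ℝ) ^ 2 * 2 ^ j := by
      have : (N : ℝ) ^ 2 * (m : ℝ) ^ 2 ≤ (N : ℝ) ^ 2 * 2 ^ j :=
        mul_le_mul_of_nonneg_left hmR (by positivity)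
      linarith
    rw [pow_two] at h8
    exact le_of_mul_le_mul_right h8 h7
  have hNpos : (0 : ℝ) < N := by
    have : 1 ≤ N := by omega
    exact_mod_cast this
  have hlogN : (j : ℝ) / 4 ≤ Real.log N := by
    have h1 := Real.log_le_log (by positivity) hNlow
    rw [Real.log_pow, Real.log_pow] at h1
    push_cast at h1
    nlinarith
  -- sieve each class
  obtain ⟨S, hS⟩ : ∃ S : Finset ℕ, S = (PI 0 z).filter (fun l => ¬ l ∣ m) := ⟨_, rfl⟩
  have hSmem : ∀ l ∈ S, l.Prime ∧ l ≤ z := by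
    intro l hl
    rw [hS, mem_filter, mem_PI] at hl
    exact ⟨hl.1.2, hl.1.1.2⟩
  have hSnd : ∀ l ∈ S, ¬ l ∣ m := by
    intro l hl
    rw [hS, mem_filter] at hl
    exact hl.2
  have hcond : C1 * Real.log z * (1 + Real.log (Real.log z)) ≤ Real.log N := by
    refine le_trans ?_ hlogN
    refine le_trans ?_ ha2
    apply mul_le_mul _ (by linarith) (by linarith) (by positivity)
    exact mul_le_mul_of_nonneg_left hlz2 (by linarith)
  have hsum : Real.log (Real.log z) - (CM + 2) ≤ ∑ l ∈ S, (1 : ℝ) / l := by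
    have h1 := (abs_le.1 (hM z hz3)).1
    have h2 : ∑ l ∈ PI 0 z, (1 : ℝ) / l ≤ ∑ l ∈ S, (1 : ℝ) / l + (1 / 2 + 1) := by
      have h3 : PI 0 z ⊆ S ∪ ({2} ∪ ps) := by
        intro l hl
        by_cases hd : l ∣ m
        · rw [mem_union, mem_union]
          right
          have hlp := (mem_PI.1 hl).2
          rw [hmdef, hlp.dvd_mul] at hd
          rcases hd with hd | hd
          · left
            rw [mem_singleton]
            have h4 : l ∣ 2 ^ 2 := by norm_num; exact hd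
            exact (Nat.prime_dvd_prime_iff_eq hlp Nat.prime_two).1 (hlp.dvd_of_dvd_pow h4)
          · right
            obtain ⟨p, hp, hlp'⟩ := (hlp.prime.dvd_finsetProd_iff _).1 hd
            rw [(Nat.prime_dvd_prime_iff_eq hlp (hps p hp).1).1 hlp']
            exact hp
        · rw [mem_union]
          left
          rw [hS, mem_filter]
          exact ⟨hl, hd⟩
      have hnn : ∀ l : ℕ, (0 : ℝ) ≤ 1 / (l : ℝ) := fun l => by positivity
      have h5 : ∑ l ∈ PI 0 z, (1 : ℝ) / l ≤ ∑ l ∈ S ∪ ({2} ∪ ps), (1 : ℝ) / l :=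
        Finset.sum_le_sum_of_subset_of_nonneg h3 fun l _ _ => hnn l
      have h6 : ∑ l ∈ S ∪ ({2} ∪ ps), (1 : ℝ) / l ≤ ∑ l ∈ S, (1 : ℝ) / l +
          (∑ l ∈ ({2} : Finset ℕ), (1 : ℝ) / l + ∑ l ∈ ps, (1 : ℝ) / l) := by
        have e1 := Finset.sum_union_inter (s₁ := S) (s₂ := {2} ∪ ps) (f := fun l : ℕ => (1 : ℝ) / l)
        have e2 := Finset.sum_union_inter (s₁ := ({2} : Finset ℕ)) (s₂ := ps)
          (f := fun l : ℕ => (1 : ℝ) / l)
        have e3 : 0 ≤ ∑ l ∈ S ∩ ({2} ∪ ps), (1 : ℝ) / l := Finset.sum_nonneg fun l _ => hnn l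
        have e4 : 0 ≤ ∑ l ∈ ({2} : Finset ℕ) ∩ ps, (1 : ℝ) / l := Finset.sum_nonneg fun l _ => hnn l
        linarith
      have h7 : ∑ l ∈ ({2} : Finset ℕ), (1 : ℝ) / l = 1 / 2 := by simp
      have h8 : ∑ l ∈ ps, (1 : ℝ) / l ≤ 1 := by
        calc ∑ l ∈ ps, (1 : ℝ) / l ≤ ∑ _l ∈ ps, (1 : ℝ) / j := by
              apply Finset.sum_le_sum
              intro l hl
              apply one_div_le_one_div_of_le (by linarith)
              exact_mod_cast (hps l hl).2.le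
          _ = ps.card / j := by rw [Finset.sum_const, nsmul_eq_mul]; ring
          _ ≤ 1 := by
              rw [div_le_one (by linarith)]
              exact_mod_cast hcard
      linarith
    linarith
  have hexp : Real.exp (-∑ l ∈ S, (1 : ℝ) / l) ≤ Real.exp (CM + 2) / Real.log z := by
    calc Real.exp (-∑ l ∈ S, (1 : ℝ) / l) ≤ Real.exp ((CM + 2) - Real.log (Real.log z)) :=
          Real.exp_le_exp.2 (by linarith)
      _ = _ := by rw [Real.exp_sub, Real.exp_log (by linarith)]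
  have hclass : ∀ a ∈ GC ps, (((Icc 1 N).filter (fun t => ∀ p ∈ S, ¬ p ∣ a + m * t)).card : ℝ) ≤
      C1 * N * (Real.exp (CM + 2) / Real.log z) := by
    intro a _
    refine (hsv z N hz3 hcond S hSmem a m hSnd).trans ?_
    exact mul_le_mul_of_nonneg_left hexp (by positivity)
  -- covering
  have hz2j : z < 2 ^ j := by
    have h1 : (z : ℝ) < 2 ^ j := by
      have h2 : Real.log z < Real.log (2 ^ j) := by
        rw [Real.log_pow]
        nlinarith
      exact (Real.log_lt_log_iff hz0 (by positivity)).1 h2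
    exact_mod_cast h1
  have hcover : Good ps (2 ^ j) (2 ^ (j + 1)) ⊆ (GC ps).biUnion (fun a =>
      ((Icc 1 N).filter (fun t => ∀ p ∈ S, ¬ p ∣ a + m * t)).image (fun t => a + m * t)) := by
    intro q hq
    obtain ⟨hq1, hq2⟩ := mem_Good.1 hq
    obtain ⟨⟨hq3, hq4⟩, hqp⟩ := mem_PI.1 hq1
    have hmle : m ≤ 2 ^ j := by
      calc m ≤ m ^ 2 := Nat.le_self_pow (by norm_num) m
        _ ≤ _ := hm
    rw [mem_biUnion]
    refine ⟨q % m, ?_, ?_⟩
    · rw [hmdef]
      refine mod_mem_GC ps (fun p hp => (hps p hp).1) hqp (by omega) (fun p hp => ?_) hq2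
      have h1 : p ≤ ∏ p ∈ ps, p :=
        Nat.le_of_dvd hprodpos (Finset.dvd_prod_of_mem (fun p : ℕ => p) hp)
      omega
    · rw [mem_image]
      refine ⟨q / m, ?_, Nat.mod_add_div q m⟩
      rw [mem_filter, mem_Icc]
      refine ⟨⟨?_, ?_⟩, ?_⟩
      · rw [Nat.one_le_div_iff (by omega)]
        omega
      · rw [hN]
        exact Nat.div_le_div_right hq4
      · intro l hl hdv
        rw [Nat.mod_add_div q m] at hdv
        obtain ⟨h1, h2⟩ := hSmem l hl
        have h3 := (Nat.prime_dvd_prime_iff_eq h1 hqp).1 hdv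
        omega
  have hcount : ((Good ps (2 ^ j) (2 ^ (j + 1))).card : ℝ) ≤
      (1 / 2) ^ ps.card * m * (C1 * N * (Real.exp (CM + 2) / Real.log z)) := by
    calc ((Good ps (2 ^ j) (2 ^ (j + 1))).card : ℝ)
        ≤ (((GC ps).biUnion (fun a => ((Icc 1 N).filter
            (fun t => ∀ p ∈ S, ¬ p ∣ a + m * t)).image (fun t => a + m * t))).card : ℝ) := by
          exact_mod_cast Finset.card_le_card hcover
      _ ≤ ∑ a ∈ GC ps, ((((Icc 1 N).filter
            (fun t => ∀ p ∈ S, ¬ p ∣ a + m * t)).image (fun t => a + m * t)).card : ℝ) := by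
          exact_mod_cast Finset.card_biUnion_le
      _ ≤ ∑ a ∈ GC ps, C1 * N * (Real.exp (CM + 2) / Real.log z) := by
          apply Finset.sum_le_sum
          intro a ha
          refine le_trans ?_ (hclass a ha)
          exact_mod_cast Finset.card_image_le
      _ = (GC ps).card * (C1 * N * (Real.exp (CM + 2) / Real.log z)) := by
          rw [Finset.sum_const, nsmul_eq_mul]
      _ ≤ _ := by
          apply mul_le_mul_of_nonneg_right _ (by positivity)
          have := GC_card ps (fun p hp => (hps p hp).1)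
          rw [← hmdef] at this
          exact this
  have hfin : ∑ q ∈ Good ps (2 ^ j) (2 ^ (j + 1)), (1 : ℝ) / q ≤
      ((Good ps (2 ^ j) (2 ^ (j + 1))).card : ℝ) * (1 / 2 ^ j) := by
    rw [← nsmul_eq_mul, ← Finset.sum_const]
    apply Finset.sum_le_sum
    intro q hq
    obtain ⟨⟨hq3, -⟩, -⟩ := mem_PI.1 (mem_Good.1 hq).1
    apply one_div_le_one_div_of_le (by positivity)
    exact_mod_cast hq3.le
  refine hfin.trans ?_
  have hlz4 : 1 / Real.log z ≤ 2 * (j : ℝ) ^ (-(9 / 10) : ℝ) := by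
    rw [Real.rpow_neg (by linarith), ← div_eq_mul_inv]
    rw [div_le_div_iff₀ (by linarith) (by linarith)]
    linarith
  calc ((Good ps (2 ^ j) (2 ^ (j + 1))).card : ℝ) * (1 / 2 ^ j)
      ≤ ((1 / 2) ^ ps.card * m * (C1 * N * (Real.exp (CM + 2) / Real.log z))) * (1 / 2 ^ j) :=
        mul_le_mul_of_nonneg_right hcount (by positivity)
    _ ≤ ((1 / 2) ^ ps.card * m * (C1 * (2 ^ (j + 1) / m) *
          (Real.exp (CM + 2) / Real.log z))) * (1 / 2 ^ j) := by
        apply mul_le_mul_of_nonneg_right _ (by positivity)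
        apply mul_le_mul_of_nonneg_left _ (by positivity)
        apply mul_le_mul_of_nonneg_right _ (by positivity)
        exact mul_le_mul_of_nonneg_left hNup (by linarith)
    _ = 2 * C1 * Real.exp (CM + 2) * (1 / 2) ^ ps.card * (1 / Real.log z) := by
        rw [pow_succ]
        field_simp
    _ ≤ 2 * C1 * Real.exp (CM + 2) * (1 / 2) ^ ps.card * (2 * (j : ℝ) ^ (-(9 / 10) : ℝ)) :=
        mul_le_mul_of_nonneg_left hlz4 (by positivity)
    _ = _ := by ring

end Pool.Agent.W854.FA
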