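import Pool.Agent.W854.FA.NCount

set_option autoImplicit false

/-!
# One dyadic scale
-/

namespace Pool.Agent.W854.FA

open Finset Pool.Agent.H951R4.OD A1aux C1aux Filter Topology

/-- upper end of the test primes -/
noncomputable def zp (j : ℕ) : ℕ := ⌊Real.exp (Real.sqrt j)⌋₊

open Classical in
/-- the test primes -/
noncomputable def PP (c0 j : ℕ) : Finset ℕ := (PI j (zp j)).filter (fun p => ¬ p ∣ c0)

theorem mem_PP {c0 j p : ℕ} : p ∈ PP c0 j ↔ (j < p ∧ p ≤ zp j ∧ p.Prime) ∧ ¬ p ∣ c0 := by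
  classical
  unfold PP
  rw [mem_filter, mem_PI]
  tauto

/-- sum over subsets -/
theorem sum_powerset_prod (P : Finset ℕ) (c : ℝ) (hc : 0 ≤ c) :
    ∑ ps ∈ P.powerset, ∏ p ∈ ps, (c / (p : ℝ)) ≤ Real.exp (c * ∑ p ∈ P, (1 : ℝ) / p) := by
  rw [← Finset.prod_one_add, mul_sum, Real.exp_sum]
  apply Finset.prod_le_prod
  · intro p _; positivity
  · intro p _
    have := Real.add_one_le_exp (c * ((1 : ℝ) / p))
    calc 1 + c / (p : ℝ) = c * (1 / p) + 1 := by ring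
      _ ≤ _ := this

theorem sum_powersetCard_prod (P : Finset ℕ) (m : ℕ) :
    ∑ ps ∈ P.powersetCard m, ∏ p ∈ ps, (1 / (p : ℝ)) ≤
      (1 / 2) ^ m * Real.exp (2 * ∑ p ∈ P, (1 : ℝ) / p) := by
  have h1 : ∑ ps ∈ P.powersetCard m, ∏ p ∈ ps, (1 / (p : ℝ)) =
      (1 / 2) ^ m * ∑ ps ∈ P.powersetCard m, ∏ p ∈ ps, (2 / (p : ℝ)) := by
    rw [mul_sum]
    apply sum_congr rfl
    intro ps hps
    rw [mem_powersetCard] at hps
    have : ∏ p ∈ ps, (2 / (p : ℝ)) = 2 ^ m * ∏ p ∈ ps, (1 / (p : ℝ)) := by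
      rw [← hps.2, ← prod_const, ← prod_mul_distrib]
      apply prod_congr rfl
      intro p _
      ring
    rw [this, ← mul_assoc, ← mul_pow]
    norm_num
  rw [h1]
  apply mul_le_mul_of_nonneg_left _ (by positivity)
  refine le_trans ?_ (sum_powerset_prod P 2 (by norm_num))
  apply sum_le_sum_of_subset_of_nonneg
  · intro ps hps
    rw [mem_powersetCard] at hps
    exact mem_powerset.2 hps.1
  · intro ps _ _
    apply prod_nonneg
    intro p _
    positivity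

/-- the sum of the reciprocals of the test primes -/
theorem PP_sum (c0 : ℕ) (hc0 : 0 < c0) : ∃ C : ℝ, 0 ≤ C ∧ ∀ j : ℕ, 16 ≤ j →
    3 ≤ zp j ∧ Real.log (zp j) ≤ Real.sqrt j ∧
    Real.log (Real.sqrt j) - Real.log (Real.log j) - C ≤ ∑ p ∈ PP c0 j, (1 : ℝ) / p ∧
      ∑ p ∈ PP c0 j, (1 : ℝ) / p ≤ Real.log (Real.sqrt j) + C := by
  classical
  obtain ⟨CM, hCM, hM⟩ := mert_le
  refine ⟨2 * CM + c0 + 1, by positivity, ?_⟩
  intro j hj
  have hjR : (16 : ℝ) ≤ j := by exact_mod_cast hj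
  have hs4 : 4 ≤ Real.sqrt j := by
    rw [show (4 : ℝ) = Real.sqrt 16 by
      rw [show (16 : ℝ) = 4 ^ 2 by norm_num, Real.sqrt_sq (by norm_num)]]
    exact Real.sqrt_le_sqrt hjR
  have hl2 : 0 < Real.log 2 := Real.log_pos (by norm_num)
  have hl2' : Real.log 2 < 1 := by
    have := Real.log_two_lt_d9
    linarith
  obtain ⟨hlz1, hlz2⟩ := log_floor_exp (Real.sqrt j) (by linarith)
  have hzdef : (⌊Real.exp (Real.sqrt j)⌋₊ : ℕ) = zp j := rfl
  rw [hzdef] at hlz1 hlz2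
  have hlz3 : 3 ≤ Real.log (zp j) := by linarith
  have hz0 : (0 : ℝ) < zp j := by
    rcases Nat.eq_zero_or_pos (zp j) with h | h
    · rw [h] at hlz3
      simp only [Nat.cast_zero, Real.log_zero] at hlz3
      linarith
    · exact_mod_cast h
  have hz3 : 3 ≤ zp j := by
    have h1 : Real.exp 3 ≤ (zp j : ℝ) := (Real.le_log_iff_exp_le hz0).1 hlz3
    have h2 := Real.add_one_le_exp (3 : ℝ)
    have h3 : (3 : ℝ) ≤ zp j := by linarith
    exact_mod_cast h3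
  have hM1 := abs_le.1 (hM (zp j) hz3)
  have hM2 := abs_le.1 (hM j (by omega))
  have hllz : Real.log (Real.log (zp j)) ≤ Real.log (Real.sqrt j) :=
    Real.log_le_log (by linarith) hlz2
  have hllz' : Real.log (Real.sqrt j) - 1 ≤ Real.log (Real.log (zp j)) := by
    have h1 : Real.sqrt j / 2 ≤ Real.log (zp j) := by linarith
    have h2 := Real.log_le_log (by linarith) h1
    rw [Real.log_div (by linarith) (by norm_num)] at h2
    linarith
  have hnn : ∀ l : ℕ, (0 : ℝ) ≤ 1 / (l : ℝ) := fun l => by positivity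
  refine ⟨hz3, hlz2, ?_, ?_⟩
  · have hsub : PI 0 (zp j) ⊆ PP c0 j ∪ (PI 0 j ∪ c0.divisors) := by
      intro p hp
      obtain ⟨⟨h1, h2⟩, h3⟩ := mem_PI.1 hp
      rw [mem_union, mem_union]
      by_cases hd : p ∣ c0
      · right; right
        rw [Nat.mem_divisors]
        exact ⟨hd, hc0.ne'⟩
      · rcases Nat.lt_or_ge j p with h4 | h4
        · left
          exact mem_PP.2 ⟨⟨h4, h2, h3⟩, hd⟩
        · right; left
          exact mem_PI.2 ⟨⟨h1, h4⟩, h3⟩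
    have h5 : ∑ l ∈ PI 0 (zp j), (1 : ℝ) / l ≤ ∑ l ∈ PP c0 j ∪ (PI 0 j ∪ c0.divisors), (1 : ℝ) / l :=
      Finset.sum_le_sum_of_subset_of_nonneg hsub fun l _ _ => hnn l
    have h6 : ∑ l ∈ PP c0 j ∪ (PI 0 j ∪ c0.divisors), (1 : ℝ) / l ≤ ∑ l ∈ PP c0 j, (1 : ℝ) / l +
        (∑ l ∈ PI 0 j, (1 : ℝ) / l + ∑ l ∈ c0.divisors, (1 : ℝ) / l) := by
      have e1 := Finset.sum_union_inter (s₁ := PP c0 j) (s₂ := PI 0 j ∪ c0.divisors)
        (f := fun l : ℕ => (1 : ℝ) / l)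
      have e2 := Finset.sum_union_inter (s₁ := PI 0 j) (s₂ := c0.divisors)
        (f := fun l : ℕ => (1 : ℝ) / l)
      have e3 : 0 ≤ ∑ l ∈ PP c0 j ∩ (PI 0 j ∪ c0.divisors), (1 : ℝ) / l :=
        Finset.sum_nonneg fun l _ => hnn l
      have e4 : 0 ≤ ∑ l ∈ PI 0 j ∩ c0.divisors, (1 : ℝ) / l := Finset.sum_nonneg fun l _ => hnn l
      linarith
    have h7 : ∑ l ∈ c0.divisors, (1 : ℝ) / l ≤ c0 := by
      calc ∑ l ∈ c0.divisors, (1 : ℝ) / l ≤ ∑ _l ∈ c0.divisors, (1 : ℝ) := by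
            apply sum_le_sum
            intro l hl
            have := Nat.pos_of_mem_divisors hl
            rw [div_le_one (by exact_mod_cast this)]
            exact_mod_cast this
        _ = c0.divisors.card := by simp
        _ ≤ c0 := by exact_mod_cast Nat.card_divisors_le_self c0
    have h8 : Real.log (Real.log j) ≤ Real.log (Real.log j) := le_rfl
    linarith [hM1.1, hM2.2]
  · have h5 : ∑ l ∈ PP c0 j, (1 : ℝ) / l ≤ ∑ l ∈ PI 0 (zp j), (1 : ℝ) / l := by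
      apply Finset.sum_le_sum_of_subset_of_nonneg _ fun l _ _ => hnn l
      intro p hp
      obtain ⟨⟨h1, h2, h3⟩, -⟩ := mem_PP.1 hp
      exact mem_PI.2 ⟨⟨h3.pos, h2⟩, h3⟩
    have : (0 : ℝ) ≤ c0 := Nat.cast_nonneg c0
    linarith [hM1.2]

end Pool.Agent.W854.FA
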