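import Pool.Agent.W854.FA.Asymp
import Mathlib.Analysis.PSeries

set_option autoImplicit false

/-!
# The count at one dyadic scale
-/

namespace Pool.Agent.W854.FA

open Finset Pool.Agent.H951R4.OD A1aux C1aux Filter Topology

theorem sum_inv_sq_le (j : ℕ) (hj : 1 ≤ j) (P : Finset ℕ) (hP : ∀ p ∈ P, j < p) :
    ∑ p ∈ P, (1 : ℝ) / (p : ℝ) ^ 2 ≤ 1 / j := by
  have h1 : P ⊆ Ioc j (P.sup id) := by
    intro p hp
    rw [mem_Ioc]
    exact ⟨hP p hp, Finset.le_sup (f := id) hp⟩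
  rcases P.eq_empty_or_nonempty with h0 | ⟨p0, hp0⟩
  · rw [h0]
    simp
  have h2 : j ≤ P.sup id := (hP p0 hp0).le.trans (Finset.le_sup (f := id) hp0)
  calc ∑ p ∈ P, (1 : ℝ) / (p : ℝ) ^ 2 ≤ ∑ p ∈ Ioc j (P.sup id), (1 : ℝ) / (p : ℝ) ^ 2 :=
        sum_le_sum_of_subset_of_nonneg h1 fun p _ _ => by positivity
    _ = ∑ p ∈ Ioc j (P.sup id), ((p : ℝ) ^ 2)⁻¹ := by
        apply sum_congr rfl
        intro p _
        rw [one_div]
    _ ≤ (j : ℝ)⁻¹ - ((P.sup id : ℕ) : ℝ)⁻¹ := sum_Ioc_inv_sq_le_sub (by omega) h2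
    _ ≤ 1 / j := by
        rw [one_div]
        have : (0 : ℝ) ≤ ((P.sup id : ℕ) : ℝ)⁻¹ := by positivity
        linarith

/-- `f n` has a test-passing prime divisor `q` at scale `j` -/
def EP (f : ℕ → ℤ) (c0 j n : ℕ) : Prop :=
  ∃ q ∈ PI (2 ^ j) (2 ^ (j + 1)), ¬ q ∣ c0 ∧ (q : ℤ) ∣ f n ∧ ∀ p : ℕ, Ex c0 n p → ch p q ≠ -1

open Classical in
/-- the integers with a test-passing prime divisor `q` of `f n` at scale `j` -/
noncomputable def EE (f : ℕ → ℤ) (c0 j X : ℕ) : Finset ℕ := (Icc 1 X).filter (fun n => EP f c0 j n)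

theorem scale {f : ℕ → ℤ} {c0 : ℕ} {e : ℝ} {Δ : ℤ} (h : Pol f c0 e Δ) (ε : ℝ) (hε : 0 < ε)
    (hε1 : ε ≤ 1) : ∃ C : ℝ, 0 ≤ C ∧ ∃ j0 : ℕ, ∀ j : ℕ, j0 ≤ j → ∀ X : ℕ,
      (j : ℝ) * Real.log 2 ≤ (1 - ε) * Real.log X →
      ((EE f c0 j X).card : ℝ) ≤ C * X * (j : ℝ) ^ (-(11 / 10) : ℝ) := by
  classical
  obtain ⟨C1, hC1, hexact⟩ := count_exact
  obtain ⟨C2, hC2, hPP⟩ := PP_sum c0 h.pos
  obtain ⟨C3, hC3, j1, hj1, hqs⟩ := qsum
  obtain ⟨j2, hj2⟩ := asymp_sqrt (C1 + C2 + 8) (ε / 64) (by positivity)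
  obtain ⟨j3, hj3⟩ := asymp_pow (ε / 8) (by positivity)
  refine ⟨4 * (1 + C1) * C3 * Real.exp (C2 / 2 + 2) + 4 * C3 * Real.exp (2 * C2) + 4 * C3,
    by positivity, max j1 (max j2 (max j3 64)), ?_⟩
  intro j hj X hX
  have hjj1 : j1 ≤ j := (le_max_left _ _).trans hj
  have hjj2 : j2 ≤ j := ((le_max_left _ _).trans (le_max_right _ _)).trans hj
  have hjj3 : j3 ≤ j :=
    ((le_max_left _ _).trans ((le_max_right _ _).trans (le_max_right _ _))).trans hj
  have hj64 : 64 ≤ j :=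
    ((le_max_right _ _).trans ((le_max_right _ _).trans (le_max_right _ _))).trans hj
  have hjR : (64 : ℝ) ≤ j := by exact_mod_cast hj64
  have hj0 : (0 : ℝ) < j := by linarith
  obtain ⟨hb1, hb2, hb3, hb4⟩ := hj2 j hjj2
  have hb5 := hj3 j hjj3
  obtain ⟨hz3, hlz, hG1, hG2⟩ := hPP j (by omega)
  obtain ⟨s, hs⟩ : ∃ s : ℝ, s = Real.sqrt j := ⟨_, rfl⟩
  rw [← hs] at hb1 hb2 hb3 hb5 hlz hG1 hG2
  have hs8 : 8 ≤ s := by
    rw [hs, show (8 : ℝ) = Real.sqrt 64 by
      rw [show (64 : ℝ) = 8 ^ 2 by norm_num, Real.sqrt_sq (by norm_num)]]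
    exact Real.sqrt_le_sqrt hjR
  have hss : s * s = j := by rw [hs]; exact Real.mul_self_sqrt hj0.le
  obtain ⟨G, hG⟩ : ∃ G : ℝ, G = ∑ p ∈ PP c0 j, (1 : ℝ) / p := ⟨_, rfl⟩
  rw [← hG] at hG1 hG2
  obtain ⟨m, hm⟩ : ∃ m : ℕ, m = ⌊ε / 8 * s⌋₊ := ⟨_, rfl⟩
  have hms : (m : ℝ) ≤ ε / 8 * s := by
    rw [hm]
    exact Nat.floor_le (by positivity)
  rw [← hm] at hb5
  have hl2 : 0 < Real.log 2 := Real.log_pos (by norm_num)
  have hl2' : Real.log 2 < 0.7 := by
    have := Real.log_two_lt_d9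
    linarith
  have hl2'' : 0.69 < Real.log 2 := by
    have := Real.log_two_gt_d9
    linarith
  have hlogX0 : 0 < Real.log X := by
    by_contra hneg
    push Not at hneg
    have : (1 - ε) * Real.log X ≤ 0 := mul_nonpos_of_nonneg_of_nonpos (by linarith) hneg
    have h2 : 0 < (j : ℝ) * Real.log 2 := by positivity
    linarith
  have hX0 : 0 < X := by
    rcases Nat.eq_zero_or_pos X with h0 | h0
    · rw [h0] at hlogX0
      simp at hlogX0
    · exact h0
  have hXR : (0 : ℝ) < X := by exact_mod_cast hX0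
  have hXj : (j : ℝ) / 2 ≤ Real.log X := by nlinarith
  have hXe : (X : ℝ) = Real.exp (Real.log X) := (Real.exp_log hXR).symm
  -- room : for q ≤ 2^(j+1), d ≤ exp (ε j / 8): d q exp (ε j / 4 + ...) ≤ X
  have hroom : ∀ q d : ℕ, 0 < q → 0 < d → q ≤ 2 ^ (j + 1) → Real.log d ≤ ε / 8 * j →
      ε / 4 * j + 2 ≤ Real.log ((X : ℝ) / (d * q)) := by
    intro q d hq hd hq2 hlog
    have hqR : (0 : ℝ) < q := by exact_mod_cast hq
    have hdR : (0 : ℝ) < d := by exact_mod_cast hd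
    rw [Real.log_div hXR.ne' (by positivity), Real.log_mul hdR.ne' hqR.ne']
    have h1 : Real.log q ≤ (j + 1) * Real.log 2 := by
      have h2 : (q : ℝ) ≤ 2 ^ (j + 1) := by exact_mod_cast hq2
      have := Real.log_le_log hqR h2
      rw [Real.log_pow] at this
      push_cast at this
      exact this
    have h3 : ε * (j / 2) ≤ ε * Real.log X := mul_le_mul_of_nonneg_left hXj hε.le
    have h4 : (3 : ℝ) ≤ ε / 8 * j := by
      have : (8 : ℝ) ≤ C1 + C2 + 8 := by linarith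
      nlinarith
    nlinarith
  have hroom1 : ∀ q d : ℕ, 0 < q → 0 < d → q ≤ 2 ^ (j + 1) → Real.log d ≤ ε / 8 * j →
      (1 : ℝ) ≤ (X : ℝ) / (d * q) := by
    intro q d hq hd hq2 hlog
    have h1 := hroom q d hq hd hq2 hlog
    have hqR : (0 : ℝ) < q := by exact_mod_cast hq
    have hdR : (0 : ℝ) < d := by exact_mod_cast hd
    have h2 : 0 ≤ Real.log ((X : ℝ) / (d * q)) := by
      have : 0 ≤ ε / 4 * j := by positivity
      linarith
    exact (Real.log_nonneg_iff (by positivity)).1 h2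
  -- products of test primes
  have hprod : ∀ ps : Finset ℕ, ps ⊆ PP c0 j → ps.card ≤ m →
      Real.log ((∏ p ∈ ps, p : ℕ) : ℝ) ≤ ε / 8 * j := by
    intro ps hps hcard
    push_cast
    rw [Real.log_prod (fun p hp => by
      have := (mem_PP.1 (hps hp)).1.2.2.pos
      positivity)]
    calc ∑ p ∈ ps, Real.log (p : ℝ) ≤ ∑ _p ∈ ps, s := by
          apply sum_le_sum
          intro p hp
          obtain ⟨⟨h1, h2, h3⟩, -⟩ := mem_PP.1 (hps hp)
          refine le_trans (Real.log_le_log (by exact_mod_cast h3.pos) ?_) hlz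
          exact_mod_cast h2
      _ = ps.card * s := by rw [sum_const, nsmul_eq_mul]
      _ ≤ m * s := by
          apply mul_le_mul_of_nonneg_right _ (by linarith)
          exact_mod_cast hcard
      _ ≤ ε / 8 * s * s := mul_le_mul_of_nonneg_right hms (by linarith)
      _ = ε / 8 * j := by rw [mul_assoc, hss]
  have hppos : ∀ ps : Finset ℕ, ps ⊆ PP c0 j → 0 < ∏ p ∈ ps, p := fun ps hps =>
    prod_pos fun p hp => (mem_PP.1 (hps hp)).1.2.2.pos
  have hzpq : ∀ q ∈ PI (2 ^ j) (2 ^ (j + 1)), ∀ p ∈ PP c0 j, p < q := by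
    intro q hq p hp
    obtain ⟨⟨hq1, -⟩, -⟩ := mem_PI.1 hq
    obtain ⟨⟨h1, h2, h3⟩, -⟩ := mem_PP.1 hp
    have h4 : (p : ℝ) ≤ 2 ^ j := by
      have h5 : Real.log p ≤ s := by
        refine le_trans (Real.log_le_log (by exact_mod_cast h3.pos) ?_) hlz
        exact_mod_cast h2
      have hp0 : (0 : ℝ) < p := by exact_mod_cast h3.pos
      rw [← Real.log_le_log_iff hp0 (by positivity), Real.log_pow]
      nlinarith
    have h5 : p ≤ 2 ^ j := by exact_mod_cast h4
    omega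
  obtain ⟨Q, hQ⟩ : ∃ Q : Finset ℕ, Q = (PI (2 ^ j) (2 ^ (j + 1))).filter (fun q => ¬ q ∣ c0) :=
    ⟨_, rfl⟩
  have hQmem : ∀ q ∈ Q, q ∈ PI (2 ^ j) (2 ^ (j + 1)) ∧ q.Prime ∧ q ≤ 2 ^ (j + 1) ∧ ¬ q ∣ c0 := by
    intro q hq
    rw [hQ, mem_filter] at hq
    exact ⟨hq.1, (mem_PI.1 hq.1).2, (mem_PI.1 hq.1).1.2, hq.2⟩
  -- three kinds of n
  obtain ⟨Aq, hAq⟩ : ∃ Aq : ℕ → Finset ℕ → Finset ℕ, Aq = fun (q : ℕ) (ps : Finset ℕ) =>
    (Icc 1 X).filter (fun n => (q : ℤ) ∣ f n ∧ (∀ p ∈ ps, p ∣ n) ∧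
      (∀ p ∈ PP c0 j, p ∣ n → p ∈ ps) ∧ ∀ p ∈ PP c0 j, ¬ p ^ 2 ∣ n) := ⟨_, rfl⟩
  obtain ⟨Bq, hBq⟩ : ∃ Bq : ℕ → ℕ → Finset ℕ, Bq = fun (q d : ℕ) =>
    (Icc 1 X).filter (fun n => d ∣ n ∧ (q : ℤ) ∣ f n) := ⟨_, rfl⟩
  have hcover : EE f c0 j X ⊆ (Q.biUnion (fun q => (((PP c0 j).powerset.filter
      (fun ps => ps.card ≤ m ∧ q ∈ Good ps (2 ^ j) (2 ^ (j + 1)))).biUnion (fun ps => Aq q ps)))) ∪
      ((Q.biUnion (fun q => ((PP c0 j).powersetCard m).biUnion (fun T => Bq q (∏ p ∈ T, p)))) ∪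
      (Q.biUnion (fun q => (PP c0 j).biUnion (fun p => Bq q (p ^ 2))))) := by
    intro n hn
    unfold EE at hn
    rw [mem_filter] at hn
    obtain ⟨hn1, q, hq, hqc, hqf, htest⟩ := hn
    have hqQ : q ∈ Q := by
      rw [hQ, mem_filter]
      exact ⟨hq, hqc⟩
    rw [mem_union, mem_union]
    by_cases hsq : ∃ p ∈ PP c0 j, p ^ 2 ∣ n
    · obtain ⟨p, hp, hpn⟩ := hsq
      right; right
      rw [mem_biUnion]
      refine ⟨q, hqQ, ?_⟩
      rw [mem_biUnion]
      refine ⟨p, hp, ?_⟩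
      rw [hBq, mem_filter]
      exact ⟨hn1, hpn, hqf⟩
    · push Not at hsq
      obtain ⟨ps, hps⟩ : ∃ ps : Finset ℕ, ps = (PP c0 j).filter (fun p => p ∣ n) := ⟨_, rfl⟩
      have hpssub : ps ⊆ PP c0 j := by
        rw [hps]
        exact filter_subset _ _
      by_cases hcard : ps.card ≤ m
      · left
        rw [mem_biUnion]
        refine ⟨q, hqQ, ?_⟩
        rw [mem_biUnion]
        refine ⟨ps, ?_, ?_⟩
        · rw [mem_filter, mem_powerset]
          refine ⟨hpssub, hcard, mem_Good.2 ⟨hq, ?_⟩⟩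
          intro p hp
          have hp' := hp
          rw [hps, mem_filter] at hp
          apply htest
          exact ⟨(mem_PP.1 hp.1).1.2.2, (mem_PP.1 hp.1).2, hp.2, hsq p hp.1⟩
        · rw [hAq, mem_filter]
          refine ⟨hn1, hqf, ?_, ?_, hsq⟩
          · intro p hp
            rw [hps, mem_filter] at hp
            exact hp.2
          · intro p hp hpn
            rw [hps, mem_filter]
            exact ⟨hp, hpn⟩
      · right; left
        push Not at hcard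
        obtain ⟨T, hT, hTcard⟩ := exists_subset_card_eq hcard.le
        rw [mem_biUnion]
        refine ⟨q, hqQ, ?_⟩
        rw [mem_biUnion]
        refine ⟨T, ?_, ?_⟩
        · rw [mem_powersetCard]
          exact ⟨hT.trans hpssub, hTcard⟩
        · rw [hBq, mem_filter]
          refine ⟨hn1, ?_, hqf⟩
          apply Finset.prod_primes_dvd n
          · intro p hp
            exact (mem_PP.1 (hpssub (hT hp))).1.2.2.prime
          · intro p hp
            have := hT hp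
            rw [hps, mem_filter] at this
            exact this.2
  -- bounds
  have hA : ∀ q ∈ Q, ∀ ps ∈ (PP c0 j).powerset, ps.card ≤ m →
      ((Aq q ps).card : ℝ) ≤ 2 * (1 + C1) * X * Real.exp (-G) *
        (∏ p ∈ ps, (1 / (p : ℝ))) * (1 / q) := by
    intro q hq ps hps hcard
    rw [mem_powerset] at hps
    obtain ⟨hqPI, hqp, hq2, hqc⟩ := hQmem q hq
    have hlog := hprod ps hps hcard
    have hr := hroom q (∏ p ∈ ps, p) hqp.pos (hppos ps hps) hq2 hlog
    have hr1 := hroom1 q (∏ p ∈ ps, p) hqp.pos (hppos ps hps) hq2 hlog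
    have hqR : (0 : ℝ) < q := by exact_mod_cast hqp.pos
    have hdR : (0 : ℝ) < ((∏ p ∈ ps, p : ℕ) : ℝ) := by exact_mod_cast hppos ps hps
    have hYpos : 0 < (X : ℝ) / (((∏ p ∈ ps, p : ℕ) : ℝ) * q) := by positivity
    have hcond : C1 * Real.log (zp j) * (1 + Real.log (Real.log (zp j))) ≤
        Real.log ((X / ((∏ p ∈ ps, p) * q) : ℕ) : ℝ) := by
      -- floor
      have h1 : (X : ℝ) / (((∏ p ∈ ps, p : ℕ) : ℝ) * q) / 2 ≤
          ((X / ((∏ p ∈ ps, p) * q) : ℕ) : ℝ) := by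
        have h2 : (X : ℝ) / (((∏ p ∈ ps, p : ℕ) : ℝ) * q) <
            ((X / ((∏ p ∈ ps, p) * q) : ℕ) : ℝ) + 1 := by
          rw [div_lt_iff₀ (by positivity)]
          have h3 : X < (X / ((∏ p ∈ ps, p) * q) + 1) * ((∏ p ∈ ps, p) * q) := by
            have h4 := Nat.lt_div_mul_add (a := X) (b := (∏ p ∈ ps, p) * q)
              (Nat.mul_pos (hppos ps hps) hqp.pos)
            nlinarith
          exact_mod_cast h3
        have h5 : (1 : ℝ) ≤ ((X / ((∏ p ∈ ps, p) * q) : ℕ) : ℝ) := by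
          have h6 : (0 : ℝ) < ((X / ((∏ p ∈ ps, p) * q) : ℕ) : ℝ) := by linarith
          have h7 : 0 < X / ((∏ p ∈ ps, p) * q) := by exact_mod_cast h6
          exact_mod_cast h7
        linarith
      have h8 := Real.log_le_log (by positivity) h1
      rw [Real.log_div hYpos.ne' (by norm_num)] at h8
      have h9 : ε / 4 * j ≤ Real.log ((X / ((∏ p ∈ ps, p) * q) : ℕ) : ℝ) := by linarith
      refine le_trans ?_ h9
      have h10 : 1 ≤ Real.log (zp j) := by
        have h11 : (3 : ℝ) ≤ zp j := by exact_mod_cast hz3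
        rw [Real.le_log_iff_exp_le (by linarith)]
        have := Real.exp_one_lt_d9
        linarith
      have h12 : Real.log (Real.log (zp j)) ≤ Real.log s := Real.log_le_log (by linarith) hlz
      have h13 : 0 ≤ Real.log (Real.log (zp j)) := Real.log_nonneg h10
      calc C1 * Real.log (zp j) * (1 + Real.log (Real.log (zp j)))
          ≤ (C1 + C2 + 8) * s * (1 + Real.log s) := by
            apply mul_le_mul _ (by linarith) (by linarith) (by positivity)
            apply mul_le_mul (by linarith) hlz (by linarith) (by positivity)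
        _ ≤ ε / 64 * j := hb1
        _ ≤ ε / 4 * j := by nlinarith
    have hc := hexact f c0 e Δ h (zp j) X q hz3 hqp hqc (PP c0 j) ps
      (fun p hp => ⟨(mem_PP.1 hp).1.2.2, (mem_PP.1 hp).1.2.1⟩)
      (fun hqP => absurd (hzpq q hqPI q hqP) (lt_irrefl q)) hps hcond
    have hAc : ((Aq q ps).card : ℝ) ≤
        2 * (1 + C1 * ((X : ℝ) / ((∏ p ∈ ps, (p : ℝ)) * q)) * Real.exp (-G)) := by
      rw [hG, hAq]
      exact hc
    refine hAc.trans ?_
    have hprodcast : (∏ p ∈ ps, (p : ℝ)) = ((∏ p ∈ ps, p : ℕ) : ℝ) := by push_cast; rfl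
    have h1 : 1 ≤ ((X : ℝ) / ((∏ p ∈ ps, (p : ℝ)) * q)) * Real.exp (-G) := by
      rw [hprodcast]
      have h2 : (X : ℝ) / (((∏ p ∈ ps, p : ℕ) : ℝ) * q) =
          Real.exp (Real.log ((X : ℝ) / (((∏ p ∈ ps, p : ℕ) : ℝ) * q))) :=
        (Real.exp_log hYpos).symm
      rw [h2, ← Real.exp_add]
      apply Real.one_le_exp
      have h3 : G ≤ ε / 64 * j := by linarith
      nlinarith
    have h4 : (∏ p ∈ ps, (1 / (p : ℝ))) * (1 / q) = 1 / ((∏ p ∈ ps, (p : ℝ)) * q) := by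
      rw [Finset.prod_div_distrib, prod_const_one]
      field_simp
    calc 2 * (1 + C1 * ((X : ℝ) / ((∏ p ∈ ps, (p : ℝ)) * q)) * Real.exp (-G))
        ≤ 2 * (((X : ℝ) / ((∏ p ∈ ps, (p : ℝ)) * q)) * Real.exp (-G) +
          C1 * ((X : ℝ) / ((∏ p ∈ ps, (p : ℝ)) * q)) * Real.exp (-G)) := by linarith
      _ = 2 * (1 + C1) * X * Real.exp (-G) * (1 / ((∏ p ∈ ps, (p : ℝ)) * q)) := by ring
      _ = _ := by rw [← h4]; ring
  have hB : ∀ q ∈ Q, ∀ d : ℕ, 0 < d → Nat.Coprime d q → Real.log d ≤ ε / 8 * j →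
      ((Bq q d).card : ℝ) ≤ 4 * X * (1 / d) * (1 / q) := by
    intro q hq d hd hcop hlog
    obtain ⟨hqPI, hqp, hq2, hqc⟩ := hQmem q hq
    have h1 := count_dvd h hqp hqc d hd hcop X
    have h2 := hroom1 q d hqp.pos hd hq2 hlog
    have h3 : ((Bq q d).card : ℝ) ≤ 2 * ((X : ℝ) / (d * q) + 1) := by
      rw [hBq]
      exact h1
    calc ((Bq q d).card : ℝ) ≤ 2 * ((X : ℝ) / (d * q) + 1) := h3
      _ ≤ 2 * ((X : ℝ) / (d * q) + (X : ℝ) / (d * q)) := by linarith
      _ = 4 * X * (1 / d) * (1 / q) := by ring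
  -- sums over q
  have hqsum : ∀ ps : Finset ℕ, ps ⊆ PP c0 j → ps.card ≤ m →
      ∑ q ∈ Good ps (2 ^ j) (2 ^ (j + 1)), (1 : ℝ) / q ≤
        C3 * (1 / 2) ^ ps.card * (j : ℝ) ^ (-(9 / 10) : ℝ) := by
    intro ps hps hcard
    refine hqs j hjj1 ps (fun p hp => ⟨(mem_PP.1 (hps hp)).1.2.2, (mem_PP.1 (hps hp)).1.1⟩) ?_ ?_
    · have hlog := hprod ps hps hcard
      have hdR : (0 : ℝ) < ((∏ p ∈ ps, p : ℕ) : ℝ) := by exact_mod_cast hppos ps hps
      have h1 : (((4 * ∏ p ∈ ps, p) ^ 2 : ℕ) : ℝ) ≤ ((2 ^ j : ℕ) : ℝ) := by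
        have h2 : (((4 * ∏ p ∈ ps, p) ^ 2 : ℕ) : ℝ) = (4 * ((∏ p ∈ ps, p : ℕ) : ℝ)) ^ 2 := by
          push_cast
          ring
        rw [h2]
        have h3 : ((2 ^ j : ℕ) : ℝ) = 2 ^ j := by push_cast; rfl
        rw [h3, ← Real.log_le_log_iff (by positivity) (by positivity), Real.log_pow, Real.log_pow,
          Real.log_mul (by norm_num) hdR.ne']
        have h4 : Real.log 4 = 2 * Real.log 2 := by
          rw [show (4 : ℝ) = 2 ^ 2 by norm_num, Real.log_pow]
          norm_num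
        rw [h4]
        obtain ⟨Lp, hLp⟩ : ∃ Lp : ℝ, Lp = Real.log ((∏ p ∈ ps, p : ℕ) : ℝ) := ⟨_, rfl⟩
        rw [← hLp] at hlog ⊢
        have h5 : ε * j ≤ 1 * j := mul_le_mul_of_nonneg_right hε1 hj0.le
        have h6 : (0.69 : ℝ) * j ≤ Real.log 2 * j := mul_le_mul_of_nonneg_right hl2''.le hj0.le
        have h7 : ((2 : ℕ) : ℝ) = 2 := by norm_num
        rw [h7]
        linarith
      exact_mod_cast h1
    · have h1 : (ps.card : ℝ) ≤ j := by
        have h2 : (ps.card : ℝ) ≤ m := by exact_mod_cast hcard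
        have h3 : ε / 8 * s ≤ s * s := by nlinarith
        linarith
      exact_mod_cast h1
  have hq0 : ∑ q ∈ Q, (1 : ℝ) / q ≤ C3 * (j : ℝ) ^ (-(9 / 10) : ℝ) := by
    have h1 := hqsum ∅ (empty_subset _) (by simp)
    rw [card_empty, pow_zero, mul_one] at h1
    refine le_trans ?_ h1
    apply sum_le_sum_of_subset_of_nonneg
    · intro q hq
      exact mem_Good.2 ⟨(hQmem q hq).1, by simp⟩
    · intro q _ _
      positivity
  have hjp : 0 < (j : ℝ) ^ (-(9 / 10) : ℝ) := by positivity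
  have hjp11 : (j : ℝ) ^ (-(9 / 10) : ℝ) * (j : ℝ) ^ (-(1 / 5) : ℝ) = (j : ℝ) ^ (-(11 / 10) : ℝ) := by
    rw [← Real.rpow_add hj0]
    norm_num
  -- first sum
  have hS1 : ∑ q ∈ Q, ∑ ps ∈ (PP c0 j).powerset.filter
      (fun ps => ps.card ≤ m ∧ q ∈ Good ps (2 ^ j) (2 ^ (j + 1))), ((Aq q ps).card : ℝ) ≤
      2 * (1 + C1) * C3 * Real.exp (C2 / 2 + 2) * X * (j : ℝ) ^ (-(11 / 10) : ℝ) := by
    calc _ ≤ ∑ q ∈ Q, ∑ ps ∈ (PP c0 j).powerset.filter
          (fun ps => ps.card ≤ m ∧ q ∈ Good ps (2 ^ j) (2 ^ (j + 1))),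
            2 * (1 + C1) * X * Real.exp (-G) * (∏ p ∈ ps, (1 / (p : ℝ))) * (1 / q) := by
          apply sum_le_sum
          intro q hq
          apply sum_le_sum
          intro ps hps
          rw [mem_filter] at hps
          exact hA q hq ps hps.1 hps.2.1
      _ = ∑ ps ∈ (PP c0 j).powerset, ∑ q ∈ Q,
            (if ps.card ≤ m ∧ q ∈ Good ps (2 ^ j) (2 ^ (j + 1)) then
            2 * (1 + C1) * X * Real.exp (-G) * (∏ p ∈ ps, (1 / (p : ℝ))) * (1 / q) else 0) := by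
          rw [sum_comm]
          apply sum_congr rfl
          intro q _
          rw [sum_filter]
      _ ≤ ∑ ps ∈ (PP c0 j).powerset, 2 * (1 + C1) * X * Real.exp (-G) *
            (∏ p ∈ ps, (1 / (p : ℝ))) * (C3 * (1 / 2) ^ ps.card * (j : ℝ) ^ (-(9 / 10) : ℝ)) := by
          apply sum_le_sum
          intro ps hps
          rw [mem_powerset] at hps
          by_cases hcard : ps.card ≤ m
          · have hnn : 0 ≤ 2 * (1 + C1) * X * Real.exp (-G) * (∏ p ∈ ps, (1 / (p : ℝ))) := by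
              have : 0 ≤ ∏ p ∈ ps, (1 / (p : ℝ)) := prod_nonneg fun p _ => by positivity
              positivity
            calc _ = ∑ q ∈ Q.filter (fun q => q ∈ Good ps (2 ^ j) (2 ^ (j + 1))),
                  2 * (1 + C1) * X * Real.exp (-G) * (∏ p ∈ ps, (1 / (p : ℝ))) * (1 / q) := by
                  rw [sum_filter]
                  apply sum_congr rfl
                  intro q _
                  simp [hcard]
              _ ≤ ∑ q ∈ Good ps (2 ^ j) (2 ^ (j + 1)),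
                  2 * (1 + C1) * X * Real.exp (-G) * (∏ p ∈ ps, (1 / (p : ℝ))) * (1 / q) := by
                  apply sum_le_sum_of_subset_of_nonneg
                  · intro q hq
                    exact (mem_filter.1 hq).2
                  · intro q _ _
                    positivity
              _ = 2 * (1 + C1) * X * Real.exp (-G) * (∏ p ∈ ps, (1 / (p : ℝ))) *
                  ∑ q ∈ Good ps (2 ^ j) (2 ^ (j + 1)), (1 : ℝ) / q := by rw [mul_sum]
              _ ≤ _ := mul_le_mul_of_nonneg_left (hqsum ps hps hcard) hnn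
          · have hz : ∑ q ∈ Q, (if ps.card ≤ m ∧ q ∈ Good ps (2 ^ j) (2 ^ (j + 1)) then
              2 * (1 + C1) * X * Real.exp (-G) * (∏ p ∈ ps, (1 / (p : ℝ))) * (1 / q) else 0) = 0 := by
              apply sum_eq_zero
              intro q _
              rw [if_neg (fun h => hcard h.1)]
            rw [hz]
            have : 0 ≤ ∏ p ∈ ps, (1 / (p : ℝ)) := prod_nonneg fun p _ => by positivity
            positivity
      _ = 2 * (1 + C1) * C3 * X * Real.exp (-G) * (j : ℝ) ^ (-(9 / 10) : ℝ) *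
            ∑ ps ∈ (PP c0 j).powerset, ∏ p ∈ ps, ((1 / 2) / (p : ℝ)) := by
          rw [mul_sum]
          apply sum_congr rfl
          intro ps _
          have : ∏ p ∈ ps, ((1 / 2) / (p : ℝ)) = (1 / 2) ^ ps.card * ∏ p ∈ ps, (1 / (p : ℝ)) := by
            rw [← prod_const, ← prod_mul_distrib]
            apply prod_congr rfl
            intro p _
            ring
          rw [this]
          ring
      _ ≤ 2 * (1 + C1) * C3 * X * Real.exp (-G) * (j : ℝ) ^ (-(9 / 10) : ℝ) *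
            Real.exp (1 / 2 * G) := by
          apply mul_le_mul_of_nonneg_left _ (by positivity)
          rw [hG]
          exact sum_powerset_prod (PP c0 j) (1 / 2) (by norm_num)
      _ = 2 * (1 + C1) * C3 * X * (j : ℝ) ^ (-(9 / 10) : ℝ) * Real.exp (-G / 2) := by
          have : Real.exp (-G) * Real.exp (1 / 2 * G) = Real.exp (-G / 2) := by
            rw [← Real.exp_add]
            congr 1
            ring
          rw [← this]
          ring
      _ ≤ 2 * (1 + C1) * C3 * X * (j : ℝ) ^ (-(9 / 10) : ℝ) *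
            (Real.exp (C2 / 2 + 2) * (j : ℝ) ^ (-(1 / 5) : ℝ)) := by
          apply mul_le_mul_of_nonneg_left _ (by positivity)
          apply exp_half_bound C2 G j (by omega)
          rw [← hs]
          exact hG1
      _ = _ := by
          rw [← hjp11]
          ring
  -- second sum
  have hS2 : ∑ q ∈ Q, ∑ T ∈ (PP c0 j).powersetCard m, ((Bq q (∏ p ∈ T, p)).card : ℝ) ≤
      4 * C3 * Real.exp (2 * C2) * X * (j : ℝ) ^ (-(11 / 10) : ℝ) := by
    calc _ ≤ ∑ q ∈ Q, ∑ T ∈ (PP c0 j).powersetCard m,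
          4 * X * (∏ p ∈ T, (1 / (p : ℝ))) * (1 / q) := by
          apply sum_le_sum
          intro q hq
          apply sum_le_sum
          intro T hT
          rw [mem_powersetCard] at hT
          have hcop : Nat.Coprime (∏ p ∈ T, p) q := by
            apply Nat.Coprime.prod_left
            intro p hp
            rw [Nat.coprime_primes (mem_PP.1 (hT.1 hp)).1.2.2 (hQmem q hq).2.1]
            exact (hzpq q (hQmem q hq).1 p (hT.1 hp)).ne
          have h1 := hB q hq (∏ p ∈ T, p) (hppos T hT.1) hcop (hprod T hT.1 hT.2.le)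
          refine h1.trans (le_of_eq ?_)
          rw [Finset.prod_div_distrib, prod_const_one]
          push_cast
          rfl
      _ = 4 * X * (∑ T ∈ (PP c0 j).powersetCard m, ∏ p ∈ T, (1 / (p : ℝ))) *
            ∑ q ∈ Q, (1 : ℝ) / q := by
          rw [mul_sum]
          apply sum_congr rfl
          intro q _
          rw [mul_sum, sum_mul]
      _ ≤ 4 * X * ((1 / 2) ^ m * Real.exp (2 * G)) * (C3 * (j : ℝ) ^ (-(9 / 10) : ℝ)) := by
          apply mul_le_mul _ hq0 (sum_nonneg fun q _ => by positivity) (by positivity)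
          apply mul_le_mul_of_nonneg_left _ (by positivity)
          rw [hG]
          exact sum_powersetCard_prod (PP c0 j) m
      _ ≤ 4 * X * ((1 / 2) ^ m * (Real.exp (2 * C2) * j)) * (C3 * (j : ℝ) ^ (-(9 / 10) : ℝ)) := by
          apply mul_le_mul_of_nonneg_right _ (by positivity)
          apply mul_le_mul_of_nonneg_left _ (by positivity)
          apply mul_le_mul_of_nonneg_left _ (by positivity)
          calc Real.exp (2 * G) ≤ Real.exp (2 * (Real.log s + C2)) := Real.exp_le_exp.2 (by linarith)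
            _ = Real.exp (2 * C2) * (Real.exp (Real.log s) * Real.exp (Real.log s)) := by
                rw [← Real.exp_add, ← Real.exp_add]
                congr 1
                ring
            _ = Real.exp (2 * C2) * j := by rw [Real.exp_log (by linarith), hss]
      _ = 4 * C3 * Real.exp (2 * C2) * X * (j : ℝ) ^ (-(9 / 10) : ℝ) * ((j : ℝ) * (1 / 2) ^ m) := by
          ring
      _ ≤ 4 * C3 * Real.exp (2 * C2) * X * (j : ℝ) ^ (-(9 / 10) : ℝ) *
            (j : ℝ) ^ (-(1 / 5) : ℝ) := mul_le_mul_of_nonneg_left hb5 (by positivity)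
      _ = _ := by
          rw [← hjp11]
          ring
  -- third sum
  have hS3 : ∑ q ∈ Q, ∑ p ∈ PP c0 j, ((Bq q (p ^ 2)).card : ℝ) ≤
      4 * C3 * X * (j : ℝ) ^ (-(11 / 10) : ℝ) := by
    calc _ ≤ ∑ q ∈ Q, ∑ p ∈ PP c0 j, 4 * X * (1 / (p : ℝ) ^ 2) * (1 / q) := by
          apply sum_le_sum
          intro q hq
          apply sum_le_sum
          intro p hp
          obtain ⟨⟨hp1, hp2, hp3⟩, -⟩ := mem_PP.1 hp
          have hcop : Nat.Coprime (p ^ 2) q := by
            apply Nat.Coprime.pow_left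
            rw [Nat.coprime_primes hp3 (hQmem q hq).2.1]
            exact (hzpq q (hQmem q hq).1 p hp).ne
          have hlog : Real.log ((p ^ 2 : ℕ) : ℝ) ≤ ε / 8 * j := by
            push_cast
            rw [Real.log_pow]
            have h1 : Real.log p ≤ s := by
              refine le_trans (Real.log_le_log (by exact_mod_cast hp3.pos) ?_) hlz
              exact_mod_cast hp2
            push_cast
            have h2 : (8 : ℝ) * s ≤ (C1 + C2 + 8) * s :=
              mul_le_mul_of_nonneg_right (by linarith) (by linarith)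
            nlinarith
          have h1 := hB q hq (p ^ 2) (pow_pos hp3.pos 2) hcop hlog
          refine h1.trans (le_of_eq ?_)
          push_cast
          rfl
      _ = 4 * X * (∑ p ∈ PP c0 j, (1 : ℝ) / (p : ℝ) ^ 2) * ∑ q ∈ Q, (1 : ℝ) / q := by
          rw [mul_sum]
          apply sum_congr rfl
          intro q _
          rw [mul_sum, sum_mul]
      _ ≤ 4 * X * (1 / j) * (C3 * (j : ℝ) ^ (-(9 / 10) : ℝ)) := by
          apply mul_le_mul _ hq0 (sum_nonneg fun q _ => by positivity) (by positivity)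
          apply mul_le_mul_of_nonneg_left _ (by positivity)
          exact sum_inv_sq_le j (by omega) _ fun p hp => (mem_PP.1 hp).1.1
      _ ≤ 4 * X * (j : ℝ) ^ (-(1 / 5) : ℝ) * (C3 * (j : ℝ) ^ (-(9 / 10) : ℝ)) := by
          apply mul_le_mul_of_nonneg_right _ (by positivity)
          apply mul_le_mul_of_nonneg_left _ (by positivity)
          rw [one_div, ← Real.rpow_neg_one]
          apply Real.rpow_le_rpow_of_exponent_le (by linarith)
          norm_num
      _ = _ := by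
          rw [← hjp11]
          ring
  have hfinal : ((EE f c0 j X).card : ℝ) ≤
      ∑ q ∈ Q, ∑ ps ∈ (PP c0 j).powerset.filter
        (fun ps => ps.card ≤ m ∧ q ∈ Good ps (2 ^ j) (2 ^ (j + 1))), ((Aq q ps).card : ℝ) +
      (∑ q ∈ Q, ∑ T ∈ (PP c0 j).powersetCard m, ((Bq q (∏ p ∈ T, p)).card : ℝ) +
      ∑ q ∈ Q, ∑ p ∈ PP c0 j, ((Bq q (p ^ 2)).card : ℝ)) := by
    have h1 := (card_le_card hcover).trans ((card_union_le _ _).trans
      (Nat.add_le_add_left (card_union_le _ _) _))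
    have h2 : (Q.biUnion (fun q => (((PP c0 j).powerset.filter
      (fun ps => ps.card ≤ m ∧ q ∈ Good ps (2 ^ j) (2 ^ (j + 1)))).biUnion
        (fun ps => Aq q ps)))).card ≤ ∑ q ∈ Q, ∑ ps ∈ (PP c0 j).powerset.filter
        (fun ps => ps.card ≤ m ∧ q ∈ Good ps (2 ^ j) (2 ^ (j + 1))), (Aq q ps).card :=
      card_biUnion_le.trans (sum_le_sum fun q _ => card_biUnion_le)
    have h3 : (Q.biUnion (fun q => ((PP c0 j).powersetCard m).biUnion
        (fun T => Bq q (∏ p ∈ T, p)))).card ≤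
        ∑ q ∈ Q, ∑ T ∈ (PP c0 j).powersetCard m, (Bq q (∏ p ∈ T, p)).card :=
      card_biUnion_le.trans (sum_le_sum fun q _ => card_biUnion_le)
    have h4 : (Q.biUnion (fun q => (PP c0 j).biUnion (fun p => Bq q (p ^ 2)))).card ≤
        ∑ q ∈ Q, ∑ p ∈ PP c0 j, (Bq q (p ^ 2)).card :=
      card_biUnion_le.trans (sum_le_sum fun q _ => card_biUnion_le)
    have h5 := h1.trans (Nat.add_le_add h2 (Nat.add_le_add h3 h4))
    exact_mod_cast h5
  have hX11 : 0 ≤ (1 + C1) * C3 * Real.exp (C2 / 2 + 2) * X * (j : ℝ) ^ (-(11 / 10) : ℝ) := by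
    positivity
  have hgoal : (4 * (1 + C1) * C3 * Real.exp (C2 / 2 + 2) + 4 * C3 * Real.exp (2 * C2) + 4 * C3) *
      X * (j : ℝ) ^ (-(11 / 10) : ℝ) =
      2 * ((1 + C1) * C3 * Real.exp (C2 / 2 + 2) * X * (j : ℝ) ^ (-(11 / 10) : ℝ)) +
      2 * (1 + C1) * C3 * Real.exp (C2 / 2 + 2) * X * (j : ℝ) ^ (-(11 / 10) : ℝ) +
      4 * C3 * Real.exp (2 * C2) * X * (j : ℝ) ^ (-(11 / 10) : ℝ) +
      4 * C3 * X * (j : ℝ) ^ (-(11 / 10) : ℝ) := by ring
  rw [hgoal]
  linarith

end Pool.Agent.W854.FA
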