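import Pool.Agent.H951R4.OD.D1

set_option autoImplicit false

/-!
# Sieving an arithmetic progression
-/

namespace Pool.Agent.W854.FA

open Finset Pool.Agent.H951R4.OD

open Classical in
/-- exactly one `t < p` with `p ∣ a + b * t` -/
theorem root_count {p : ℕ} (hp : p.Prime) (a b : ℕ) (hb : ¬ p ∣ b) :
    ∑ t ∈ range p, (if p ∣ a + b * t then (1 : ℝ) else 0) = 1 := by
  have hF : Fact p.Prime := ⟨hp⟩
  have hb' : (b : ZMod p) ≠ 0 := by
    rw [Ne, ZMod.natCast_eq_zero_iff]
    exact hb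
  rw [← sum_filter, sum_const, nsmul_eq_mul, mul_one]
  have hset : (range p).filter (fun t : ℕ => p ∣ a + b * t) =
      {(-((b : ZMod p)⁻¹ * (a : ZMod p))).val} := by
    ext t
    rw [mem_filter, mem_range, mem_singleton, ← ZMod.natCast_eq_zero_iff]
    push_cast
    constructor
    · rintro ⟨h1, h2⟩
      have h3 : (t : ZMod p) = -((b : ZMod p)⁻¹ * (a : ZMod p)) := by
        apply mul_left_cancel₀ hb'
        rw [mul_neg, mul_inv_cancel_left₀ hb']
        linear_combination h2
      rw [← h3, ZMod.val_natCast, Nat.mod_eq_of_lt h1]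
    · rintro rfl
      refine ⟨ZMod.val_lt _, ?_⟩
      rw [ZMod.natCast_zmod_val, mul_neg, mul_inv_cancel_left₀ hb', add_neg_cancel]
  rw [hset]
  simp

open Classical in
theorem apsieve : ∃ C : ℝ, 1 ≤ C ∧ ∀ z N : ℕ, 3 ≤ z →
    C * Real.log z * (1 + Real.log (Real.log z)) ≤ Real.log N →
    ∀ S : Finset ℕ, (∀ p ∈ S, p.Prime ∧ p ≤ z) → ∀ a b : ℕ, (∀ p ∈ S, ¬ p ∣ b) →
      (((Icc 1 N).filter (fun t => ∀ p ∈ S, ¬ p ∣ a + b * t)).card : ℝ) ≤
        C * N * Real.exp (-∑ p ∈ S, (1 : ℝ) / p) := by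
  obtain ⟨C, hC, hs⟩ := sieve
  refine ⟨C, hC, ?_⟩
  intro z N hz hN S hS a b hb
  have h1 := hs z N hz hN S (fun p => p) (fun p t => if p ∣ a + b * t then 1 else 0)
    (fun p hp => ⟨(hS p hp).1, (hS p hp).2, Or.inl rfl⟩)
    (by
      intro p _ n
      by_cases h : p ∣ a + b * n
      · right; simp [h]
      · left; simp [h])
    (by
      intro p _ n
      have : p ∣ a + b * (n + p) ↔ p ∣ a + b * n := by
        have e : a + b * (n + p) = a + b * n + b * p := by ring
        rw [e, Nat.dvd_add_left (Dvd.intro_left b rfl)]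
      simp only [this])
    (by
      intro p hp
      rw [root_count (hS p hp).1 a b (hb p hp)]
      apply div_le_div_of_nonneg_right (by norm_num) (Nat.cast_nonneg p))
  have h2 : ∑ p ∈ S, (∑ n ∈ range p, (if p ∣ a + b * n then (1 : ℝ) else 0)) / (p : ℝ) =
      ∑ p ∈ S, (1 : ℝ) / p :=
    sum_congr rfl fun p hp => by rw [root_count (hS p hp).1 a b (hb p hp)]
  rw [h2] at h1
  refine le_trans ?_ h1
  rw [card_filter]
  push_cast
  refine sum_le_sum fun t _ => ?_
  split_ifs with h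
  · apply le_of_eq
    symm
    apply prod_eq_one
    intro p hp
    rw [if_neg (h p hp), sub_zero]
  · apply prod_nonneg
    intro p _
    split_ifs <;> norm_num

end Pool.Agent.W854.FA
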