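import Pool.Agent.W854.FA.Fixed
import Pool.Agent.W854.FA.Big

set_option autoImplicit false

/-!
# All prime divisors of `f n`
-/

namespace Pool.Agent.W854.FA

open Finset Pool.Agent.H951R4.OD A1aux C1aux Filter Topology

/-- some odd prime `q` with `log q ≤ L` which divides `f n` or is at most `Q` passes the test -/
def UP (f : ℕ → ℤ) (c0 Q : ℕ) (L : ℝ) (n : ℕ) : Prop :=
  ∃ q : ℕ, q.Prime ∧ q ≠ 2 ∧ ((q : ℤ) ∣ f n ∨ q ≤ Q) ∧ Real.log q ≤ L ∧ FQ c0 q n

theorem tail_sum (C η : ℝ) (hη : 0 < η) : ∃ j1 : ℕ, ∀ M : ℕ,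
    ∑ j ∈ Ico j1 M, C * (j : ℝ) ^ (-(11 / 10) : ℝ) ≤ η := by
  have hs : Summable (fun j : ℕ => C * (j : ℝ) ^ (-(11 / 10) : ℝ)) :=
    (Real.summable_nat_rpow.2 (by norm_num)).mul_left C
  obtain ⟨s, hs'⟩ := summable_iff_vanishing_norm.1 hs η hη
  refine ⟨s.sup id + 1, fun M => ?_⟩
  have hd : Disjoint (Ico (s.sup id + 1) M) s := by
    rw [Finset.disjoint_left]
    intro a ha ha'
    rw [mem_Ico] at ha
    have := Finset.le_sup (f := id) ha'
    simp only [id] at this
    have h2 := ha.1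
    omega
  have := hs' _ hd
  exact (le_abs_self _).trans this.le

open Classical in
theorem upto {f : ℕ → ℤ} {c0 : ℕ} {e : ℝ} {Δ : ℤ} (h : Pol f c0 e Δ) (Q : ℕ) (ε : ℝ) (hε : 0 < ε)
    (hε1 : ε ≤ 1) (η : ℝ) (hη : 0 < η) : ∃ N0 : ℕ, ∀ X : ℕ, N0 ≤ X →
      (((Icc 1 X).filter (fun n => UP f c0 Q ((1 - ε) * Real.log X) n)).card : ℝ) ≤ η * X := by
  obtain ⟨C, hC, j0, hsc⟩ := scale h ε hε hε1
  obtain ⟨j1, hj1⟩ := tail_sum C (η / 2) (by positivity)
  obtain ⟨J, hJ⟩ : ∃ J : ℕ, J = max j0 j1 := ⟨_, rfl⟩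
  obtain ⟨F, hF⟩ : ∃ F : Finset ℕ, F = (range (2 ^ J + 1) ∪ (range (Q + 1) ∪ c0.divisors)).filter
      (fun q => q.Prime ∧ q ≠ 2) := ⟨_, rfl⟩
  have hFmem : ∀ q ∈ F, q.Prime ∧ q ≠ 2 := by
    intro q hq
    rw [hF, mem_filter] at hq
    exact hq.2
  have hfix : ∀ q ∈ F, ∃ N0 : ℕ, ∀ X : ℕ, N0 ≤ X →
      (((Icc 1 X).filter (fun n => FQ c0 q n)).card : ℝ) ≤ (η / (2 * (F.card + 1))) * X := by
    intro q hq
    exact fixq c0 h.pos (hFmem q hq).1 (hFmem q hq).2 _ (by positivity)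
  choose! Nq hNq using hfix
  refine ⟨F.sup Nq, fun X hX => ?_⟩
  have hX0 : (0 : ℝ) ≤ X := Nat.cast_nonneg X
  have hsub : (Icc 1 X).filter (fun n => UP f c0 Q ((1 - ε) * Real.log X) n) ⊆
      (F.biUnion (fun q => (Icc 1 X).filter (fun n => FQ c0 q n))) ∪
      ((Ico J (X + 1)).filter (fun j : ℕ => (j : ℝ) * Real.log 2 ≤ (1 - ε) * Real.log X)).biUnion
        (fun j => EE f c0 j X) := by
    intro n hn
    rw [mem_filter] at hn
    obtain ⟨hn1, q, hq, hq2, hqf, hlq, hFQ⟩ := hn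
    rw [mem_union, mem_biUnion, mem_biUnion]
    by_cases hqF : q ∈ F
    · left
      exact ⟨q, hqF, by rw [mem_filter]; exact ⟨hn1, hFQ⟩⟩
    · right
      have h1 : ¬ q ∣ c0 := by
        intro hd
        apply hqF
        rw [hF, mem_filter, mem_union, mem_union, Nat.mem_divisors]
        exact ⟨Or.inr (Or.inr ⟨hd, h.pos.ne'⟩), hq, hq2⟩
      have h1' : ¬ q ≤ Q := by
        intro hd
        apply hqF
        rw [hF, mem_filter, mem_union, mem_union, mem_range, mem_range]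
        exact ⟨Or.inr (Or.inl (by omega)), hq, hq2⟩
      have h2 : 2 ^ J < q := by
        by_contra hle
        push Not at hle
        apply hqF
        rw [hF, mem_filter, mem_union, mem_range]
        exact ⟨Or.inl (by omega), hq, hq2⟩
      -- the scale
      obtain ⟨j, hj⟩ : ∃ j : ℕ, j = Nat.log 2 (q - 1) := ⟨_, rfl⟩
      have hq1 : 1 < q := hq.one_lt
      have hq3 : q - 1 ≠ 0 := by omega
      have h3 : 2 ^ j ≤ q - 1 := by
        rw [hj]
        exact Nat.pow_log_le_self 2 hq3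
      have h4 : q - 1 < 2 ^ (j + 1) := by
        rw [hj]
        exact Nat.lt_pow_succ_log_self (by norm_num) _
      have h5 : J ≤ j := by
        rw [hj]
        apply Nat.le_log_of_pow_le (by norm_num)
        omega
      have h6 : (j : ℝ) * Real.log 2 ≤ (1 - ε) * Real.log X := by
        refine le_trans ?_ hlq
        rw [← Real.log_pow]
        apply Real.log_le_log (by positivity)
        have : 2 ^ j ≤ q := by omega
        exact_mod_cast this
      refine ⟨j, ?_, ?_⟩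
      · rw [mem_filter, mem_Ico]
        refine ⟨⟨h5, ?_⟩, h6⟩
        -- 2^j ≤ X
        have hX1 : 1 ≤ X := by
          rw [mem_Icc] at hn1
          omega
        have hXR : (1 : ℝ) ≤ X := by exact_mod_cast hX1
        have hlX : 0 ≤ Real.log X := Real.log_nonneg hXR
        have h7 : Real.log ((2 : ℝ) ^ j) ≤ Real.log X := by
          rw [Real.log_pow]
          nlinarith
        have h8 : (2 : ℝ) ^ j ≤ X := (Real.log_le_log_iff (by positivity) (by linarith)).1 h7
        have h9 : 2 ^ j ≤ X := by exact_mod_cast h8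
        have h10 : j < 2 ^ j := Nat.lt_two_pow_self
        omega
      · unfold EE
        rw [mem_filter]
        refine ⟨hn1, q, mem_PI.2 ⟨⟨by omega, by omega⟩, hq⟩, h1, ?_, hFQ⟩
        exact hqf.resolve_right h1'
  have h1 : ((F.biUnion (fun q => (Icc 1 X).filter (fun n => FQ c0 q n))).card : ℝ) ≤
      η / 2 * X := by
    calc ((F.biUnion (fun q => (Icc 1 X).filter (fun n => FQ c0 q n))).card : ℝ)
        ≤ ∑ q ∈ F, (((Icc 1 X).filter (fun n => FQ c0 q n)).card : ℝ) := by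
          exact_mod_cast card_biUnion_le
      _ ≤ ∑ _q ∈ F, (η / (2 * (F.card + 1))) * X :=
          sum_le_sum fun q hq => hNq q hq X ((Finset.le_sup (f := Nq) hq).trans hX)
      _ = F.card * ((η / (2 * (F.card + 1))) * X) := by rw [sum_const, nsmul_eq_mul]
      _ = η / 2 * X * (F.card / (F.card + 1)) := by
          have : ((F.card : ℝ) + 1) ≠ 0 := by positivity
          field_simp
      _ ≤ η / 2 * X * 1 := by
          apply mul_le_mul_of_nonneg_left _ (by positivity)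
          rw [div_le_one (by positivity)]
          linarith
      _ = _ := mul_one _
  have h2 : ((((Ico J (X + 1)).filter (fun j : ℕ => (j : ℝ) * Real.log 2 ≤
      (1 - ε) * Real.log X)).biUnion (fun j => EE f c0 j X)).card : ℝ) ≤ η / 2 * X := by
    calc _ ≤ ∑ j ∈ (Ico J (X + 1)).filter (fun j : ℕ => (j : ℝ) * Real.log 2 ≤
            (1 - ε) * Real.log X), ((EE f c0 j X).card : ℝ) := by
          exact_mod_cast card_biUnion_le
      _ ≤ ∑ j ∈ (Ico J (X + 1)).filter (fun j : ℕ => (j : ℝ) * Real.log 2 ≤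
            (1 - ε) * Real.log X), C * X * (j : ℝ) ^ (-(11 / 10) : ℝ) := by
          apply sum_le_sum
          intro j hj
          rw [mem_filter, mem_Ico] at hj
          apply hsc j _ X hj.2
          have := hj.1.1
          rw [hJ] at this
          exact (le_max_left _ _).trans this
      _ ≤ ∑ j ∈ Ico j1 (X + 1), C * X * (j : ℝ) ^ (-(11 / 10) : ℝ) := by
          apply sum_le_sum_of_subset_of_nonneg
          · intro j hj
            rw [mem_filter, mem_Ico] at hj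
            rw [mem_Ico]
            have := hj.1.1
            rw [hJ] at this
            exact ⟨(le_max_right _ _).trans this, hj.1.2⟩
          · intro j _ _
            positivity
      _ = X * ∑ j ∈ Ico j1 (X + 1), C * (j : ℝ) ^ (-(11 / 10) : ℝ) := by
          rw [mul_sum]
          apply sum_congr rfl
          intro j _
          ring
      _ ≤ X * (η / 2) := mul_le_mul_of_nonneg_left (hj1 _) hX0
      _ = _ := by ring
  have h3 : (((Icc 1 X).filter (fun n => UP f c0 Q ((1 - ε) * Real.log X) n)).card : ℝ) ≤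
      ((F.biUnion (fun q => (Icc 1 X).filter (fun n => FQ c0 q n))).card : ℝ) +
      ((((Ico J (X + 1)).filter (fun j : ℕ => (j : ℝ) * Real.log 2 ≤
      (1 - ε) * Real.log X)).biUnion (fun j => EE f c0 j X)).card : ℝ) := by
    exact_mod_cast (card_le_card hsub).trans (card_union_le _ _)
  linarith

open Classical in
/-- `f` of linear growth, one zero modulo each prime -/
theorem lin_main {f : ℕ → ℤ} {c0 : ℕ} {Δ : ℤ} (h : Pol f c0 0 Δ) (A : ℝ) (hA : 1 ≤ A)
    (hf : ∀ n : ℕ, 1 ≤ n → 0 < f n ∧ (f n : ℝ) ≤ A * n) (Q : ℕ) (η : ℝ) (hη : 0 < η) :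
    ∃ N0 : ℕ, ∀ X : ℕ, N0 ≤ X → (((Icc 1 X).filter (fun n => ∃ q : ℕ, q.Prime ∧ q ≠ 2 ∧
      ((q : ℤ) ∣ f n ∨ q ≤ Q) ∧ FQ c0 q n)).card : ℝ) ≤ η * X := by
  obtain ⟨ε, hε⟩ : ∃ ε : ℝ, ε = min (1 / 2) (η / 6) := ⟨_, rfl⟩
  have hε0 : 0 < ε := by
    rw [hε]
    positivity
  have hε1 : ε ≤ 1 / 2 := by
    rw [hε]
    exact min_le_left _ _
  have hε2 : ε ≤ η / 6 := by
    rw [hε]
    exact min_le_right _ _
  obtain ⟨N1, h1⟩ := upto h Q ε hε0 (by linarith) (η / 2) (by positivity)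
  obtain ⟨N2, h2⟩ := big h A hA hf ε hε0 hε1
  have hlim : Tendsto (fun X : ℕ => (1 - ε) * Real.log X) atTop atTop :=
    (Real.tendsto_log_atTop.comp tendsto_natCast_atTop_atTop).const_mul_atTop (by linarith)
  obtain ⟨N3, hN3⟩ := (hlim.eventually_ge_atTop (Real.log (max c0 Q : ℕ))).exists_forall_of_atTop
  refine ⟨max N1 (max N2 N3), fun X hX => ?_⟩
  have hX1 := h1 X ((le_max_left _ _).trans hX)
  have hX2 := h2 X (((le_max_left _ _).trans (le_max_right _ _)).trans hX)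
  have hX3 := hN3 X (((le_max_right _ _).trans (le_max_right _ _)).trans hX)
  have hX0 : (0 : ℝ) ≤ X := Nat.cast_nonneg X
  have hsub : (Icc 1 X).filter (fun n => ∃ q : ℕ, q.Prime ∧ q ≠ 2 ∧
      ((q : ℤ) ∣ f n ∨ q ≤ Q) ∧ FQ c0 q n) ⊆
      (Icc 1 X).filter (fun n => UP f c0 Q ((1 - ε) * Real.log X) n) ∪
      (Icc 1 X).filter (fun n => ∃ q : ℕ, q.Prime ∧ ¬ q ∣ c0 ∧
      (q : ℤ) ∣ f n ∧ (1 - ε) * Real.log X < Real.log q) := by
    intro n hn
    rw [mem_filter] at hn
    obtain ⟨hn1, q, hq, hq2, hqf, hFQ⟩ := hn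
    rw [mem_union, mem_filter, mem_filter]
    by_cases hlq : Real.log q ≤ (1 - ε) * Real.log X
    · left
      exact ⟨hn1, q, hq, hq2, hqf, hlq, hFQ⟩
    · right
      push Not at hlq
      have h4 : ¬ q ≤ max c0 Q := by
        intro h5
        have h6 : Real.log q ≤ Real.log (max c0 Q : ℕ) :=
          Real.log_le_log (by exact_mod_cast hq.pos) (by exact_mod_cast h5)
        linarith
      have h3 : ¬ q ∣ c0 := fun hd =>
        h4 ((Nat.le_of_dvd h.pos hd).trans (le_max_left _ _))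
      exact ⟨hn1, q, hq, h3, hqf.resolve_right (fun hd => h4 (hd.trans (le_max_right _ _))), hlq⟩
  have h3 : (((Icc 1 X).filter (fun n => ∃ q : ℕ, q.Prime ∧ q ≠ 2 ∧
      ((q : ℤ) ∣ f n ∨ q ≤ Q) ∧ FQ c0 q n)).card : ℝ) ≤
      (((Icc 1 X).filter (fun n => UP f c0 Q ((1 - ε) * Real.log X) n)).card : ℝ) +
      (((Icc 1 X).filter (fun n => ∃ q : ℕ, q.Prime ∧ ¬ q ∣ c0 ∧
      (q : ℤ) ∣ f n ∧ (1 - ε) * Real.log X < Real.log q)).card : ℝ) := by
    exact_mod_cast (card_le_card hsub).trans (card_union_le _ _)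
  have h4 : 3 * ε * X ≤ η / 2 * X := mul_le_mul_of_nonneg_right (by linarith) hX0
  linarith

end Pool.Agent.W854.FA
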